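import Mathlib

/-!
# Chunk DT (M)
A determinant with two small columns.

Proof. Let `A m l = (y m).coeff l` (`D x D` integer matrix). Its rows are independent over `ℝ` (a relation
between the rows is a relation between the polynomials, which have degree `< D`), so `det A ≠ 0`
(`Matrix.linearIndependent_rows_iff_isUnit` over `ℝ`, `Int.cast_det`), and `1 ≤ |det A|`. Let
`U` be the real matrix with columns `U l 0 = ζ^l`, `U l 1 = l ζ^(l-1)`, `U l c = if l = c then 1 else 0` for
`c ≥ 2`: it is lower triangular with diagonal 1 (`Matrix.det_of_isLowerTriangular`), `det U = 1`. So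
`|det A| = |det (A * U)|`, and `A * U` has the columns `(y m)(ζ)`, `(y m)'(ζ)`, `(y m).coeff c` (`c ≥ 2`)
(`aeval_eq_sum_range'`, `derivative`). By the Leibniz formula (`Matrix.det_apply`,
`Finset.abs_sum_le_sum_abs`) `|det| ≤ Σ_σ ∏_m |(A U) m (σ m)| ≤ D! ∏ H m * v * d`: in the product for `σ` the
factor of the row with `σ m = 0` is at most `H m * v`, with `σ m = 1` at most `H m * d`, the others at most
`H m`. (`H m ≥ 0`. Write the bound as `∏ H m * ∏_m e (σ m)` with `e 0 = v`, `e 1 = d`, `e c = 1` and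
`∏_m e (σ m) = ∏_c e c = v d` by `Equiv.prod_comp`.)
-/

open Polynomial Filter

namespace Pool.Agent.Lib.H42W

/-- The unipotent matrix. -/
noncomputable def dtU (D : ℕ) (ζ : ℝ) : Matrix (Fin D) (Fin D) ℝ := fun l c =>
  if c.val = 0 then ζ ^ l.val else if c.val = 1 then (l.val : ℝ) * ζ ^ (l.val - 1) else if l = c then 1 else 0

theorem dt_detU (D : ℕ) (ζ : ℝ) : (dtU D ζ).det = 1 := by
  rw [Matrix.det_of_isLowerTriangular]
  · refine Finset.prod_eq_one fun i _ => ?_
    unfold dtU
    by_cases h0 : i.val = 0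
    · rw [if_pos h0, h0, pow_zero]
    · rw [if_neg h0]
      by_cases h1 : i.val = 1
      · rw [if_pos h1, h1]
        norm_num
      · rw [if_neg h1, if_pos rfl]
  · intro i j hij
    have hij' : i < j := hij
    have hlt : i.val < j.val := hij'
    unfold dtU
    have h0 : j.val ≠ 0 := by omega
    rw [if_neg h0]
    by_cases h1 : j.val = 1
    · have hi : i.val = 0 := by omega
      rw [if_pos h1, hi]
      norm_num
    · rw [if_neg h1, if_neg (by rintro rfl; exact lt_irrefl _ hlt)]

theorem dt_val {D : ℕ} (p : ℤ[X]) (hp : p.natDegree < D) (ζ : ℝ) :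
    ∑ l : Fin D, (p.coeff l.val : ℝ) * ζ ^ l.val = aeval ζ p := by
  rw [aeval_eq_sum_range' hp, ← Fin.sum_univ_eq_sum_range (fun l => p.coeff l • ζ ^ l) D]
  refine Finset.sum_congr rfl fun l _ => ?_
  rw [zsmul_eq_mul]

theorem dt_der {D : ℕ} (p : ℤ[X]) (hp : p.natDegree < D) (ζ : ℝ) :
    ∑ l : Fin D, (p.coeff l.val : ℝ) * ((l.val : ℝ) * ζ ^ (l.val - 1)) = aeval ζ (derivative p) := by
  conv_rhs => rw [as_sum_range' p D hp]
  rw [map_sum, map_sum, ← Fin.sum_univ_eq_sum_range
    (fun l => aeval ζ (derivative (monomial l (p.coeff l)))) D]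
  refine Finset.sum_congr rfl fun l _ => ?_
  rw [derivative_monomial, aeval_monomial]
  simp only [eq_intCast, Int.cast_mul, Int.cast_natCast]
  ring

/-- The bounding factors. -/
noncomputable def dtE {D : ℕ} (v d : ℝ) (c : Fin D) : ℝ :=
  (if c.val = 0 then v else 1) * (if c.val = 1 then d else 1)

theorem dt_prodE {D : ℕ} (hD : 2 ≤ D) (v d : ℝ) : ∏ c : Fin D, dtE v d c = v * d := by
  unfold dtE
  rw [Finset.prod_mul_distrib]
  have h0 : ∏ c : Fin D, (if c.val = 0 then v else 1) = v := by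
    have : ∀ c : Fin D, (if c.val = 0 then v else 1) = if c = (⟨0, by omega⟩ : Fin D) then v else 1 := by
      intro c
      by_cases h : c.val = 0
      · rw [if_pos h, if_pos (Fin.ext h)]
      · rw [if_neg h, if_neg fun h' => h (by rw [h'])]
    rw [Finset.prod_congr rfl fun c _ => this c, Finset.prod_ite_eq', if_pos (Finset.mem_univ _)]
  have h1 : ∏ c : Fin D, (if c.val = 1 then d else 1) = d := by
    have : ∀ c : Fin D, (if c.val = 1 then d else 1) = if c = (⟨1, by omega⟩ : Fin D) then d else 1 := by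
      intro c
      by_cases h : c.val = 1
      · rw [if_pos h, if_pos (Fin.ext h)]
      · rw [if_neg h, if_neg fun h' => h (by rw [h'])]
    rw [Finset.prod_congr rfl fun c _ => this c, Finset.prod_ite_eq', if_pos (Finset.mem_univ _)]
  rw [h0, h1]

/-- The matrix of the coefficients. -/
noncomputable def dtA {D : ℕ} (y : Fin D → ℤ[X]) : Matrix (Fin D) (Fin D) ℝ := fun m l => ((y m).coeff l.val : ℝ)

theorem dt_detA {D : ℕ} {y : Fin D → ℤ[X]} (hy : ∀ m, (y m).natDegree < D)
    (hli : LinearIndependent ℝ (fun m => (y m).map (Int.castRingHom ℝ))) :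
    (1 : ℝ) ≤ |(Matrix.det (dtA y) : ℝ)| := by
  have hrow : LinearIndependent ℝ (Matrix.row (dtA y)) := by
    rw [Fintype.linearIndependent_iff] at hli ⊢
    intro g hg
    apply hli g
    ext l
    rw [finsetSum_coeff, coeff_zero]
    by_cases hl : l < D
    · have h := congrFun hg ⟨l, hl⟩
      rw [Finset.sum_apply, Pi.zero_apply] at h
      rw [← h]
      refine Finset.sum_congr rfl fun m _ => ?_
      rw [coeff_smul, coeff_map, Pi.smul_apply]
      rfl
    · refine Finset.sum_eq_zero fun m _ => ?_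
      rw [coeff_smul, coeff_map, coeff_eq_zero_of_natDegree_lt (lt_of_lt_of_le (hy m) (not_lt.1 hl)),
        map_zero, smul_zero]
  have hu := Matrix.linearIndependent_rows_iff_isUnit.1 hrow
  rw [Matrix.isUnit_iff_isUnit_det, isUnit_iff_ne_zero] at hu
  have hc : ((Matrix.det (fun m l : Fin D => (y m).coeff l.val) : ℤ) : ℝ) = Matrix.det (dtA y) := by
    rw [Int.cast_det]
    rfl
  rw [← hc] at hu ⊢
  have hne : Matrix.det (fun m l : Fin D => (y m).coeff l.val) ≠ 0 := by
    intro h
    exact hu (by rw [h, Int.cast_zero])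
  have := Int.one_le_abs hne
  exact_mod_cast this

theorem det_two (D : ℕ) (hD : 2 ≤ D) (y : Fin D → ℤ[X]) (hy : ∀ m, (y m).natDegree < D)
    (hli : LinearIndependent ℝ (fun m => (y m).map (Int.castRingHom ℝ))) (ζ : ℝ) (H : Fin D → ℝ)
    (v d : ℝ) (hv0 : 0 ≤ v) (hd0 : 0 ≤ d) (hH : ∀ m l, |((y m).coeff l : ℝ)| ≤ H m)
    (hv : ∀ m, |aeval ζ (y m)| ≤ H m * v) (hd : ∀ m, |aeval ζ (derivative (y m))| ≤ H m * d) :
    1 ≤ (D.factorial : ℝ) * (∏ m, H m) * v * d := by
  have hH0 : ∀ m, 0 ≤ H m := fun m => le_trans (abs_nonneg _) (hH m 0)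
  have hA := dt_detA hy hli
  have hAU : |(Matrix.det (dtA y) : ℝ)| = |(dtA y * dtU D ζ).det| := by
    rw [Matrix.det_mul, dt_detU, mul_one]
  rw [hAU] at hA
  set B : Matrix (Fin D) (Fin D) ℝ := dtA y * dtU D ζ with hB
  have hent : ∀ m c, |B m c| ≤ H m * dtE v d c := by
    intro m c
    rw [hB, Matrix.mul_apply]
    unfold dtE
    by_cases h0 : c.val = 0
    · have h1 : ¬ c.val = 1 := by omega
      rw [if_pos h0, if_neg h1, mul_one]
      have : ∑ j : Fin D, dtA y m j * dtU D ζ j c = aeval ζ (y m) := by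
        rw [← dt_val (y m) (hy m) ζ]
        refine Finset.sum_congr rfl fun j _ => ?_
        unfold dtU dtA
        rw [if_pos h0]
      rw [this]
      exact hv m
    · rw [if_neg h0, one_mul]
      by_cases h1 : c.val = 1
      · rw [if_pos h1]
        have : ∑ j : Fin D, dtA y m j * dtU D ζ j c = aeval ζ (derivative (y m)) := by
          rw [← dt_der (y m) (hy m) ζ]
          refine Finset.sum_congr rfl fun j _ => ?_
          unfold dtU dtA
          rw [if_neg h0, if_pos h1]
        rw [this]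
        exact hd m
      · rw [if_neg h1, mul_one]
        have : ∑ j : Fin D, dtA y m j * dtU D ζ j c = ((y m).coeff c.val : ℝ) := by
          rw [Finset.sum_eq_single c]
          · unfold dtU dtA
            rw [if_neg h0, if_neg h1, if_pos rfl, mul_one]
          · intro j _ hj
            unfold dtU
            rw [if_neg h0, if_neg h1, if_neg hj, mul_zero]
          · intro h
            exact absurd (Finset.mem_univ _) h
        rw [this]
        exact hH m c.val
  have hprod : ∀ σ : Equiv.Perm (Fin D), |((Equiv.Perm.sign σ : ℤ) : ℝ) * ∏ i, B (σ i) i| ≤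
      (∏ m, H m) * v * d := by
    intro σ
    have hs : |((Equiv.Perm.sign σ : ℤ) : ℝ)| = 1 := by
      rcases Int.units_eq_one_or (Equiv.Perm.sign σ) with h | h <;> rw [h] <;> norm_num
    rw [abs_mul, hs, one_mul, Finset.abs_prod]
    calc ∏ i, |B (σ i) i| ≤ ∏ i, (H (σ i) * dtE v d i) :=
          Finset.prod_le_prod (fun i _ => abs_nonneg _) fun i _ => hent (σ i) i
      _ = (∏ i, H (σ i)) * ∏ i, dtE v d i := Finset.prod_mul_distrib
      _ = (∏ m, H m) * (v * d) := by rw [Equiv.prod_comp σ H, dt_prodE hD]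
      _ = (∏ m, H m) * v * d := by ring
  calc (1 : ℝ) ≤ |B.det| := hA
    _ = |∑ σ : Equiv.Perm (Fin D), ((Equiv.Perm.sign σ : ℤ) : ℝ) * ∏ i, B (σ i) i| := by
        rw [Matrix.det_apply']
    _ ≤ ∑ σ : Equiv.Perm (Fin D), |((Equiv.Perm.sign σ : ℤ) : ℝ) * ∏ i, B (σ i) i| :=
        Finset.abs_sum_le_sum_abs _ _
    _ ≤ ∑ _σ : Equiv.Perm (Fin D), (∏ m, H m) * v * d := Finset.sum_le_sum fun σ _ => hprod σ
    _ = (D.factorial : ℝ) * (∏ m, H m) * v * d := by
        rw [Finset.sum_const, Finset.card_univ, Fintype.card_perm, Fintype.card_fin, nsmul_eq_mul]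
        ring

end Pool.Agent.Lib.H42W
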