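import Pool.Agent.Lib.H70W.Main
import Pool.Agent.Lib.H70X.MK2

/-!
# H42W: the exponent `w*_{=n}` in exact degree is at least `n / (2 - log 2)` (MP_5a602a_nt)

Definitions. `H70W.height` is the height, `H70W.mm` the Mahler measure.
-/

open Polynomial Filter

namespace Pool.Agent.Lib.H42W

/-- The reals `w` such that for arbitrarily large `X` there is a nonzero real algebraic number `α`
of degree exactly `n` with `H(α) ≤ X` and `0 < |ζ - α| ≤ H(α)⁻¹ X^(-w)`. -/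
def StarSet (n : ℕ) (ζ : ℝ) : Set ℝ :=
  {w : ℝ | ∃ᶠ X : ℝ in atTop, ∃ (α : ℝ) (P : ℤ[X]), α ≠ 0 ∧ Irreducible P ∧ P.natDegree = n ∧
    aeval α P = 0 ∧ (H70W.height P : ℝ) ≤ X ∧ 0 < |ζ - α| ∧
    |ζ - α| ≤ (H70W.height P : ℝ)⁻¹ * X ^ (-w)}

/-- The exact-degree exponent `w*_{=n}(ζ)`. -/
noncomputable def starExp (n : ℕ) (ζ : ℝ) : EReal :=
  sSup ((fun w : ℝ => (w : EReal)) '' StarSet n ζ)

/-- No real root of an irreducible polynomial of degree `n` is close to `ζ` (exponent `ω`). -/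
def NoStar (n : ℕ) (ζ ω X0 : ℝ) : Prop :=
  ∀ (X : ℝ) (α : ℝ) (P : ℤ[X]), X0 ≤ X → Irreducible P → P.natDegree = n → aeval α P = 0 →
    (H70W.height P : ℝ) ≤ X → (H70W.height P : ℝ)⁻¹ * X ^ (-ω) < |ζ - α|

/-- The data at a corner: a coprime pair `P, R` and a basis `b 0, ..., b n`, with the exponents
of the heights. `b k = b n`, `ν k = ν n` for `k > n`. -/
structure Sys (n : ℕ) (ζ Z B : ℝ) (P R : ℤ[X]) (b : ℕ → ℤ[X]) (ν : ℕ → ℝ) : Prop where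
  Pd : P.natDegree ≤ n
  Rd : R.natDegree = n
  sq : Squarefree (R.map (Int.castRingHom ℂ))
  co : IsCoprime (P.map (Int.castRingHom ℂ)) (R.map (Int.castRingHom ℂ))
  Ph : (H70W.height P : ℝ) ≤ Z
  Rh : (H70W.height R : ℝ) ≤ Z
  Pv : |aeval ζ P| ≤ Z ^ (1 - B)
  Rv : |aeval ζ R| ≤ Z ^ (1 - B)
  bd : ∀ k, (b k).natDegree ≤ n
  bh : ∀ k, (H70W.height (b k) : ℝ) ≤ Z ^ (ν k)
  bv : ∀ k, |aeval ζ (b k)| ≤ Z ^ (ν k - B)
  bdet : (Matrix.of fun k l : Fin (n + 1) => (b (k : ℕ)).coeff (l : ℕ)).det ≠ 0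
  one_le : ∀ k, 1 ≤ ν k
  mono : Monotone ν

/-- The exponents with `P, R` in place of the first two basis vectors. -/
noncomputable def mu (ν : ℕ → ℝ) (k : ℕ) : ℝ := if k ≤ 1 then 1 else ν k

end Pool.Agent.Lib.H42W
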