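import Pool.Agent.Lib.H42W.RW
import Pool.Agent.Lib.H42W.DT
import Pool.Agent.Lib.H42W.Defs

/-!
# Chunk BL (S/M)
`B` is bounded.

Proof. `rows` with `i = 2`, `J = n - 1` gives `2 n` independent polynomials `y m = X^j g` with `j ≤ n - 1`
and `g = P` or `g = R` (the third case needs `2 n ≤ m`, impossible). With
`c = n^2 (max 1 |ζ|)^(2n)`-like constants: coefficients at most `Z` (`H70W.abs_coeff_le_height`),
`|y(ζ)| ≤ (max 1 |ζ|)^n Z^(1-B) = Z * ((max 1 |ζ|)^n Z^(-B))`, `|y'(ζ)| ≤ C Z` (degree at most `2n - 1`).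
`det_two` with `D = 2 n` (`n + J + 1 = 2 n`), `H m = Z`, `v = (max 1 |ζ|)^n Z^(-B)`, `d = C`:
`1 ≤ (2n)! Z^(2n) (max 1 |ζ|)^n Z^(-B) C`, so `Z^(B - 2n) ≤ C'` and `B ≤ 2 n + 1` once `Z > C'`.
-/

open Polynomial Filter

namespace Pool.Agent.Lib.H42W

theorem BL_der (D : ℕ) (f : ℤ[X]) (hf : f.natDegree < D) (ζ W Z : ℝ) (hW1 : 1 ≤ W)
    (hWζ : |ζ| ≤ W) (hZ : 0 ≤ Z) (hc : ∀ l, |(f.coeff l : ℝ)| ≤ Z) :
    |aeval ζ (derivative f)| ≤ Z * ((D : ℝ) * ((D : ℝ) * W ^ D)) := by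
  have hW0 : 0 ≤ W := zero_le_one.trans hW1
  have hd : (derivative f).natDegree < D := (natDegree_derivative_le f).trans_lt (by omega)
  rw [aeval_eq_sum_range' hd]
  refine (Finset.abs_sum_le_sum_abs _ _).trans ?_
  calc ∑ l ∈ Finset.range D, |(derivative f).coeff l • ζ ^ l|
      ≤ ∑ _l ∈ Finset.range D, Z * ((D : ℝ) * W ^ D) := by
        refine Finset.sum_le_sum fun l hl => ?_
        have hl' : l + 1 ≤ D := Finset.mem_range.1 hl
        rw [zsmul_eq_mul, abs_mul, coeff_derivative, abs_pow]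
        have h1 : |((f.coeff (l + 1) * ((l : ℤ) + 1) : ℤ) : ℝ)| ≤ Z * (D : ℝ) := by
          push_cast
          rw [abs_mul]
          refine mul_le_mul (hc _) ?_ (abs_nonneg _) hZ
          rw [abs_of_nonneg (by positivity)]
          exact_mod_cast hl'
        have h2 : |ζ| ^ l ≤ W ^ D :=
          (pow_le_pow_left₀ (abs_nonneg _) hWζ l).trans (pow_le_pow_right₀ hW1 (by omega))
        calc _ ≤ (Z * (D : ℝ)) * W ^ D :=
              mul_le_mul h1 h2 (by positivity) (by positivity)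
          _ = _ := by ring
    _ = Z * ((D : ℝ) * ((D : ℝ) * W ^ D)) := by
        rw [Finset.sum_const, Finset.card_range, nsmul_eq_mul]
        ring

theorem BL_aux (n D : ℕ) (hn : 1 ≤ n) (hD : D = 2 * n) (ζ W Z B : ℝ) (hW1 : 1 ≤ W)
    (hWζ : |ζ| ≤ W) (hZ : 0 < Z) (y : Fin D → ℤ[X])
    (hli : LinearIndependent ℝ (fun m => (y m).map (Int.castRingHom ℝ)))
    (hy : ∀ m, ∃ j ≤ n - 1, ∃ g : ℤ[X], y m = X ^ j * g ∧ g.natDegree ≤ n ∧
      (H70W.height g : ℝ) ≤ Z ∧ |aeval ζ g| ≤ Z ^ (1 - B)) :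
    1 ≤ (D.factorial : ℝ) * Z ^ D * (W ^ n * Z ^ (-B)) * ((D : ℝ) * ((D : ℝ) * W ^ D)) := by
  have hW0 : 0 ≤ W := zero_le_one.trans hW1
  have hdeg : ∀ m, (y m).natDegree < D := by
    intro m
    obtain ⟨j, hj, g, hg, h1, -, -⟩ := hy m
    rw [hg]
    have h2 := natDegree_mul_le (p := (X ^ j : ℤ[X])) (q := g)
    have h3 := natDegree_X_pow_le (R := ℤ) j
    omega
  have hcoef : ∀ m l, |((y m).coeff l : ℝ)| ≤ Z := by
    intro m l
    obtain ⟨j, hj, g, hg, -, h1, -⟩ := hy m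
    rw [hg, coeff_X_pow_mul']
    split_ifs with h
    · exact (H70W.abs_coeff_le_height g _).trans h1
    · simpa using hZ.le
  have h := det_two D (by omega) y hdeg hli ζ (fun _ => Z) (W ^ n * Z ^ (-B))
    ((D : ℝ) * ((D : ℝ) * W ^ D)) (by positivity) (by positivity) hcoef ?_ ?_
  · rw [Finset.prod_const, Finset.card_univ, Fintype.card_fin] at h
    exact h
  · intro m
    obtain ⟨j, hj, g, hg, -, -, h1⟩ := hy m
    rw [hg, map_mul, map_pow, aeval_X, abs_mul, abs_pow]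
    have h2 : |ζ| ^ j ≤ W ^ n :=
      (pow_le_pow_left₀ (abs_nonneg _) hWζ j).trans (pow_le_pow_right₀ hW1 (by omega))
    calc |ζ| ^ j * |aeval ζ g| ≤ W ^ n * Z ^ (1 - B) :=
          mul_le_mul h2 h1 (abs_nonneg _) (by positivity)
      _ = Z * (W ^ n * Z ^ (-B)) := by
          rw [sub_eq_add_neg, Real.rpow_add hZ, Real.rpow_one]
          ring
  · intro m
    exact BL_der D (y m) (hdeg m) ζ W Z hW1 hWζ hZ.le (hcoef m)

theorem B_le (n : ℕ) (hn : 1 ≤ n) (ζ : ℝ) :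
    ∃ Z0 : ℝ, ∀ (Z B : ℝ) (P R : ℤ[X]) (b : ℕ → ℤ[X]) (ν : ℕ → ℝ), Z0 ≤ Z →
      Sys n ζ Z B P R b ν → B ≤ 2 * n + 1 := by
  set W : ℝ := max 1 |ζ| with hW
  have hW1 : 1 ≤ W := le_max_left _ _
  have hWζ : |ζ| ≤ W := le_max_right _ _
  have hW0 : 0 ≤ W := zero_le_one.trans hW1
  set K : ℝ := ((2 * n).factorial : ℝ) * W ^ n *
    (((2 * n : ℕ) : ℝ) * (((2 * n : ℕ) : ℝ) * W ^ (2 * n))) with hK
  have hK0 : 0 ≤ K := by positivity
  refine ⟨max 2 (K + 1), fun Z B P R b ν hZ S => ?_⟩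
  by_contra hB
  push Not at hB
  have hZ2 : 2 ≤ Z := (le_max_left _ _).trans hZ
  have hZK : K + 1 ≤ Z := (le_max_right _ _).trans hZ
  have hZ0 : 0 < Z := by linarith
  obtain ⟨y, hli, hy⟩ := rows n 2 (n - 1) hn le_rfl (by omega) P R b S.Pd S.Rd S.co S.bd S.bdet
  have hy' : ∀ m, ∃ j ≤ n - 1, ∃ g : ℤ[X], y m = X ^ j * g ∧ g.natDegree ≤ n ∧
      (H70W.height g : ℝ) ≤ Z ∧ |aeval ζ g| ≤ Z ^ (1 - B) := by
    intro m
    obtain ⟨j, hj, g, hg, h⟩ := hy m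
    rcases h with h | h | ⟨h, -⟩
    · exact ⟨j, hj, g, hg, h ▸ S.Pd, h ▸ S.Ph, h ▸ S.Pv⟩
    · exact ⟨j, hj, g, hg, h ▸ S.Rd.le, h ▸ S.Rh, h ▸ S.Rv⟩
    · have := m.2
      omega
  have h := BL_aux n _ hn (by omega) ζ W Z B hW1 hWζ hZ0 y hli hy'
  have hD : n + (n - 1) + 1 = 2 * n := by omega
  rw [hD] at h
  have h1 : Z ^ (2 * n) * Z ^ (-B) ≤ Z ^ (-1 : ℝ) := by
    rw [← Real.rpow_natCast Z (2 * n), ← Real.rpow_add hZ0]
    refine Real.rpow_le_rpow_of_exponent_le (by linarith) ?_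
    push_cast
    linarith
  have h2 : 1 ≤ K * Z ^ (-1 : ℝ) := by
    refine h.trans ?_
    calc ((2 * n).factorial : ℝ) * Z ^ (2 * n) * (W ^ n * Z ^ (-B)) *
          (((2 * n : ℕ) : ℝ) * (((2 * n : ℕ) : ℝ) * W ^ (2 * n)))
        = K * (Z ^ (2 * n) * Z ^ (-B)) := by rw [hK]; ring
      _ ≤ K * Z ^ (-1 : ℝ) := mul_le_mul_of_nonneg_left h1 hK0
  rw [Real.rpow_neg_one, ← div_eq_mul_inv, le_div_iff₀ hZ0] at h2
  linarith

end Pool.Agent.Lib.H42W
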