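import Pool.Agent.Lib.H42W.Defs
import Pool.Agent.Lib.H70W.Fin

/-!
# Chunk CP1 (M)
Irreducible polynomials which are almost optimal for their size.

Proof. For irreducible `G` of degree `1, ..., n` with `mm G ≥ 2` let
`s(G) = - log |G(ζ)| / log (mm G)`, so `|G(ζ)| = (mm G)^(-s(G))`.
(K) Let `Z0 ≥ 2`. There is `M2` such that: if `M = mm Q ≥ M2`, `s(Q) ≥ n - η`,
and some `P ≠ 0` of degree at most `n` has `mm P ≤ M`, `|P(ζ)| < |Q(ζ)| M^(-η)`, then there is an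
irreducible `G` of degree in `[1, n]` with `Z0 ≤ mm G ≤ M`, `s(G) ≥ s(Q) + η/2`. Proof: `|P(ζ)| < 1`
so `P` is not constant; `w = s(Q) + η/2 ≥ 0`, `|P(ζ)| (mm P)^w ≤ M^(-s(Q) - η + w) = M^(-η/2) = t^n`,
`t = M^(-η/(2n))`; `H70W.exists_factor` gives `G ∣ P` irreducible of positive degree with
`|G(ζ)| (mm G)^w ≤ t ≤ 1`; so `|G(ζ)| ≤ t`, less than the constant `c` of `H70W.exists_lower` for
`H = Z0` if `M ≥ M2`: `mm G > Z0`; `mm G ≤ mm P ≤ M` (`H70W.mm_le_of_dvd`), and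
`|G(ζ)| ≤ (mm G)^(-w)` means `s(G) ≥ w`.
Suppose that there is no `Q` as in the theorem. Then (K) applies to every `Q` with `mm Q` large and
`s(Q) ≥ n - η` (these exist, `H70W.exists_irred_large`); used `J` times (with larger and larger `Z0`,
backwards) it gives `G` with `mm G ≥ 2` and `s(G) ≥ n - η + J η/2`: the `s(G)` are unbounded. Let `T`
belong to `Z0 = 2`, `s1` an upper bound of the `s(G)` with `2 ≤ mm G ≤ T` (finitely many `G`); choose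
`Q'` with `mm Q' ≥ 2`, `s(Q') > max s1 n`, and `Q` with the largest `s` among the irreducible `G` with
`2 ≤ mm G ≤ mm Q'`. `s(Q) > s1` so `mm Q > T`, and (K) gives `G` with `mm G ≤ mm Q ≤ mm Q'`,
`s(G) > s(Q)`, a contradiction.
-/

open Polynomial Filter

namespace Pool.Agent.Lib.H42W

private noncomputable def cp1s (ζ : ℝ) (G : ℤ[X]) : ℝ :=
  -Real.log |aeval ζ G| / Real.log (H70W.mm G)

private theorem cp1_eq {ζ : ℝ} (hζ : Transcendental ℤ ζ) {G : ℤ[X]} (hG : G ≠ 0)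
    (hm : 1 < H70W.mm G) : |aeval ζ G| = (H70W.mm G) ^ (-(cp1s ζ G)) := by
  have h0 : 0 < |aeval ζ G| := abs_pos.2 (H70W.aeval_ne_zero hζ hG)
  have hl : 0 < Real.log (H70W.mm G) := Real.log_pos hm
  rw [Real.rpow_def_of_pos (by linarith)]
  unfold cp1s
  have h1 : Real.log (H70W.mm G) * -(-Real.log |aeval ζ G| / Real.log (H70W.mm G)) =
      Real.log |aeval ζ G| := by
    field_simp
  rw [h1, Real.exp_log h0]

private theorem cp1_le {ζ : ℝ} (hζ : Transcendental ℤ ζ) {G : ℤ[X]} (hG : G ≠ 0)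
    (hm : 1 < H70W.mm G) {w : ℝ} (h : |aeval ζ G| ≤ (H70W.mm G) ^ (-w)) : w ≤ cp1s ζ G := by
  rw [cp1_eq hζ hG hm] at h
  have := (Real.rpow_le_rpow_left_iff hm).1 h
  linarith

private theorem cp1_K (n : ℕ) (hn : 1 ≤ n) (ζ : ℝ) (hζ : Transcendental ℤ ζ) (η : ℝ)
    (hη : 0 < η) (hη1 : η ≤ 1 / 2) (Z0 : ℝ) (hZ0 : 2 ≤ Z0) :
    ∃ M2 : ℝ, 2 ≤ M2 ∧ ∀ Q : ℤ[X], Q ≠ 0 → M2 ≤ H70W.mm Q → (n : ℝ) - η ≤ cp1s ζ Q →
      ∀ P : ℤ[X], P ≠ 0 → P.natDegree ≤ n → H70W.mm P ≤ H70W.mm Q →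
        |aeval ζ P| < |aeval ζ Q| * (H70W.mm Q) ^ (-η) →
        ∃ G : ℤ[X], Irreducible G ∧ 1 ≤ G.natDegree ∧ G.natDegree ≤ n ∧ Z0 ≤ H70W.mm G ∧
          H70W.mm G ≤ H70W.mm Q ∧ cp1s ζ Q + η / 2 ≤ cp1s ζ G := by
  obtain ⟨c, hc, hcl⟩ := H70W.exists_lower n ζ hζ Z0
  have hn1 : (1 : ℝ) ≤ n := by exact_mod_cast hn
  have hδ : 0 < η / (2 * n) := by positivity
  obtain ⟨M2, hM2⟩ := eventually_atTop.1
    ((tendsto_rpow_neg_atTop hδ).eventually (gt_mem_nhds hc))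
  refine ⟨max 2 M2, le_max_left _ _, ?_⟩
  intro Q hQ0 hM hs P hP0 hPn hPm hP
  obtain ⟨M, hMd⟩ : ∃ M, M = H70W.mm Q := ⟨_, rfl⟩
  have hMM2 : M2 ≤ M := hMd ▸ (le_max_right _ _).trans hM
  have hM22 : 2 ≤ M := hMd ▸ (le_max_left _ _).trans hM
  have hM0 : 0 < M := by linarith
  have hM1 : 1 ≤ M := by linarith
  have hQe := cp1_eq hζ hQ0 (by rw [← hMd]; linarith)
  obtain ⟨σ, hσ⟩ : ∃ σ, σ = cp1s ζ Q := ⟨_, rfl⟩
  rw [← hMd] at hPm hP hQe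
  rw [← hMd, ← hσ]
  rw [← hσ] at hs hQe
  have ht0 : 0 < M ^ (-(η / (2 * n))) := Real.rpow_pos_of_pos hM0 _
  have htc : M ^ (-(η / (2 * n))) < c := hM2 M hMM2
  have ht1 : M ^ (-(η / (2 * n))) ≤ 1 := Real.rpow_le_one_of_one_le_of_nonpos hM1 (by linarith)
  have hσ0 : 0 ≤ σ := by linarith
  have hPv : |aeval ζ P| ≤ M ^ (-σ - η) := by
    rw [hQe, ← Real.rpow_add hM0] at hP
    refine hP.le.trans (le_of_eq ?_)
    ring_nf
  have hPd : 1 ≤ P.natDegree := by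
    by_contra hlt
    have h0 : P.natDegree = 0 := by omega
    have hcst := Polynomial.eq_C_of_natDegree_eq_zero h0
    have hc0 : P.coeff 0 ≠ 0 := by
      intro h00
      rw [h00, C_0] at hcst
      exact hP0 hcst
    have h1 : (1 : ℝ) ≤ |aeval ζ P| := by
      rw [hcst, aeval_C]
      simp only [algebraMap_int_eq, eq_intCast]
      have := Int.one_le_abs hc0
      exact_mod_cast this
    have h2 : M ^ (-σ - η) < 1 := Real.rpow_lt_one_of_one_lt_of_neg (by linarith) (by linarith)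
    linarith
  have hmP0 : 0 ≤ H70W.mm P := H70W.A1_mm_nonneg P
  have hval : |aeval ζ P| * (H70W.mm P) ^ (σ + η / 2) ≤ (M ^ (-(η / (2 * n)))) ^ n := by
    calc |aeval ζ P| * (H70W.mm P) ^ (σ + η / 2) ≤ M ^ (-σ - η) * M ^ (σ + η / 2) :=
          mul_le_mul hPv (Real.rpow_le_rpow hmP0 hPm (by linarith)) (Real.rpow_nonneg hmP0 _)
            (Real.rpow_nonneg hM0.le _)
      _ = (M ^ (-(η / (2 * n)))) ^ n := by
          rw [← Real.rpow_add hM0, ← Real.rpow_natCast, ← Real.rpow_mul hM0.le]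
          have hn0 : (n : ℝ) ≠ 0 := by positivity
          have : -σ - η + (σ + η / 2) = -(η / (2 * n)) * n := by
            field_simp
            ring
          rw [this]
  obtain ⟨G, hG, hG1, hGP, hGv⟩ := H70W.exists_factor n ζ hζ P hPd hPn (σ + η / 2) _
    (by linarith) ht0 ht1 hval
  have hGn : G.natDegree ≤ n := (natDegree_le_of_dvd hGP hP0).trans hPn
  have hG0 : G ≠ 0 := hG.ne_zero
  have hmG1 : 1 ≤ H70W.mm G := H70W.one_le_mm hG0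
  have hmG0 : 0 < H70W.mm G := by linarith
  have hGw : (1 : ℝ) ≤ (H70W.mm G) ^ (σ + η / 2) := Real.one_le_rpow hmG1 (by linarith)
  have hGt : |aeval ζ G| ≤ M ^ (-(η / (2 * n))) :=
    (le_mul_of_one_le_right (abs_nonneg _) hGw).trans hGv
  have hGZ : Z0 ≤ H70W.mm G := by
    by_contra hlt
    have h1 := hcl G hG0 hGn (le_of_not_ge hlt)
    linarith
  refine ⟨G, hG, hG1, hGn, hGZ, (H70W.mm_le_of_dvd hP0 hGP).trans hPm, ?_⟩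
  apply cp1_le hζ hG0 (by linarith)
  rw [Real.rpow_neg hmG0.le, ← one_div, le_div_iff₀ (by linarith)]
  exact hGv.trans ht1

theorem exists_record (n : ℕ) (hn : 1 ≤ n) (ζ : ℝ) (hζ : Transcendental ℤ ζ) (η : ℝ)
    (hη : 0 < η) (hη1 : η ≤ 1 / 2) (M1 : ℝ) :
    ∃ Q : ℤ[X], Irreducible Q ∧ 1 ≤ Q.natDegree ∧ Q.natDegree ≤ n ∧ M1 ≤ H70W.mm Q ∧
      |aeval ζ Q| ≤ (H70W.mm Q) ^ (-((n : ℝ) - η)) ∧
      ∀ P : ℤ[X], P ≠ 0 → P.natDegree ≤ n → H70W.mm P ≤ H70W.mm Q →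
        |aeval ζ Q| * (H70W.mm Q) ^ (-η) ≤ |aeval ζ P| := by
  classical
  by_contra hcon
  push Not at hcon
  have hn1 : (1 : ℝ) ≤ n := by exact_mod_cast hn
  have hstep : ∀ Z0 : ℝ, 2 ≤ Z0 → ∃ T : ℝ, 2 ≤ T ∧ ∀ Q : ℤ[X], Irreducible Q →
      1 ≤ Q.natDegree → Q.natDegree ≤ n → T ≤ H70W.mm Q → (n : ℝ) - η ≤ cp1s ζ Q →
      ∃ G : ℤ[X], Irreducible G ∧ 1 ≤ G.natDegree ∧ G.natDegree ≤ n ∧ Z0 ≤ H70W.mm G ∧
        H70W.mm G ≤ H70W.mm Q ∧ cp1s ζ Q + η / 2 ≤ cp1s ζ G := by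
    intro Z0 hZ0
    obtain ⟨M2, hM2, hK⟩ := cp1_K n hn ζ hζ η hη hη1 Z0 hZ0
    refine ⟨max M1 M2, hM2.trans (le_max_right _ _), fun Q hQ hd hdn hT hs => ?_⟩
    have hQm : 2 ≤ H70W.mm Q := hM2.trans ((le_max_right _ _).trans hT)
    obtain ⟨P, hP0, hPn, hPm, hP⟩ := hcon Q hQ hd hdn ((le_max_left _ _).trans hT) (by
      rw [cp1_eq hζ hQ.ne_zero (by linarith)]
      exact Real.rpow_le_rpow_of_exponent_le (by linarith) (by linarith))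
    exact hK Q hQ.ne_zero ((le_max_right _ _).trans hT) hs P hP0 hPn hPm hP
  have hiter : ∀ J : ℕ, ∃ T : ℝ, 2 ≤ T ∧ ∀ Q : ℤ[X], Irreducible Q →
      1 ≤ Q.natDegree → Q.natDegree ≤ n → T ≤ H70W.mm Q → (n : ℝ) - η ≤ cp1s ζ Q →
      ∃ G : ℤ[X], Irreducible G ∧ 1 ≤ G.natDegree ∧ G.natDegree ≤ n ∧ 2 ≤ H70W.mm G ∧
        cp1s ζ Q + J * (η / 2) ≤ cp1s ζ G := by
    intro J
    induction J with
    | zero =>
      refine ⟨2, le_rfl, fun Q hQ hd hdn hT hs => ⟨Q, hQ, hd, hdn, hT, ?_⟩⟩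
      simp
    | succ J ih =>
      obtain ⟨T, hT2, hT⟩ := ih
      obtain ⟨T', hT'2, hT'⟩ := hstep T hT2
      refine ⟨T', hT'2, fun Q hQ hd hdn hQT hs => ?_⟩
      obtain ⟨G, hG, hG1, hGn, hGT, -, hGs⟩ := hT' Q hQ hd hdn hQT hs
      obtain ⟨G', hG', hG'1, hG'n, hG'2, hG's⟩ := hT G hG hG1 hGn hGT (by linarith)
      refine ⟨G', hG', hG'1, hG'n, hG'2, ?_⟩
      push_cast
      linarith
  have hunb : ∀ B : ℝ, ∃ G : ℤ[X], Irreducible G ∧ 1 ≤ G.natDegree ∧ G.natDegree ≤ n ∧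
      2 ≤ H70W.mm G ∧ B < cp1s ζ G := by
    intro B
    obtain ⟨J, hJ⟩ := exists_nat_gt ((B - (n - η)) / (η / 2))
    rw [div_lt_iff₀ (by linarith)] at hJ
    obtain ⟨T, hT2, hT⟩ := hiter J
    obtain ⟨Q, hQ, hd, hdn, hQT, hQv⟩ := H70W.exists_irred_large n ζ hζ ((n : ℝ) - η / 2) (η / 2)
      (by linarith) (by linarith) (H70W.mem_unif_of_lt n ζ hζ _ (by linarith)) T
    have hs : (n : ℝ) - η ≤ cp1s ζ Q := by
      apply cp1_le hζ hQ.ne_zero (by linarith)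
      refine hQv.trans (le_of_eq ?_)
      ring_nf
    obtain ⟨G, hG, hG1, hGn, hG2, hGs⟩ := hT Q hQ hd hdn hQT hs
    exact ⟨G, hG, hG1, hGn, hG2, by linarith⟩
  have hfin : ∀ M : ℝ, ∃ S : Finset ℤ[X], ∀ G : ℤ[X], G ∈ S ↔
      (Irreducible G ∧ 1 ≤ G.natDegree ∧ G.natDegree ≤ n ∧ 2 ≤ H70W.mm G ∧ H70W.mm G ≤ M) := by
    intro M
    have h1 := finite_mahlerMeasure_le n (Real.toNNReal M)
    have h2 : {G : ℤ[X] | Irreducible G ∧ 1 ≤ G.natDegree ∧ G.natDegree ≤ n ∧ 2 ≤ H70W.mm G ∧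
        H70W.mm G ≤ M}.Finite :=
      h1.subset fun G hG => ⟨hG.2.2.1, hG.2.2.2.2.trans (Real.le_coe_toNNReal M)⟩
    exact ⟨h2.toFinset, fun G => by rw [Set.Finite.mem_toFinset]; exact Iff.rfl⟩
  obtain ⟨T, hT2, hT⟩ := hstep 2 le_rfl
  obtain ⟨S, hS⟩ := hfin T
  obtain ⟨s1, hs1⟩ := (S.finite_toSet.image (cp1s ζ)).bddAbove
  obtain ⟨Q', hQ', hQ'1, hQ'n, hQ'2, hQ's⟩ := hunb (max s1 n)
  obtain ⟨S', hS'⟩ := hfin (H70W.mm Q')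
  obtain ⟨Q, hQS, hmax⟩ := Finset.exists_max_image S' (cp1s ζ)
    ⟨Q', (hS' Q').2 ⟨hQ', hQ'1, hQ'n, hQ'2, le_rfl⟩⟩
  have h1 := hmax Q' ((hS' Q').2 ⟨hQ', hQ'1, hQ'n, hQ'2, le_rfl⟩)
  obtain ⟨hQ, hQ1, hQn, hQ2, hQQ'⟩ := (hS' Q).1 hQS
  have h2 : s1 < cp1s ζ Q := lt_of_lt_of_le (lt_of_le_of_lt (le_max_left _ _) hQ's) h1
  have h3 : (n : ℝ) < cp1s ζ Q := lt_of_lt_of_le (lt_of_le_of_lt (le_max_right _ _) hQ's) h1
  have h4 : T ≤ H70W.mm Q := by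
    by_contra hlt
    have h5 : cp1s ζ Q ≤ s1 := hs1 ⟨Q, (hS Q).2 ⟨hQ, hQ1, hQn, hQ2, le_of_not_ge hlt⟩, rfl⟩
    linarith
  obtain ⟨G, hG, hG1, hGn, hG2, hGQ, hGs⟩ := hT Q hQ hQ1 hQn h4 (by linarith)
  have h6 := hmax G ((hS' G).2 ⟨hG, hG1, hGn, hG2, hGQ.trans hQQ'⟩)
  linarith

end Pool.Agent.Lib.H42W
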