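import Pool.Agent.Lib.H42W.CP1

/-!
# Chunk CP2 (M)
The corner.

Proof. `η = min (1/2) (ε / (2 (n + 2)))` (so `2 η ≤ ε`). `Q` from `exists_record` with `η` and `M1` large,
`M = mm Q`, `Z = M^(1+η)`. Let `P` minimise `|P(ζ)|` among the nonzero `P` of degree at most `n` with
`height P ≤ M / (2(n+1))` (a finite set, it contains `1`; finiteness: coefficients, or
`mm P ≤ (n+1) height P` and `finite_mahlerMeasure_le`). `mm P ≤ M/2 < M`, so `Q` does not divide `P`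
(`H70W.mm_le_of_dvd`), and `H70W.exists_S` gives `S`; `R = Q * S`: degree `n`, squarefree, coprime
to `P`, `height R ≤ 2^n mm Q mm S ≤ 2^n (3n+1)^n M ≤ Z` and `|R(ζ)| ≤ C |Q(ζ)|`,
`C = (|ζ| + 3n + 1)^n ≥ 1`. Let `v = max |P(ζ)| |R(ζ)| > 0` and `A = - log v / log Z`, so
`Z^(-A) = v`.
`v ≤ C' M^(-n+η)` (`H70W.dirichlet` for `P`: the minimum is at most `K (M/(2(n+1)))^(-n)`), so
`A (1 + η) ≥ n - 2 η` for large `M` and `A ≥ n - (n + 2) η ≥ n - ε`.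
Let `P' ≠ 0` have degree at most `n` and height at most `Z^(1-ε) = M^((1+η)(1-ε)) ≤ M / (2(n+1))`
(large `M`; `(1+η)(1-ε) < 1`). Then `|P'(ζ)| ≥ |P(ζ)|`, and `|P(ζ)| ≥ |Q(ζ)| M^(-η) ≥ |R(ζ)| M^(-η)/C`
by the last property of `Q`, so `|P(ζ)| ≥ v M^(-η) / C ≥ Z^(-A) M^(-2η) ≥ Z^(-A-ε)`.
-/

open Polynomial Filter

namespace Pool.Agent.Lib.H42W

theorem corner (n : ℕ) (hn : 1 ≤ n) (ζ : ℝ) (hζ : Transcendental ℤ ζ) (ε : ℝ) (hε : 0 < ε)
    (hε1 : ε ≤ 1 / 2) (Z0 : ℝ) :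
    ∃ (Z A : ℝ) (P R : ℤ[X]), Z0 ≤ Z ∧ (n : ℝ) - ε ≤ A ∧ P.natDegree ≤ n ∧ R.natDegree = n ∧
      Squarefree (R.map (Int.castRingHom ℂ)) ∧
      IsCoprime (P.map (Int.castRingHom ℂ)) (R.map (Int.castRingHom ℂ)) ∧
      (H70W.height P : ℝ) ≤ Z ∧ (H70W.height R : ℝ) ≤ Z ∧
      |aeval ζ P| ≤ Z ^ (-A) ∧ |aeval ζ R| ≤ Z ^ (-A) ∧
      ∀ P' : ℤ[X], P' ≠ 0 → P'.natDegree ≤ n → (H70W.height P' : ℝ) ≤ Z ^ (1 - ε) →
        Z ^ (-A - ε) ≤ |aeval ζ P'| := by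
  classical
  have hn1 : (1 : ℝ) ≤ n := by exact_mod_cast hn
  set η : ℝ := ε / (2 * (n + 2)) with hηd
  have hη : 0 < η := by positivity
  have hηn : (n + 2) * η = ε / 2 := by rw [hηd]; field_simp
  have hη3 : 3 * η ≤ ε / 2 := by nlinarith
  have hη1 : η ≤ 1 / 2 := by linarith
  obtain ⟨K, hK, hdir⟩ := H70W.dirichlet n ζ
  set Sn : ℝ := (3 * n + 1) ^ n with hSn
  have hSn0 : 0 < Sn := by positivity
  set C : ℝ := (|ζ| + (3 * n + 1)) ^ n with hC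
  have hC1 : 1 ≤ C := by
    apply one_le_pow₀
    have := abs_nonneg ζ
    linarith
  have hn0 : (0 : ℝ) < 2 * (n + 1) := by positivity
  set C' : ℝ := max (K * (2 * (n + 1)) ^ (n : ℝ)) C with hC'
  -- the conditions on `M`
  have hevη : ∀ B : ℝ, ∀ᶠ M : ℝ in atTop, B ≤ M ^ η := fun B =>
    (tendsto_rpow_atTop hη).eventually_ge_atTop B
  have hevε : ∀ B : ℝ, ∀ᶠ M : ℝ in atTop, B ≤ M ^ (ε / 2) := fun B =>
    (tendsto_rpow_atTop (by positivity : 0 < ε / 2)).eventually_ge_atTop B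
  obtain ⟨M1, hM1⟩ := eventually_atTop.1
    ((eventually_ge_atTop (max 2 (max (2 * ((n : ℝ) + 1)) Z0))).and
      ((hevη (2 ^ n * Sn)).and ((hevη C').and ((hevε (2 * (n + 1))).and (hevε C)))))
  obtain ⟨Q, hQ, hd, hdn, hMQ, hQv, hrec⟩ := exists_record n hn ζ hζ η hη hη1 M1
  obtain ⟨h1, h2, h3, h4, h5⟩ := hM1 _ hMQ
  obtain ⟨M, hM⟩ : ∃ M, M = H70W.mm Q := ⟨_, rfl⟩
  rw [← hM] at h1 h2 h3 h4 h5 hQv hrec
  have hM2 : 2 ≤ M := (le_max_left _ _).trans h1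
  have hMn : 2 * ((n : ℝ) + 1) ≤ M := ((le_max_left _ _).trans (le_max_right _ _)).trans h1
  have hMZ : Z0 ≤ M := ((le_max_right _ _).trans (le_max_right _ _)).trans h1
  have hM0 : 0 < M := by linarith
  have hM1' : 1 ≤ M := by linarith
  have hX1 : 1 ≤ M / (2 * (n + 1)) := by rw [le_div_iff₀ hn0]; linarith
  have hXM : M / (2 * (n + 1)) ≤ M := by
    rw [div_le_iff₀ hn0]
    nlinarith
  have hmmX : ∀ P : ℤ[X], P.natDegree ≤ n → (H70W.height P : ℝ) ≤ M / (2 * (n + 1)) →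
      H70W.mm P ≤ M / 2 := by
    intro P hPn hPh
    have h6 := H70W.mm_le_height hPn
    have h7 : ((n : ℝ) + 1) * H70W.height P ≤ (n + 1) * (M / (2 * (n + 1))) :=
      mul_le_mul_of_nonneg_left hPh (by positivity)
    have h8 : ((n : ℝ) + 1) * (M / (2 * (n + 1))) = M / 2 := by
      field_simp
    linarith
  -- the minimal `P`
  obtain ⟨P, hP0, hPn, hPh, hPmin⟩ : ∃ P : ℤ[X], P ≠ 0 ∧ P.natDegree ≤ n ∧
      (H70W.height P : ℝ) ≤ M / (2 * (n + 1)) ∧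
      ∀ P' : ℤ[X], P' ≠ 0 → P'.natDegree ≤ n → (H70W.height P' : ℝ) ≤ M / (2 * (n + 1)) →
        |aeval ζ P| ≤ |aeval ζ P'| := by
    have hf : {P : ℤ[X] | P ≠ 0 ∧ P.natDegree ≤ n ∧
        (H70W.height P : ℝ) ≤ M / (2 * (n + 1))}.Finite :=
      (finite_mahlerMeasure_le n (Real.toNNReal (M / 2))).subset fun P hP =>
        ⟨hP.2.1, (hmmX P hP.2.1 hP.2.2).trans (Real.le_coe_toNNReal _)⟩
    obtain ⟨P1, hP10, hP1n, hP1h, -⟩ := hdir _ hX1
    obtain ⟨P, hPS, hmin⟩ := Finset.exists_min_image hf.toFinset (fun P : ℤ[X] => |aeval ζ P|)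
      ⟨P1, hf.mem_toFinset.2 ⟨hP10, hP1n, hP1h⟩⟩
    obtain ⟨hP0, hPn, hPh⟩ := hf.mem_toFinset.1 hPS
    exact ⟨P, hP0, hPn, hPh, fun P' h1 h2 h3 => hmin P' (hf.mem_toFinset.2 ⟨h1, h2, h3⟩)⟩
  have hmP : H70W.mm P ≤ M / 2 := hmmX P hPn hPh
  have hPQ : ¬ Q ∣ P := by
    intro hdvd
    have := H70W.mm_le_of_dvd hP0 hdvd
    linarith
  obtain ⟨S, hSdeg, hS0, hSm, hSζ, hSsq, hSco⟩ := H70W.exists_S n P Q hQ hd hdn hP0 hPn hPQ
  have hRne : Q * S ≠ 0 := mul_ne_zero hQ.ne_zero hS0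
  have hPpos : 0 < |aeval ζ P| := abs_pos.2 (H70W.aeval_ne_zero hζ hP0)
  have hRpos : 0 < |aeval ζ (Q * S)| := abs_pos.2 (H70W.aeval_ne_zero hζ hRne)
  have hRQ : |aeval ζ (Q * S)| ≤ C * |aeval ζ Q| := by
    rw [map_mul, abs_mul, mul_comm]
    exact mul_le_mul_of_nonneg_right (hSζ ζ) (abs_nonneg _)
  have hMη1 : 1 ≤ M ^ η := Real.one_le_rpow hM1' hη.le
  have hZM : M ≤ M ^ (1 + η) := by
    nth_rewrite 1 [← Real.rpow_one M]
    exact Real.rpow_le_rpow_of_exponent_le hM1' (by linarith)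
  have hZ1 : 1 < M ^ (1 + η) := by linarith
  have hZ0 : 0 < M ^ (1 + η) := by linarith
  have hRh : (H70W.height (Q * S) : ℝ) ≤ M ^ (1 + η) := by
    have h6 := H70W.height_le_mm (n := n) (P := Q * S) hSdeg.le
    rw [H70W.mm_mul, ← hM] at h6
    refine h6.trans ?_
    calc (2 : ℝ) ^ n * (M * H70W.mm S) ≤ 2 ^ n * (M * Sn) := by
          apply mul_le_mul_of_nonneg_left _ (by positivity)
          exact mul_le_mul_of_nonneg_left hSm hM0.le
      _ = M * (2 ^ n * Sn) := by ring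
      _ ≤ M * M ^ η := mul_le_mul_of_nonneg_left h2 hM0.le
      _ = M ^ (1 + η) := by rw [Real.rpow_add hM0, Real.rpow_one]
  obtain ⟨v, hv⟩ : ∃ v, v = max |aeval ζ P| |aeval ζ (Q * S)| := ⟨_, rfl⟩
  have hv0 : 0 < v := hv ▸ lt_max_of_lt_left hPpos
  have hlZ : 0 < Real.log (M ^ (1 + η)) := Real.log_pos hZ1
  have hvA : (M ^ (1 + η)) ^ (-(-Real.log v / Real.log (M ^ (1 + η)))) = v := by
    rw [Real.rpow_def_of_pos hZ0]
    have h6 : Real.log (M ^ (1 + η)) * -(-Real.log v / Real.log (M ^ (1 + η))) = Real.log v := by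
      field_simp
    rw [h6, Real.exp_log hv0]
  obtain ⟨A, hA⟩ : ∃ A, A = -Real.log v / Real.log (M ^ (1 + η)) := ⟨_, rfl⟩
  rw [← hA] at hvA
  -- the upper bound for `v`
  have hvle : v ≤ M ^ (-(n : ℝ) + 2 * η) := by
    have h6 : v ≤ C' * M ^ (-(n : ℝ) + η) := by
      rw [hv]
      apply max_le
      · obtain ⟨P1, hP10, hP1n, hP1h, hP1v⟩ := hdir _ hX1
        refine (hPmin P1 hP10 hP1n hP1h).trans (hP1v.trans ?_)
        have h7 : (M / (2 * ((n : ℝ) + 1))) ^ (-(n : ℝ)) =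
            (2 * ((n : ℝ) + 1)) ^ (n : ℝ) * M ^ (-(n : ℝ)) := by
          rw [Real.div_rpow hM0.le hn0.le, Real.rpow_neg hn0.le, div_inv_eq_mul, mul_comm]
        rw [h7, ← mul_assoc]
        apply mul_le_mul (le_max_left _ _) _ (Real.rpow_nonneg hM0.le _)
          (le_trans (by linarith) (le_max_right _ _))
        exact Real.rpow_le_rpow_of_exponent_le hM1' (by linarith)
      · refine hRQ.trans ?_
        apply mul_le_mul (le_max_right _ _) _ (abs_nonneg _)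
          (le_trans (by linarith) (le_max_right _ _))
        refine hQv.trans (le_of_eq ?_)
        ring_nf
    refine h6.trans ?_
    calc C' * M ^ (-(n : ℝ) + η) ≤ M ^ η * M ^ (-(n : ℝ) + η) :=
          mul_le_mul_of_nonneg_right h3 (Real.rpow_nonneg hM0.le _)
      _ = M ^ (-(n : ℝ) + 2 * η) := by rw [← Real.rpow_add hM0]; ring_nf
  have hAge : (n : ℝ) - ε ≤ A := by
    rw [← hvA, ← Real.rpow_mul hM0.le] at hvle
    have h6 := (Real.rpow_le_rpow_left_iff (by linarith : 1 < M)).1 hvle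
    -- `(1 + η) * -A ≤ -n + 2 η`
    by_contra hlt
    rw [not_le] at hlt
    have h7 : (1 + η) * A < (1 + η) * (n - ε) := mul_lt_mul_of_pos_left hlt (by linarith)
    nlinarith
  refine ⟨M ^ (1 + η), A, P, Q * S, hMZ.trans hZM, hAge, hPn, hSdeg, hSsq, hSco,
    hPh.trans (hXM.trans hZM), hRh, ?_, ?_, ?_⟩
  · rw [hvA, hv]
    exact le_max_left _ _
  · rw [hvA, hv]
    exact le_max_right _ _
  intro P' hP'0 hP'n hP'h
  have hP'X : (H70W.height P' : ℝ) ≤ M / (2 * (n + 1)) := by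
    refine hP'h.trans ?_
    rw [← Real.rpow_mul hM0.le, le_div_iff₀ hn0]
    calc M ^ ((1 + η) * (1 - ε)) * (2 * ((n : ℝ) + 1)) ≤ M ^ (1 - ε / 2) * M ^ (ε / 2) := by
          apply mul_le_mul _ h4 hn0.le (Real.rpow_nonneg hM0.le _)
          apply Real.rpow_le_rpow_of_exponent_le hM1'
          nlinarith
      _ = M := by
          rw [← Real.rpow_add hM0]
          simp
  refine le_trans ?_ (hPmin P' hP'0 hP'n hP'X)
  have hMη0 : 0 < M ^ (-η) := Real.rpow_pos_of_pos hM0 _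
  have hMη2 : M ^ (-η) ≤ 1 := Real.rpow_le_one_of_one_le_of_nonpos hM1' (by linarith)
  have hvP : v * M ^ (-η) ≤ C * |aeval ζ P| := by
    rcases max_choice |aeval ζ P| |aeval ζ (Q * S)| with hc | hc
    · rw [hv, hc]
      have h6 : |aeval ζ P| * M ^ (-η) ≤ |aeval ζ P| * 1 :=
        mul_le_mul_of_nonneg_left hMη2 (abs_nonneg _)
      have h7 : 1 * |aeval ζ P| ≤ C * |aeval ζ P| := mul_le_mul_of_nonneg_right hC1 (abs_nonneg _)
      linarith
    · rw [hv, hc]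
      have h6 := hrec P hP0 hPn (by linarith)
      calc |aeval ζ (Q * S)| * M ^ (-η) ≤ C * |aeval ζ Q| * M ^ (-η) :=
            mul_le_mul_of_nonneg_right hRQ hMη0.le
        _ = C * (|aeval ζ Q| * M ^ (-η)) := by ring
        _ ≤ C * |aeval ζ P| := mul_le_mul_of_nonneg_left h6 (by linarith)
  have hfin : (M ^ (1 + η)) ^ (-A - ε) ≤ v * M ^ (-η) / C := by
    rw [sub_eq_add_neg, Real.rpow_add hZ0, hvA, le_div_iff₀ (by linarith), mul_assoc]
    apply mul_le_mul_of_nonneg_left _ hv0.le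
    rw [← Real.rpow_mul hM0.le]
    calc M ^ ((1 + η) * -ε) * C ≤ M ^ (-η - ε / 2) * M ^ (ε / 2) := by
          apply mul_le_mul _ h5 (by linarith) (Real.rpow_nonneg hM0.le _)
          apply Real.rpow_le_rpow_of_exponent_le hM1'
          nlinarith
      _ = M ^ (-η) := by
          rw [← Real.rpow_add hM0]
          ring_nf
  refine hfin.trans ?_
  rw [div_le_iff₀ (by linarith), mul_comm |aeval ζ P|]
  exact hvP

end Pool.Agent.Lib.H42W
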