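import Pool.Agent.Lib.H42W.SP1

/-!
# Chunk DB1 (S/M)
The derivative of a polynomial with an irreducible factor of full degree.

Proof. `F = C a * D` with an integer `a ≠ 0` (equal degrees). `K0` from `near_root n ζ`. If
`D'(ζ) = 0` then `F'(ζ) = 0`. If `K0 h(D) |D(ζ)| ≤ |D'(ζ)|^2` there is a real root `α` of `D` with
`|ζ - α| |D'(ζ)| ≤ 2 |D(ζ)|`; `NoStar` with `X = Y` (`h(D) ≤ h(F) ≤ Y` as `|a| ≥ 1`):
`h(D)⁻¹ Y^(-ω) < |ζ - α|`, so `|D'(ζ)| ≤ 2 h(D) Y^ω |D(ζ)| ≤ 2 Y^(1+ω) |D(ζ)|` and, times `|a|`,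
`|F'(ζ)| ≤ 2 Y^(1+ω) |F(ζ)| ≤ 2 Y^(1+ω) v`. Otherwise `|D'(ζ)|^2 < K0 h(D) |D(ζ)|`, times `a^2`:
`|F'(ζ)|^2 ≤ K0 (|a| h(D)) (|a| |D(ζ)|) ≤ K0 Y v` (`|a| h(D) = h(F)`, or coefficientwise), so
`|F'(ζ)| ≤ √K0 √(Y v) ≤ K0 √(Y v)`. `K = max 2 K0`.
-/

open Polynomial Filter

namespace Pool.Agent.Lib.H42W

private theorem dB1_height {D : ℤ[X]} (hD : D ≠ 0) (a : ℤ) :
    1 ≤ (H70W.height D : ℝ) ∧ (H70W.height D : ℝ) * |(a : ℝ)| ≤ (H70W.height (D * C a) : ℝ) := by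
  have hne : D.support.Nonempty := by
    rw [Finset.nonempty_iff_ne_empty]
    intro h
    exact hD (Polynomial.support_eq_empty.1 h)
  obtain ⟨i, hi, he⟩ := Finset.exists_mem_eq_sup D.support hne (fun i => (D.coeff i).natAbs)
  have hh : H70W.height D = (D.coeff i).natAbs := he
  have hc : D.coeff i ≠ 0 := Polynomial.mem_support_iff.1 hi
  have h1 : (H70W.height D : ℝ) = |(D.coeff i : ℝ)| := by
    rw [hh, Nat.cast_natAbs, Int.cast_abs]
  constructor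
  · rw [hh]
    have : 1 ≤ (D.coeff i).natAbs := Nat.one_le_iff_ne_zero.2 (Int.natAbs_ne_zero.2 hc)
    exact_mod_cast this
  · have h2 := H70W.abs_coeff_le_height (D * C a) i
    rw [Polynomial.coeff_mul_C, Int.cast_mul, abs_mul] at h2
    rw [h1]
    exact h2

theorem deriv_of_factor (n : ℕ) (ζ ω X0 : ℝ) (hno : NoStar n ζ ω X0) :
    ∃ K : ℝ, 1 ≤ K ∧ ∀ (Y v : ℝ) (F D : ℤ[X]), X0 ≤ Y → 1 ≤ Y → (H70W.height F : ℝ) ≤ Y →
      |aeval ζ F| ≤ v → F.natDegree = n → Irreducible D → D.natDegree = n → D ∣ F → F ≠ 0 →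
      |aeval ζ (derivative F)| ≤ K * (Y ^ (1 + ω) * v + √(Y * v)) := by
  obtain ⟨K0, hK0, hnear⟩ := near_root n ζ
  refine ⟨2 + K0, by linarith, ?_⟩
  intro Y v F D hXY hY hFY hFv hFn hDirr hDn hDF hF0
  obtain ⟨q, rfl⟩ := hDF
  have hD0 : D ≠ 0 := hDirr.ne_zero
  have hq0 : q ≠ 0 := right_ne_zero_of_mul hF0
  have hdeg : q.natDegree = 0 := by
    have h1 := Polynomial.natDegree_mul hD0 hq0
    omega
  obtain ⟨a, rfl⟩ : ∃ a : ℤ, q = C a := ⟨q.coeff 0, Polynomial.eq_C_of_natDegree_eq_zero hdeg⟩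
  obtain ⟨hh1, hh2⟩ := dB1_height hD0 a
  have hY0 : 0 ≤ Y := by linarith
  have hv0 : 0 ≤ v := (abs_nonneg _).trans hFv
  have hYw : 0 ≤ Y ^ (1 + ω) := Real.rpow_nonneg hY0 _
  have ha1 : (1 : ℝ) ≤ |(a : ℝ)| := by
    have ha : a ≠ 0 := by
      rintro rfl
      exact hq0 (by rw [Polynomial.C_0])
    have h1 : (1 : ℤ) ≤ |a| := Int.one_le_abs ha
    have h2 : ((1 : ℤ) : ℝ) ≤ ((|a| : ℤ) : ℝ) := Int.cast_le.2 h1
    rwa [Int.cast_one, Int.cast_abs] at h2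
  have hhY : (H70W.height D : ℝ) * |(a : ℝ)| ≤ Y := hh2.trans hFY
  have hhD : (H70W.height D : ℝ) ≤ Y := by nlinarith
  have hev : aeval ζ (D * C a) = aeval ζ D * (a : ℝ) := by
    rw [map_mul, Polynomial.aeval_C]
    simp
  have hder : aeval ζ (derivative (D * C a)) = aeval ζ (derivative D) * (a : ℝ) := by
    rw [Polynomial.derivative_mul, Polynomial.derivative_C, mul_zero, add_zero, map_mul,
      Polynomial.aeval_C]
    simp
  rw [hder, abs_mul]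
  rw [hev, abs_mul] at hFv
  have hs0 : 0 ≤ √(Y * v) := Real.sqrt_nonneg _
  have hdv : 0 ≤ |aeval ζ D| := abs_nonneg _
  by_cases hz : aeval ζ (derivative D) = 0
  · rw [hz, abs_zero, zero_mul]
    exact mul_nonneg (by linarith) (add_nonneg (mul_nonneg hYw hv0) hs0)
  by_cases hk : K0 * (H70W.height D : ℝ) * |aeval ζ D| ≤ |aeval ζ (derivative D)| ^ 2
  · obtain ⟨α, hα, hα2⟩ := hnear D hDn.le hz hk
    have h1 := hno Y α D hXY hDirr hDn hα hhD
    have hpos : 0 < |aeval ζ (derivative D)| := abs_pos.2 hz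
    have hYp : 0 < Y ^ ω := Real.rpow_pos_of_pos (by linarith) _
    have h2 : (H70W.height D : ℝ)⁻¹ * Y ^ (-ω) * |aeval ζ (derivative D)| ≤ 2 * |aeval ζ D| :=
      (mul_le_mul_of_nonneg_right h1.le hpos.le).trans hα2
    have h3 : |aeval ζ (derivative D)| ≤ 2 * |aeval ζ D| * ((H70W.height D : ℝ) * Y ^ ω) := by
      have hH : (0 : ℝ) < (H70W.height D : ℝ) := by linarith
      have h4 := mul_le_mul_of_nonneg_right h2 (mul_pos hH hYp).le
      refine le_trans (le_of_eq ?_) h4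
      rw [Real.rpow_neg hY0]
      field_simp
    have h5 : |aeval ζ (derivative D)| * |(a : ℝ)| ≤ 2 * (Y ^ (1 + ω) * v) := by
      calc |aeval ζ (derivative D)| * |(a : ℝ)|
          ≤ 2 * |aeval ζ D| * ((H70W.height D : ℝ) * Y ^ ω) * |(a : ℝ)| :=
            mul_le_mul_of_nonneg_right h3 (abs_nonneg _)
        _ = 2 * (((H70W.height D : ℝ) * Y ^ ω) * (|aeval ζ D| * |(a : ℝ)|)) := by ring
        _ ≤ 2 * ((Y * Y ^ ω) * v) := by
            refine mul_le_mul_of_nonneg_left ?_ (by norm_num)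
            refine mul_le_mul (mul_le_mul_of_nonneg_right hhD hYp.le) hFv
              (mul_nonneg hdv (abs_nonneg _)) (mul_nonneg hY0 hYp.le)
        _ = 2 * (Y ^ (1 + ω) * v) := by
            rw [Real.rpow_add (by linarith : 0 < Y), Real.rpow_one]
    have h6 : 0 ≤ Y ^ (1 + ω) * v := mul_nonneg hYw hv0
    have h7 : 0 ≤ K0 * (Y ^ (1 + ω) * v) := mul_nonneg (by linarith) h6
    have h8 : 0 ≤ (2 + K0) * √(Y * v) := mul_nonneg (by linarith) hs0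
    calc |aeval ζ (derivative D)| * |(a : ℝ)| ≤ 2 * (Y ^ (1 + ω) * v) := h5
      _ ≤ (2 + K0) * (Y ^ (1 + ω) * v + √(Y * v)) := by
        rw [mul_add, add_mul]
        linarith
  · push Not at hk
    have h1 : (|aeval ζ (derivative D)| * |(a : ℝ)|) ^ 2 ≤ K0 * (Y * v) := by
      calc (|aeval ζ (derivative D)| * |(a : ℝ)|) ^ 2
          = |aeval ζ (derivative D)| ^ 2 * |(a : ℝ)| ^ 2 := by ring
        _ ≤ (K0 * (H70W.height D : ℝ) * |aeval ζ D|) * |(a : ℝ)| ^ 2 :=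
            mul_le_mul_of_nonneg_right hk.le (sq_nonneg _)
        _ = K0 * (((H70W.height D : ℝ) * |(a : ℝ)|) * (|aeval ζ D| * |(a : ℝ)|)) := by ring
        _ ≤ K0 * (Y * v) := by
            refine mul_le_mul_of_nonneg_left ?_ (by linarith)
            exact mul_le_mul hhY hFv (mul_nonneg hdv (abs_nonneg _)) hY0
    have h2 : K0 * (Y * v) ≤ (K0 * √(Y * v)) ^ 2 := by
      rw [mul_pow, Real.sq_sqrt (mul_nonneg hY0 hv0)]
      have h3 : 0 ≤ Y * v := mul_nonneg hY0 hv0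
      have h4 : K0 ≤ K0 ^ 2 := by nlinarith
      exact mul_le_mul_of_nonneg_right h4 h3
    have h3 : |aeval ζ (derivative D)| * |(a : ℝ)| ≤ K0 * √(Y * v) := by
      have h4 := abs_le_of_sq_le_sq' (h1.trans h2) (mul_nonneg (by linarith) hs0)
      exact h4.2
    have h6 : 0 ≤ Y ^ (1 + ω) * v := mul_nonneg hYw hv0
    have h7 : 0 ≤ (2 + K0) * (Y ^ (1 + ω) * v) := mul_nonneg (by linarith) h6
    rw [mul_add]
    nlinarith

end Pool.Agent.Lib.H42W
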