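import Pool.Agent.Lib.H42W.SP3
import Pool.Agent.Lib.H42W.DB1

/-!
# Chunk DB2 (M/L; adapt `H70W.step`, file `Lib/H70W/Main.lean`)
The derivative bound for coprime pairs.

Proof. `w = (ω + A) / 2 > ω ≥ 0`, `η = (A - ω) / 2 > 0`, `δ = η / (4 n w)`,
`N1 = (⌊2 / δ⌋₊ + 1) * n`, `N = N1 + 1`, `F_b = P + C b * R` for `1 ≤ b ≤ N + 1`,
`B = {b ∈ [1, N+1] : deg F_b = n}`, `N ≤ B.card` (`H70W.card_leading`; `R ≠ 0` as it is
squarefree). `height F_b ≤ (N + 2) Y`, `|F_b(ζ)| ≤ (N + 2) v ≤ (N + 2) Y^(-A)`,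
`mm F_b ≤ (n + 1) (N + 2) Y` (`H70W.mm_le_height`), so
`|F_b(ζ)| (mm F_b)^w ≤ C Y^(-A + w) = C Y^(-η) ≤ Y^(-η/2) = (Y^(-η/(2n)))^n` for large `Y`, and
`H70W.exists_factor` gives for `b ∈ B` an irreducible `D b ∣ F_b` of positive degree with
`|D b (ζ)| (mm (D b))^w ≤ Y^(-η/(2n))`.
(1) If two different `b, b' ∈ B` have `deg (D b) = deg (D b') = n`: `deriv_of_factor` for
`(N+2) Y`, `(N+2) v` bounds `F_b'(ζ)` and `F_b''(ζ)` by `C (Y^(1+ω) v + √(Y v))`, and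
`R = (F_b - F_(b'))/(b - b')`, `P = F_b - b R` give the claim.
(2) Otherwise `B1 = {b ∈ B : deg (D b) < n}` has at least `N1` elements. `H70W.windows` with `M = Y`,
`r b = mm (D b)` (`1 ≤ mm (D b) ≤ mm F_b ≤ (n+1)(N+2) Y ≤ Y^2`) gives `k` and `B' ⊆ B1` with at least
`n` elements and `Y^(k δ) ≤ mm (D b) ≤ Y^((k+1) δ) =: Y'`. So
`|D b (ζ)| ≤ Y^(-η/(2n)) Y^(-k δ w) ≤ Y'^(-w)` as `δ w ≤ η/(2n)`, `height (D b) ≤ 2^n Y'`. The
family `D b * X^i`, `b ∈ B'`, `i + deg (D b) ≤ n` and `H70W.span_all`, `H70W.exists_det` give `n+1`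
of them with nonzero determinant (exactly as at the end of `H70W.step`, `K9 = max (2^n) (max 1 |ζ|^n)`):
contradiction to `no_span` (with `K = K9`, `w`) because `Y' ≥ Y^δ` is large.
-/

open Polynomial Filter

namespace Pool.Agent.Lib.H42W

private theorem dB2_Fb {n N : ℕ} {ζ Y v : ℝ} {P R : ℤ[X]} (hPn : P.natDegree ≤ n)
    (hRn : R.natDegree = n) (hY : 0 ≤ Y)
    (hPh : (H70W.height P : ℝ) ≤ Y) (hRh : (H70W.height R : ℝ) ≤ Y) (hPv : |aeval ζ P| ≤ v)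
    (hRv : |aeval ζ R| ≤ v) {b : ℤ} (hb1 : 1 ≤ b) (hb2 : b ≤ N + 1) :
    (P + C b * R).natDegree ≤ n ∧ (H70W.height (P + C b * R) : ℝ) ≤ ((N : ℝ) + 2) * Y ∧
      |aeval ζ (P + C b * R)| ≤ ((N : ℝ) + 2) * v := by
  have hb1' : (1 : ℝ) ≤ b := by exact_mod_cast hb1
  have hb2' : (b : ℝ) ≤ N + 1 := by exact_mod_cast hb2
  have hv : 0 ≤ v := (abs_nonneg _).trans hPv
  refine ⟨?_, ?_, ?_⟩
  · apply natDegree_add_le_of_degree_le hPn
    exact (natDegree_C_mul_le b _).trans hRn.le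
  · apply H70W.height_le_of (by positivity)
    intro i
    have h1 : (((P + C b * R).coeff i : ℤ) : ℝ) = (P.coeff i : ℝ) + b * (R.coeff i : ℝ) := by
      rw [coeff_add, coeff_C_mul]; push_cast; ring
    rw [h1]
    have h2 := (H70W.abs_coeff_le_height P i).trans hPh
    have h3 := (H70W.abs_coeff_le_height R i).trans hRh
    calc |(P.coeff i : ℝ) + b * (R.coeff i : ℝ)|
        ≤ |(P.coeff i : ℝ)| + |b * (R.coeff i : ℝ)| := abs_add_le _ _
      _ = |(P.coeff i : ℝ)| + b * |(R.coeff i : ℝ)| := by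
          rw [abs_mul, abs_of_nonneg (by linarith : (0 : ℝ) ≤ b)]
      _ ≤ Y + (N + 1) * Y := by
          apply add_le_add h2
          exact mul_le_mul hb2' h3 (abs_nonneg _) (by positivity)
      _ = ((N : ℝ) + 2) * Y := by ring
  · have h1 : aeval ζ (P + C b * R) = aeval ζ P + b * aeval ζ R := by
      simp
    rw [h1]
    calc |aeval ζ P + b * aeval ζ R| ≤ |aeval ζ P| + |b * aeval ζ R| := abs_add_le _ _
      _ = |aeval ζ P| + b * |aeval ζ R| := by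
          rw [abs_mul, abs_of_nonneg (by linarith : (0 : ℝ) ≤ b)]
      _ ≤ v + (N + 1) * v := by
          apply add_le_add hPv
          exact mul_le_mul hb2' hRv (abs_nonneg _) (by positivity)
      _ = ((N : ℝ) + 2) * v := by ring

private theorem dB2_two {N : ℕ} {ζ E : ℝ} {P R : ℤ[X]} {b b' : ℤ} (hb1 : 1 ≤ b)
    (hb2 : b ≤ N + 1) (hne : b ≠ b')
    (h1 : |aeval ζ (derivative (P + C b * R))| ≤ E)
    (h2 : |aeval ζ (derivative (P + C b' * R))| ≤ E) :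
    |aeval ζ (derivative P)| ≤ (2 * N + 3) * E ∧ |aeval ζ (derivative R)| ≤ (2 * N + 3) * E := by
  have hE : 0 ≤ E := (abs_nonneg _).trans h1
  have hb1' : (1 : ℝ) ≤ b := by exact_mod_cast hb1
  have hb2' : (b : ℝ) ≤ N + 1 := by exact_mod_cast hb2
  have hN : (0 : ℝ) ≤ N := Nat.cast_nonneg N
  have e1 : ∀ c : ℤ, aeval ζ (derivative (P + C c * R)) =
      aeval ζ (derivative P) + c * aeval ζ (derivative R) := by
    intro c
    simp
  rw [e1] at h1 h2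
  have hd : (1 : ℝ) ≤ |(b : ℝ) - b'| := by
    have h3 : (1 : ℤ) ≤ |b - b'| := Int.one_le_abs (sub_ne_zero.2 hne)
    have h4 : ((1 : ℤ) : ℝ) ≤ ((|b - b'| : ℤ) : ℝ) := Int.cast_le.2 h3
    rwa [Int.cast_one, Int.cast_abs, Int.cast_sub] at h4
  have hR : |aeval ζ (derivative R)| ≤ 2 * E := by
    have h3 : |((b : ℝ) - b') * aeval ζ (derivative R)| ≤ 2 * E := by
      have e2 : ((b : ℝ) - b') * aeval ζ (derivative R) =
          (aeval ζ (derivative P) + b * aeval ζ (derivative R)) -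
            (aeval ζ (derivative P) + b' * aeval ζ (derivative R)) := by ring
      rw [e2]
      refine (abs_sub _ _).trans ?_
      linarith
    rw [abs_mul] at h3
    have h4 : 1 * |aeval ζ (derivative R)| ≤ |(b : ℝ) - b'| * |aeval ζ (derivative R)| :=
      mul_le_mul_of_nonneg_right hd (abs_nonneg _)
    linarith
  constructor
  · have e3 : aeval ζ (derivative P) = (aeval ζ (derivative P) + b * aeval ζ (derivative R)) -
        b * aeval ζ (derivative R) := by ring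
    rw [e3]
    refine (abs_sub _ _).trans ?_
    rw [abs_mul, abs_of_nonneg (by linarith : (0 : ℝ) ≤ b)]
    have h5 : (b : ℝ) * |aeval ζ (derivative R)| ≤ (N + 1) * (2 * E) :=
      mul_le_mul hb2' hR (abs_nonneg _) (by positivity)
    calc |aeval ζ (derivative P) + b * aeval ζ (derivative R)| + b * |aeval ζ (derivative R)|
        ≤ E + (N + 1) * (2 * E) := add_le_add h1 h5
      _ = (2 * N + 3) * E := by ring
  · refine hR.trans ?_
    exact mul_le_mul_of_nonneg_right (by linarith) hE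

private theorem dB2_contra (n : ℕ) (hn : 1 ≤ n) (ζ w η δ K9 Y2 Y : ℝ) (hw : 0 < w)
    (hδ : 0 < δ) (hδw : δ * w ≤ η / (2 * n)) (hK9 : K9 = max (2 ^ n) (max 1 |ζ| ^ n))
    (hspan : ∀ Y : ℝ, Y2 ≤ Y → ∀ G : Fin (n + 1) → ℤ[X], (∀ i, (G i).natDegree ≤ n) →
      (∀ i, (H70W.height (G i) : ℝ) ≤ K9 * Y) → (∀ i, |aeval ζ (G i)| ≤ K9 * Y ^ (-w)) →
      (Matrix.of fun k l : Fin (n + 1) => (G k).coeff l).det = 0)
    (hY1 : 1 < Y) (hYδ : Y2 ≤ Y ^ δ) (P R : ℤ[X]) (hPn : P.natDegree ≤ n)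
    (hRn : R.natDegree = n) (hsq : Squarefree (R.map (Int.castRingHom ℂ)))
    (hco : IsCoprime (P.map (Int.castRingHom ℂ)) (R.map (Int.castRingHom ℂ)))
    (B : Finset ℤ) (hBdeg : ∀ b ∈ B, (P + C b * R).natDegree = n)
    (hmF : ∀ b ∈ B, H70W.mm (P + C b * R) ≤ Y ^ (2 : ℝ)) (D : ℤ → ℤ[X])
    (hD : ∀ b ∈ B, Irreducible (D b) ∧ 1 ≤ (D b).natDegree ∧ D b ∣ P + C b * R ∧
      |aeval ζ (D b)| * (H70W.mm (D b)) ^ w ≤ Y ^ (-(η / (2 * n))))
    (hlt : ∀ b ∈ B, (D b).natDegree < n) (hcard : (⌊2 / δ⌋₊ + 1) * n ≤ B.card) : False := by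
  classical
  have hn0 : (0 : ℝ) < n := by exact_mod_cast hn
  have hYp : 0 < Y := by linarith
  have hDne : ∀ b ∈ B, P + C b * R ≠ 0 := by
    intro b hb h0
    have := hBdeg b hb
    rw [h0, natDegree_zero] at this
    omega
  obtain ⟨k, B', hB'B, hB'card, hwin⟩ := H70W.windows n Y δ hY1 hδ B (fun b => H70W.mm (D b)) (by
    intro b hb
    refine ⟨H70W.one_le_mm (hD b hb).1.ne_zero, ?_⟩
    exact (H70W.mm_le_of_dvd (hDne b hb) (hD b hb).2.2.1).trans (hmF b hb)) hcard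
  obtain ⟨Y', hY'⟩ : ∃ Y' : ℝ, Y' = Y ^ (((k : ℝ) + 1) * δ) := ⟨_, rfl⟩
  have hYM : Y ^ δ ≤ Y' := by
    rw [hY']
    apply Real.rpow_le_rpow_of_exponent_le hY1.le
    have : 0 ≤ (k : ℝ) * δ := by positivity
    linarith
  have hY'pos : 0 < Y' := by rw [hY']; exact Real.rpow_pos_of_pos hYp _
  have hval : ∀ b ∈ B', |aeval ζ (D b)| ≤ Y' ^ (-w) := by
    intro b hb
    have hbB := hB'B hb
    have h1 := (hD b hbB).2.2.2
    have h2 := (hwin b hb).1
    have hpos : 0 < Y ^ ((k : ℝ) * δ) := Real.rpow_pos_of_pos hYp _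
    have h3 : (Y ^ ((k : ℝ) * δ)) ^ w ≤ (H70W.mm (D b)) ^ w :=
      Real.rpow_le_rpow hpos.le h2 hw.le
    have h4 : |aeval ζ (D b)| * (Y ^ ((k : ℝ) * δ)) ^ w ≤ Y ^ (-(η / (2 * n))) :=
      (mul_le_mul_of_nonneg_left h3 (abs_nonneg _)).trans h1
    have h5 : |aeval ζ (D b)| ≤ Y ^ (-(η / (2 * n))) / (Y ^ ((k : ℝ) * δ)) ^ w := by
      rw [le_div_iff₀ (Real.rpow_pos_of_pos hpos _)]
      exact h4
    refine h5.trans ?_
    rw [hY', ← Real.rpow_mul hYp.le, ← Real.rpow_mul hYp.le, ← Real.rpow_sub hYp]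
    apply Real.rpow_le_rpow_of_exponent_le hY1.le
    nlinarith
  have hheight : ∀ b ∈ B', (H70W.height (D b) : ℝ) ≤ 2 ^ n * Y' := by
    intro b hb
    have hbB := hB'B hb
    refine (H70W.height_le_mm (hlt b hbB).le).trans ?_
    rw [hY']
    exact mul_le_mul_of_nonneg_left (hwin b hb).2 (by positivity)
  have hK9' : (2 : ℝ) ^ n ≤ K9 := by rw [hK9]; exact le_max_left _ _
  have hK9'' : max 1 |ζ| ^ n ≤ K9 := by rw [hK9]; exact le_max_right _ _
  have hK90 : 0 ≤ K9 := le_trans (by positivity) hK9'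
  let ι : Type := {x : ℤ × ℕ // x.1 ∈ B' ∧ x.2 + (D x.1).natDegree ≤ n}
  let G : ι → ℤ[X] := fun x => D x.1.1 * X ^ x.1.2
  have hGdeg : ∀ i, (G i).natDegree ≤ n := by
    intro i
    have h1 : (G i).natDegree ≤ (D i.1.1).natDegree + i.1.2 := by
      refine natDegree_mul_le.trans ?_
      exact Nat.add_le_add_left (natDegree_X_pow_le _) _
    have h2 := i.2.2
    omega
  obtain ⟨j, hj⟩ := H70W.exists_det n G hGdeg (by
    intro φ hφ
    apply H70W.span_all n hn P R hPn hRn hsq hco B' hB'card D _ φ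
    · intro b hb i hi
      exact hφ ⟨(b, i), hb, hi⟩
    · intro b hb
      exact ⟨hBdeg b (hB'B hb), (hD b (hB'B hb)).2.2.1, hlt b (hB'B hb)⟩)
  refine hj (hspan Y' (hYδ.trans hYM) (fun i => G (j i)) (fun i => hGdeg _) ?_ ?_)
  · intro i
    have h1 : (H70W.height (G (j i)) : ℝ) ≤ H70W.height (D (j i).1.1) := by
      apply H70W.height_le_of (Nat.cast_nonneg _)
      intro l
      rcases lt_or_ge l (j i).1.2 with hl | hl
      · have : (G (j i)).coeff l = 0 := by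
          simp only [G]
          rw [coeff_mul_X_pow', if_neg (by omega)]
        rw [this]; simp
      · have : (G (j i)).coeff l = (D (j i).1.1).coeff (l - (j i).1.2) := by
          simp only [G]
          rw [coeff_mul_X_pow', if_pos hl]
        rw [this]
        exact H70W.abs_coeff_le_height _ _
    refine h1.trans ((hheight _ (j i).2.1).trans ?_)
    exact mul_le_mul_of_nonneg_right hK9' hY'pos.le
  · intro i
    have h1 : aeval ζ (G (j i)) = aeval ζ (D (j i).1.1) * ζ ^ (j i).1.2 := by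
      simp [G]
    rw [h1, abs_mul, abs_pow]
    have h2 := hval _ (j i).2.1
    have h3 : |ζ| ^ (j i).1.2 ≤ K9 := by
      refine le_trans ?_ hK9''
      have h4 : |ζ| ^ (j i).1.2 ≤ (max 1 |ζ|) ^ (j i).1.2 :=
        pow_le_pow_left₀ (abs_nonneg _) (le_max_right _ _) _
      refine h4.trans ?_
      apply pow_le_pow_right₀ (le_max_left _ _)
      have := (j i).2.2
      omega
    rw [mul_comm]
    exact mul_le_mul h3 h2 (abs_nonneg _) hK90

theorem pair_deriv (n : ℕ) (hn : 1 ≤ n) (ζ : ℝ) (hζ : Transcendental ℤ ζ) (ω X0 A : ℝ)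
    (hω : 0 ≤ ω) (hA : ω < A) (hno : NoStar n ζ ω X0) :
    ∃ K Y0 : ℝ, 1 ≤ K ∧ 1 ≤ Y0 ∧ ∀ (Y v : ℝ) (P R : ℤ[X]), Y0 ≤ Y → v ≤ Y ^ (-A) →
      P.natDegree ≤ n → R.natDegree = n → Squarefree (R.map (Int.castRingHom ℂ)) →
      IsCoprime (P.map (Int.castRingHom ℂ)) (R.map (Int.castRingHom ℂ)) →
      (H70W.height P : ℝ) ≤ Y → (H70W.height R : ℝ) ≤ Y → |aeval ζ P| ≤ v → |aeval ζ R| ≤ v →
      |aeval ζ (derivative P)| ≤ K * (Y ^ (1 + ω) * v + √(Y * v)) ∧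
      |aeval ζ (derivative R)| ≤ K * (Y ^ (1 + ω) * v + √(Y * v)) := by
  classical
  have hn0 : (0 : ℝ) < n := by exact_mod_cast hn
  obtain ⟨w, hwdef⟩ : ∃ w : ℝ, w = (ω + A) / 2 := ⟨_, rfl⟩
  obtain ⟨η, hηdef⟩ : ∃ η : ℝ, η = (A - ω) / 2 := ⟨_, rfl⟩
  have hη : 0 < η := by rw [hηdef]; linarith
  have hww : ω < w := by rw [hwdef]; linarith
  have hw0 : 0 < w := lt_of_le_of_lt hω hww
  have hAw : A = w + η := by rw [hwdef, hηdef]; ring
  obtain ⟨δ, hδdef⟩ : ∃ δ : ℝ, δ = η / (4 * n * w) := ⟨_, rfl⟩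
  have hδ : 0 < δ := by rw [hδdef]; positivity
  have hδw : δ * w ≤ η / (2 * n) := by
    have e1 : δ * w = η / (4 * n) := by
      rw [hδdef]; field_simp
    rw [e1]
    apply div_le_div_of_nonneg_left hη.le (by positivity)
    linarith
  obtain ⟨N1, hN1⟩ : ∃ N1 : ℕ, N1 = (⌊2 / δ⌋₊ + 1) * n := ⟨_, rfl⟩
  obtain ⟨N, hN⟩ : ∃ N : ℕ, N = N1 + 1 := ⟨_, rfl⟩
  obtain ⟨m, hm⟩ : ∃ m : ℝ, m = (N : ℝ) + 2 := ⟨_, rfl⟩
  have hm1 : 1 ≤ m := by
    have : (0 : ℝ) ≤ N := Nat.cast_nonneg N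
    rw [hm]; linarith
  have hm0 : 0 < m := by linarith
  obtain ⟨K1, hK1, hder⟩ := deriv_of_factor n ζ ω X0 hno
  obtain ⟨K9, hK9⟩ : ∃ K9 : ℝ, K9 = max (2 ^ n) (max 1 |ζ| ^ n) := ⟨_, rfl⟩
  obtain ⟨Y2, hspan⟩ := no_span n hn ζ ω X0 K9 w hω hww hno
  obtain ⟨C0, hC0⟩ : ∃ C0 : ℝ, C0 = m * (((n : ℝ) + 1) * m) ^ w := ⟨_, rfl⟩
  have hev : ∀ᶠ Y : ℝ in atTop, 1 < Y ∧ X0 ≤ Y ∧ ((n : ℝ) + 1) * m ≤ Y ∧ Y2 ≤ Y ^ δ ∧
      C0 ≤ Y ^ (η / 2) := by
    filter_upwards [eventually_gt_atTop 1, eventually_ge_atTop X0,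
      eventually_ge_atTop (((n : ℝ) + 1) * m), (tendsto_rpow_atTop hδ).eventually_ge_atTop Y2,
      (tendsto_rpow_atTop (by linarith : 0 < η / 2)).eventually_ge_atTop C0] with Y h1 h2 h3 h4 h5
    exact ⟨h1, h2, h3, h4, h5⟩
  obtain ⟨Y3, hY3⟩ := eventually_atTop.1 hev
  obtain ⟨C1, hC1⟩ : ∃ C1 : ℝ, C1 = K1 * (m ^ (1 + ω) * m) := ⟨_, rfl⟩
  have hmω : 1 ≤ m ^ (1 + ω) := Real.one_le_rpow hm1 (by linarith)
  have hC11 : 1 ≤ C1 := by
    rw [hC1]
    have h1 : 1 ≤ m ^ (1 + ω) * m := one_le_mul_of_one_le_of_one_le hmω hm1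
    exact one_le_mul_of_one_le_of_one_le hK1 h1
  refine ⟨(2 * N + 3) * C1, max 1 Y3, ?_, le_max_left _ _, ?_⟩
  · have : (0 : ℝ) ≤ N := Nat.cast_nonneg N
    nlinarith
  intro Y v P R hYY hv hPn hRn hsq hco hPh hRh hPv hRv
  obtain ⟨hY1, hYX0, hYm, hYδ, hYC0⟩ := hY3 Y ((le_max_right _ _).trans hYY)
  have hYp : 0 < Y := by linarith
  have hv0 : 0 ≤ v := (abs_nonneg _).trans hPv
  obtain ⟨E, hE⟩ : ∃ E : ℝ, E = Y ^ (1 + ω) * v + √(Y * v) := ⟨_, rfl⟩
  have hYw : 0 ≤ Y ^ (1 + ω) := (Real.rpow_pos_of_pos hYp _).le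
  have hE0 : 0 ≤ E := by
    rw [hE]; positivity
  rw [← hE]
  have hR0 : R ≠ 0 := by
    rintro rfl
    rw [Polynomial.map_zero] at hsq
    exact not_squarefree_zero hsq
  obtain ⟨B, hB⟩ : ∃ B : Finset ℤ,
    B = (Finset.Icc (1 : ℤ) (N + 1)).filter fun b => (P + C b * R).natDegree = n := ⟨_, rfl⟩
  have hBcard : N ≤ B.card := by
    rw [hB]; exact H70W.card_leading n P R hPn hRn hR0 N
  have hBmem : ∀ b ∈ B, 1 ≤ b ∧ b ≤ N + 1 ∧ (P + C b * R).natDegree = n := by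
    intro b hb
    rw [hB] at hb
    obtain ⟨hb1, hb2⟩ := Finset.mem_filter.1 hb
    obtain ⟨hb3, hb4⟩ := Finset.mem_Icc.1 hb1
    exact ⟨hb3, hb4, hb2⟩
  have hF : ∀ b ∈ B, (H70W.height (P + C b * R) : ℝ) ≤ m * Y ∧
      |aeval ζ (P + C b * R)| ≤ m * v := by
    intro b hb
    obtain ⟨h1, h2, -⟩ := hBmem b hb
    rw [hm]
    exact (dB2_Fb hPn hRn hYp.le hPh hRh hPv hRv h1 h2).2
  have hFne : ∀ b ∈ B, P + C b * R ≠ 0 := by
    intro b hb h0
    have := (hBmem b hb).2.2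
    rw [h0, natDegree_zero] at this
    omega
  have hmF : ∀ b ∈ B, H70W.mm (P + C b * R) ≤ ((n : ℝ) + 1) * m * Y := by
    intro b hb
    refine (H70W.mm_le_height (hBmem b hb).2.2.le).trans ?_
    rw [mul_assoc]
    exact mul_le_mul_of_nonneg_left (hF b hb).1 (by positivity)
  have hfac : ∀ b : ℤ, b ∈ B → ∃ D : ℤ[X], Irreducible D ∧ 1 ≤ D.natDegree ∧
      D ∣ P + C b * R ∧ |aeval ζ D| * (H70W.mm D) ^ w ≤ Y ^ (-(η / (2 * n))) := by
    intro b hb
    obtain ⟨h1, h2, h3⟩ := hBmem b hb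
    apply H70W.exists_factor n ζ hζ (P + C b * R) (by omega) h3.le w _ hw0.le
      (Real.rpow_pos_of_pos hYp _)
    · apply Real.rpow_le_one_of_one_le_of_nonpos hY1.le
      have : 0 ≤ η / (2 * n) := by positivity
      linarith
    · have hmm0 : 0 ≤ H70W.mm (P + C b * R) := H70W.A1_mm_nonneg _
      have hvA : m * v ≤ m * Y ^ (-A) := mul_le_mul_of_nonneg_left hv hm0.le
      have hYA : 0 < Y ^ (-A) := Real.rpow_pos_of_pos hYp _
      have hnm : 0 < ((n : ℝ) + 1) * m := by positivity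
      have h4 : |aeval ζ (P + C b * R)| * (H70W.mm (P + C b * R)) ^ w ≤
          (m * Y ^ (-A)) * ((((n : ℝ) + 1) * m * Y) ^ w) := by
        apply mul_le_mul ((hF b hb).2.trans hvA) _ (Real.rpow_nonneg hmm0 _) (by positivity)
        exact Real.rpow_le_rpow hmm0 (hmF b hb) hw0.le
      refine h4.trans ?_
      have h5 : (m * Y ^ (-A)) * ((((n : ℝ) + 1) * m * Y) ^ w) = C0 * Y ^ (-η) := by
        rw [Real.mul_rpow hnm.le hYp.le, hC0]
        have h6 : Y ^ (-A) * Y ^ w = Y ^ (-η) := by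
          rw [← Real.rpow_add hYp]
          apply congrArg
          rw [hAw]; ring
        rw [← h6]; ring
      rw [h5]
      have h7 : C0 * Y ^ (-η) ≤ Y ^ (η / 2) * Y ^ (-η) :=
        mul_le_mul_of_nonneg_right hYC0 (Real.rpow_pos_of_pos hYp _).le
      refine h7.trans (le_of_eq ?_)
      rw [← Real.rpow_natCast, ← Real.rpow_mul hYp.le, ← Real.rpow_add hYp]
      apply congrArg
      field_simp
      ring
  choose! D hD using hfac
  by_cases htwo : ∃ b ∈ B, ∃ b' ∈ B, b ≠ b' ∧ (D b).natDegree = n ∧ (D b').natDegree = n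
  · obtain ⟨b, hb, b', hb', hne, hbn, hbn'⟩ := htwo
    have key : ∀ c ∈ B, (D c).natDegree = n →
        |aeval ζ (derivative (P + C c * R))| ≤ C1 * E := by
      intro c hc hcn
      have h1 := hder (m * Y) (m * v) (P + C c * R) (D c) (by nlinarith) (by nlinarith)
        (hF c hc).1 (hF c hc).2 (hBmem c hc).2.2 (hD c hc).1 hcn (hD c hc).2.2.1 (hFne c hc)
      refine h1.trans ?_
      have h0 : C1 * E = K1 * ((m ^ (1 + ω) * m) * E) := by rw [hC1]; ring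
      rw [h0]
      refine mul_le_mul_of_nonneg_left ?_ (by linarith)
      have h2 : (m * Y) ^ (1 + ω) * (m * v) = (m ^ (1 + ω) * m) * (Y ^ (1 + ω) * v) := by
        rw [Real.mul_rpow hm0.le hYp.le]; ring
      have h3 : √(m * Y * (m * v)) = m * √(Y * v) := by
        have e1 : m * Y * (m * v) = m ^ 2 * (Y * v) := by ring
        rw [e1, Real.sqrt_mul (sq_nonneg m), Real.sqrt_sq hm0.le]
      rw [h2, h3, hE, mul_add]
      refine add_le_add le_rfl ?_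
      refine mul_le_mul_of_nonneg_right ?_ (Real.sqrt_nonneg _)
      nlinarith
    have h4 := dB2_two (N := N) (hBmem b hb).1 (hBmem b hb).2.1 hne (key b hb hbn)
      (key b' hb' hbn')
    rw [mul_assoc]
    exact h4
  · exfalso
    have hsub : (B.filter fun b => ¬ (D b).natDegree < n).card ≤ 1 := by
      rw [Finset.card_le_one]
      intro a ha b hb
      obtain ⟨ha1, ha2⟩ := Finset.mem_filter.1 ha
      obtain ⟨hb1, hb2⟩ := Finset.mem_filter.1 hb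
      by_contra hne
      apply htwo
      have hdeg : ∀ c ∈ B, (D c).natDegree ≤ n := by
        intro c hc
        exact (natDegree_le_of_dvd (hD c hc).2.2.1 (hFne c hc)).trans (hBmem c hc).2.2.le
      have h1 := hdeg a ha1
      have h2 := hdeg b hb1
      exact ⟨a, ha1, b, hb1, hne, by omega, by omega⟩
    have hsum := Finset.card_filter_add_card_filter_not (s := B) (fun b => (D b).natDegree < n)
    have hcard : (⌊2 / δ⌋₊ + 1) * n ≤ (B.filter fun b => (D b).natDegree < n).card := by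
      rw [← hN1]
      omega
    have hY2 : Y ^ (2 : ℝ) = Y * Y := by
      rw [Real.rpow_two]; ring
    exact dB2_contra n hn ζ w η δ K9 Y2 Y hw0 hδ hδw hK9 hspan hY1 hYδ P R hPn hRn hsq hco
      (B.filter fun b => (D b).natDegree < n)
      (fun b hb => (hBmem b (Finset.mem_filter.1 hb).1).2.2)
      (fun b hb => by
        rw [hY2]
        exact (hmF b (Finset.mem_filter.1 hb).1).trans (mul_le_mul_of_nonneg_right hYm hYp.le))
      D (fun b hb => hD b (Finset.mem_filter.1 hb).1) (fun b hb => (Finset.mem_filter.1 hb).2)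
      hcard

end Pool.Agent.Lib.H42W
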