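import Pool.Agent.Lib.H42W.DB2

/-!
# Chunk DV (M)
The derivatives of the basis vectors.

Proof. Let `e2 = ε / (2 (Bmax + 1))`-like, so that `e2 * x ≤ ε / 2` for `0 ≤ x ≤ |Bmax| + 1`
(`1 ≤ x` and `x (1 + ω) ≤ B - ε ≤ Bmax` give `x ≤ Bmax`); `A1 = ω + e2`; `pair_deriv` with `A = A1` gives
`K, Y0`. Let `Z` be large, `c ∈ {1, ..., n+1}` such that `P_c = b + c P` is coprime to `R` over `ℂ`: the `n` roots `t` of
`R` (squarefree, degree `n`; the roots of `R` over `ℂ`) are no roots of `P`, so for each `t` at most one `c` has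
`b(t) + c P(t) = 0`; so one of the `n + 1` values of `c` has no common root, and then `P_c`, `R` are coprime over
`ℂ` (algebraically closed: a common irreducible factor has a root; `Polynomial.isCoprime_of...` or
`IsCoprime` via `EuclideanDomain`, `gcd`). `deg P_c ≤ n`. Put
`Y = (n+2) Z^x` (`x` is the exponent `ν` of `b`), `v = (n+2) Z^(x - B)`. As `x ≥ 1` (and `Z ≥ 1`):
`height P_c ≤ Y`, `height R ≤ Y`, `|P_c(ζ)| ≤ v`, `|R(ζ)| ≤ v`. `v ≤ Y^(-A1)` because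
`(n+2)^(1+A1) Z^(x - B + A1 x) ≤ 1`: the exponent is `x (1+ω) - B + e2 x ≤ - ε + ε/2`, `Z` large.
So `|P_c'(ζ)| ≤ K (Y^(1+ω) v + √(Y v)) ≤ K (n+2)^(2+ω) (Z^(x(1+ω) + x - B) + Z^(x - B/2))
= K (n+2)^(2+ω) Z^x (Z^(x(1+ω) - B) + Z^(-B/2))`.
The same with the pair `P, R` (`Y = Z`, `v = Z^(1-B)`, `1 (1+ω) ≤ x (1+ω) ≤ B - ε`) gives
`|P'(ζ)| ≤ K Z (Z^((1+ω) - B) + Z^(-B/2))`, at most the same bound. `b' = P_c' - c P'`, `c ≤ n + 1`, and
`K (n+2)^(2+ω) + (n+1) K ≤ Z^ε` for large `Z`.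
(The three conclusions: for `b`, and for `P` and `R` with exponent 1.)
-/

open Polynomial Filter

namespace Pool.Agent.Lib.H42W

theorem dv_good (n : ℕ) (P R b : ℤ[X]) (hn : 1 ≤ n) (hR : R.natDegree = n)
    (hco : IsCoprime (P.map (Int.castRingHom ℂ)) (R.map (Int.castRingHom ℂ))) :
    ∃ c : ℕ, c ≤ n + 1 ∧
      IsCoprime ((b + C (c : ℤ) * P).map (Int.castRingHom ℂ)) (R.map (Int.castRingHom ℂ)) := by
  classical
  set r := R.map (Int.castRingHom ℂ) with hr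
  have hR0 : R ≠ 0 := by
    rintro rfl
    rw [natDegree_zero] at hR
    omega
  have hr0 : r ≠ 0 := by
    rw [hr, Ne, Polynomial.map_eq_zero_iff (RingHom.injective_int _)]
    exact hR0
  have hcard : r.roots.toFinset.card ≤ n := by
    refine (Multiset.toFinset_card_le _).trans ((card_roots' r).trans ?_)
    rw [← hR]
    exact natDegree_map_le
  have hP : ∀ t : ℂ, aeval t r = 0 → aeval t (P.map (Int.castRingHom ℂ)) ≠ 0 := by
    intro t ht h0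
    rcases (isCoprime_iff_aeval_ne_zero_of_isAlgClosed ℂ ℂ _ _).1 hco t with h | h
    · exact h h0
    · exact h ht
  by_contra hcon
  push Not at hcon
  have hex : ∀ c : ℕ, c ≤ n + 1 → ∃ t : ℂ,
      aeval t ((b + C (c : ℤ) * P).map (Int.castRingHom ℂ)) = 0 ∧ aeval t r = 0 := by
    intro c hc
    by_contra h
    push Not at h
    apply hcon c hc
    rw [isCoprime_iff_aeval_ne_zero_of_isAlgClosed ℂ ℂ]
    intro t
    by_cases h1 : aeval t ((b + C (c : ℤ) * P).map (Int.castRingHom ℂ)) = 0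
    · exact Or.inr (h t h1)
    · exact Or.inl h1
  choose! t ht using hex
  obtain ⟨c, hc, c', hc', hne, heq⟩ := Finset.exists_ne_map_eq_of_card_lt_of_maps_to
    (s := Finset.range (n + 1)) (t := r.roots.toFinset) (f := t) (by
      rw [Finset.card_range]
      omega) (by
      intro c hc
      have hc1 : c ≤ n + 1 := by
        have := Finset.mem_range.1 (Finset.mem_coe.1 hc)
        omega
      rw [Finset.mem_coe, Multiset.mem_toFinset, mem_roots hr0, IsRoot.def, ← coe_aeval_eq_eval]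
      exact (ht c hc1).2)
  have hc1 : c ≤ n + 1 := by
    have := Finset.mem_range.1 hc
    omega
  have hc1' : c' ≤ n + 1 := by
    have := Finset.mem_range.1 hc'
    omega
  have h1 := (ht c hc1).1
  have h2 := (ht c' hc1').1
  rw [← heq] at h2
  have hcast : ∀ k : ℕ, aeval (t c) ((C (k : ℤ)).map (Int.castRingHom ℂ)) = (k : ℂ) := by
    intro k
    rw [Polynomial.map_C, aeval_C]
    simp
  rw [Polynomial.map_add, Polynomial.map_mul, map_add, map_mul, hcast] at h1 h2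
  have h3 : ((c : ℂ) - c') * aeval (t c) (P.map (Int.castRingHom ℂ)) = 0 := by
    linear_combination h1 - h2
  rcases mul_eq_zero.1 h3 with h4 | h4
  · apply hne
    have h5 : (c : ℂ) = c' := sub_eq_zero.1 h4
    exact_mod_cast h5
  · exact hP _ (ht c hc1).2 h4

theorem dv_height (b P : ℤ[X]) (c : ℕ) {H1 H2 : ℝ} (h1 : (H70W.height b : ℝ) ≤ H1)
    (h2 : (H70W.height P : ℝ) ≤ H2) :
    (H70W.height (b + C (c : ℤ) * P) : ℝ) ≤ H1 + c * H2 := by
  have h10 : 0 ≤ H1 := (Nat.cast_nonneg _).trans h1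
  have h20 : 0 ≤ H2 := (Nat.cast_nonneg _).trans h2
  refine H70W.height_le_of (by positivity) fun i => ?_
  rw [coeff_add, coeff_C_mul]
  push_cast
  refine (abs_add_le _ _).trans (add_le_add ((H70W.abs_coeff_le_height b i).trans h1) ?_)
  rw [abs_mul, Nat.abs_cast]
  exact mul_le_mul_of_nonneg_left ((H70W.abs_coeff_le_height P i).trans h2) (Nat.cast_nonneg _)

theorem dv_aeval (b P : ℤ[X]) (c : ℕ) (ζ : ℝ) :
    aeval ζ (b + C (c : ℤ) * P) = aeval ζ b + c * aeval ζ P := by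
  simp

theorem dv_sqrt {m Z x B : ℝ} (hm : 0 < m) (hZ : 0 < Z) :
    √((m * Z ^ x) * (m * Z ^ (x - B))) = m * (Z ^ x * Z ^ (-B / 2)) := by
  have h1 : (m * Z ^ x) * (m * Z ^ (x - B)) = (m * (Z ^ x * Z ^ (-B / 2))) ^ 2 := by
    have h2 : Z ^ (x - B) = Z ^ x * (Z ^ (-B / 2) * Z ^ (-B / 2)) := by
      rw [← Real.rpow_add hZ, ← Real.rpow_add hZ]
      congr 1
      ring
    rw [h2]
    ring
  rw [h1, Real.sqrt_sq (by positivity)]

/-- The case `x = 1`, `m = 1` for the pair `P, R` and the general case. -/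
theorem dv_bound {K m Z x B ω : ℝ} (hK : 1 ≤ K) (hm : 1 ≤ m) (hZ : 1 ≤ Z) (hω : 0 ≤ ω) :
    K * ((m * Z ^ x) ^ (1 + ω) * (m * Z ^ (x - B)) + √((m * Z ^ x) * (m * Z ^ (x - B)))) ≤
      K * m ^ (2 + ω) * (Z ^ x * (Z ^ (x * (1 + ω) - B) + Z ^ (-B / 2))) := by
  have hm0 : 0 < m := by linarith
  have hZ0 : 0 < Z := by linarith
  rw [dv_sqrt hm0 hZ0, mul_assoc K]
  refine mul_le_mul_of_nonneg_left ?_ (by linarith)
  have h1 : (m * Z ^ x) ^ (1 + ω) * (m * Z ^ (x - B)) =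
      m ^ (2 + ω) * (Z ^ x * Z ^ (x * (1 + ω) - B)) := by
    rw [Real.mul_rpow hm0.le (by positivity), ← Real.rpow_mul hZ0.le]
    have h2 : m ^ (2 + ω) = m ^ (1 + ω) * m := by
      have h3 : (2 : ℝ) + ω = (1 + ω) + 1 := by ring
      rw [h3, Real.rpow_add hm0, Real.rpow_one]
    have h4 : Z ^ x * Z ^ (x * (1 + ω) - B) = Z ^ (x * (1 + ω)) * Z ^ (x - B) := by
      rw [← Real.rpow_add hZ0, ← Real.rpow_add hZ0]
      congr 1
      ring
    rw [h2, h4]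
    ring
  have h5 : m ≤ m ^ (2 + ω) := by
    calc m = m ^ (1 : ℝ) := (Real.rpow_one m).symm
      _ ≤ m ^ (2 + ω) := Real.rpow_le_rpow_of_exponent_le hm (by linarith)
  have h6 : m * (Z ^ x * Z ^ (-B / 2)) ≤ m ^ (2 + ω) * (Z ^ x * Z ^ (-B / 2)) :=
    mul_le_mul_of_nonneg_right h5 (by positivity)
  rw [h1]
  calc m ^ (2 + ω) * (Z ^ x * Z ^ (x * (1 + ω) - B)) + m * (Z ^ x * Z ^ (-B / 2))
      ≤ m ^ (2 + ω) * (Z ^ x * Z ^ (x * (1 + ω) - B)) + m ^ (2 + ω) * (Z ^ x * Z ^ (-B / 2)) := by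
        linarith
    _ = m ^ (2 + ω) * (Z ^ x * (Z ^ (x * (1 + ω) - B) + Z ^ (-B / 2))) := by ring

theorem dv_bound_one {K Z B ω : ℝ} (hK : 1 ≤ K) (hZ : 1 ≤ Z) (hω : 0 ≤ ω) :
    K * (Z ^ (1 + ω) * Z ^ (1 - B) + √(Z * Z ^ (1 - B))) ≤
      K * (Z * (Z ^ (1 + ω - B) + Z ^ (-B / 2))) := by
  have h3 := dv_bound (K := K) (m := 1) (Z := Z) (x := 1) (B := B) (ω := ω) hK le_rfl hZ hω
  rw [Real.rpow_one, Real.one_rpow, one_mul, one_mul, one_mul, mul_one] at h3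
  exact h3

/-- The hypothesis on `v`. -/
theorem dv_v {m Z x B A ε : ℝ} (hm : 1 ≤ m) (hZ : 1 ≤ Z) (hbig : m ^ (1 + A) ≤ Z ^ (ε / 2))
    (hexp : x * (1 + A) - B ≤ -(ε / 2)) : m * Z ^ (x - B) ≤ (m * Z ^ x) ^ (-A) := by
  have hm0 : 0 < m := by linarith
  have hZ0 : 0 < Z := by linarith
  have h1 : (m * Z ^ x) ^ (-A) = m ^ (-A) * Z ^ (-(x * A)) := by
    rw [Real.mul_rpow hm0.le (by positivity), ← Real.rpow_mul hZ0.le]
    congr 2
    ring
  have h2 : m * Z ^ (x - B) = m ^ (-A) * (m ^ (1 + A) * Z ^ (x - B)) := by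
    rw [← mul_assoc, ← Real.rpow_add hm0]
    have h3 : -A + (1 + A) = 1 := by ring
    rw [h3, Real.rpow_one]
  rw [h1, h2]
  refine mul_le_mul_of_nonneg_left ?_ (by positivity)
  calc m ^ (1 + A) * Z ^ (x - B) ≤ Z ^ (ε / 2) * Z ^ (x - B) :=
        mul_le_mul_of_nonneg_right hbig (by positivity)
    _ = Z ^ (ε / 2 + (x - B)) := (Real.rpow_add hZ0 _ _).symm
    _ ≤ Z ^ (-(x * A)) := Real.rpow_le_rpow_of_exponent_le hZ (by linarith)

theorem deriv_all (n : ℕ) (hn : 1 ≤ n) (ζ : ℝ) (hζ : Transcendental ℤ ζ) (ω X0 : ℝ)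
    (hω : 0 ≤ ω) (hno : NoStar n ζ ω X0) (ε Bmax : ℝ) (hε : 0 < ε) :
    ∃ Z0 : ℝ, ∀ (Z B x : ℝ) (P R b : ℤ[X]), Z0 ≤ Z → B ≤ Bmax → 1 ≤ x → x * (1 + ω) ≤ B - ε →
      P.natDegree ≤ n → R.natDegree = n → Squarefree (R.map (Int.castRingHom ℂ)) →
      IsCoprime (P.map (Int.castRingHom ℂ)) (R.map (Int.castRingHom ℂ)) →
      (H70W.height P : ℝ) ≤ Z → (H70W.height R : ℝ) ≤ Z →
      |aeval ζ P| ≤ Z ^ (1 - B) → |aeval ζ R| ≤ Z ^ (1 - B) →
      b.natDegree ≤ n → (H70W.height b : ℝ) ≤ Z ^ x → |aeval ζ b| ≤ Z ^ (x - B) →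
      |aeval ζ (derivative b)| ≤ Z ^ (x + ε) * (Z ^ (x * (1 + ω) - B) + Z ^ (-B / 2)) := by
  set Bm : ℝ := max Bmax 1 with hBm
  have hBm1 : 1 ≤ Bm := le_max_right _ _
  set e2 : ℝ := ε / (2 * Bm) with he2
  have he20 : 0 < e2 := by positivity
  have he2m : e2 * Bm = ε / 2 := by
    rw [he2]
    field_simp
  obtain ⟨K, Y0, hK, hY0, hpair⟩ := pair_deriv n hn ζ hζ ω X0 (ω + e2) hω (by linarith) hno
  set m : ℝ := (n : ℝ) + 2 with hm
  have hm1 : 1 ≤ m := by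
    rw [hm]
    have : (0 : ℝ) ≤ n := Nat.cast_nonneg n
    linarith
  obtain ⟨Z1, hZ1⟩ := eventually_atTop.1
    ((tendsto_rpow_atTop (half_pos hε)).eventually_ge_atTop (m ^ (1 + (ω + e2))))
  obtain ⟨Z2, hZ2⟩ := eventually_atTop.1
    ((tendsto_rpow_atTop hε).eventually_ge_atTop (K * m ^ (2 + ω) + (n + 1) * K))
  refine ⟨max (max Z1 Z2) (max Y0 1), ?_⟩
  intro Z B x P R b hZ hB hx hxB hPd hRd hsq hco hPh hRh hPv hRv hbd hbh hbv
  have hZZ1 : Z1 ≤ Z := (le_max_left _ _).trans ((le_max_left _ _).trans hZ)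
  have hZZ2 : Z2 ≤ Z := (le_max_right _ _).trans ((le_max_left _ _).trans hZ)
  have hZY : Y0 ≤ Z := (le_max_left _ _).trans ((le_max_right _ _).trans hZ)
  have hZ1' : 1 ≤ Z := (le_max_right _ _).trans ((le_max_right _ _).trans hZ)
  have hZ0 : 0 < Z := by linarith
  have hbig := hZ1 Z hZZ1
  have hbig2 := hZ2 Z hZZ2
  have hxm : x ≤ Bm := by
    have h1 : x ≤ x * (1 + ω) := le_mul_of_one_le_right (by linarith) (by linarith)
    have h2 : Bmax ≤ Bm := le_max_left _ _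
    linarith
  have he2x : e2 * x ≤ ε / 2 := by
    rw [← he2m]
    exact mul_le_mul_of_nonneg_left hxm he20.le
  have hexp : x * (1 + (ω + e2)) - B ≤ -(ε / 2) := by
    have : x * (1 + (ω + e2)) = x * (1 + ω) + e2 * x := by ring
    linarith
  have hZx : Z ≤ Z ^ x := by
    calc Z = Z ^ (1 : ℝ) := (Real.rpow_one Z).symm
      _ ≤ Z ^ x := Real.rpow_le_rpow_of_exponent_le hZ1' hx
  have hZxB : Z ^ (1 - B) ≤ Z ^ (x - B) :=
    Real.rpow_le_rpow_of_exponent_le hZ1' (by linarith)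
  have hZx0 : 0 < Z ^ x := by positivity
  have hZxB0 : 0 < Z ^ (x - B) := by positivity
  have hmZ : ∀ {u : ℝ}, 0 ≤ u → u ≤ m * u := fun hu => le_mul_of_one_le_left hu hm1
  have hY0' : Y0 ≤ m * Z ^ x := (hZY.trans hZx).trans (hmZ hZx0.le)
  have hv := dv_v (x := x) (B := B) hm1 hZ1' hbig hexp
  obtain ⟨c, hc, hcop⟩ := dv_good n P R b hn hRd hco
  have hcR : (c : ℝ) ≤ n + 1 := by exact_mod_cast hc
  have hc0 : (0 : ℝ) ≤ c := Nat.cast_nonneg c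
  have hPcd : (b + C (c : ℤ) * P).natDegree ≤ n := by
    refine (natDegree_add_le _ _).trans (max_le hbd ?_)
    exact (natDegree_C_mul_le _ _).trans hPd
  have hPch : (H70W.height (b + C (c : ℤ) * P) : ℝ) ≤ m * Z ^ x := by
    refine (dv_height b P c hbh hPh).trans ?_
    have h1 : (c : ℝ) * Z ≤ (n + 1) * Z ^ x := mul_le_mul hcR hZx hZ0.le (by linarith)
    rw [hm]
    linarith
  have hPcv : |aeval ζ (b + C (c : ℤ) * P)| ≤ m * Z ^ (x - B) := by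
    rw [dv_aeval]
    refine (abs_add_le _ _).trans ?_
    rw [abs_mul, Nat.abs_cast]
    have h1 : (c : ℝ) * |aeval ζ P| ≤ (n + 1) * Z ^ (x - B) :=
      mul_le_mul hcR (hPv.trans hZxB) (abs_nonneg _) (by linarith)
    rw [hm]
    linarith
  have hRh' : (H70W.height R : ℝ) ≤ m * Z ^ x := (hRh.trans hZx).trans (hmZ hZx0.le)
  have hRv' : |aeval ζ R| ≤ m * Z ^ (x - B) := (hRv.trans hZxB).trans (hmZ hZxB0.le)
  have h1 := (hpair (m * Z ^ x) (m * Z ^ (x - B)) _ R hY0' hv hPcd hRd hsq hcop hPch hRh' hPcv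
    hRv').1
  have hPh' : (H70W.height P : ℝ) ≤ m * Z ^ x := (hPh.trans hZx).trans (hmZ hZx0.le)
  have hexp1 : 1 * (1 + (ω + e2)) - B ≤ -(ε / 2) := by
    have h3 : 1 * (1 + (ω + e2)) ≤ x * (1 + (ω + e2)) :=
      mul_le_mul_of_nonneg_right hx (by linarith)
    linarith
  have hone : (1 : ℝ) ^ (1 + (ω + e2)) ≤ Z ^ (ε / 2) := by
    rw [Real.one_rpow]
    exact Real.one_le_rpow hZ1' (by linarith)
  have hv1 := dv_v (x := 1) (B := B) le_rfl hZ1' hone hexp1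
  rw [one_mul, one_mul, Real.rpow_one] at hv1
  have h2 := (hpair Z (Z ^ (1 - B)) P R hZY hv1 hPd hRd hsq hco hPh hRh hPv hRv).1
  have h1' := h1.trans (dv_bound hK hm1 hZ1' hω)
  have h2' : |aeval ζ (derivative P)| ≤
      K * (Z ^ x * (Z ^ (x * (1 + ω) - B) + Z ^ (-B / 2))) := by
    have h3 := dv_bound_one (B := B) hK hZ1' hω
    refine (h2.trans h3).trans (mul_le_mul_of_nonneg_left ?_ (by linarith))
    refine mul_le_mul hZx ?_ (by positivity) hZx0.le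
    have hx1 : 1 + ω ≤ x * (1 + ω) := le_mul_of_one_le_left (by linarith) hx
    have h4 : Z ^ (1 + ω - B) ≤ Z ^ (x * (1 + ω) - B) :=
      Real.rpow_le_rpow_of_exponent_le hZ1' (by linarith)
    linarith
  have hb' : aeval ζ (derivative b) = aeval ζ (derivative (b + C (c : ℤ) * P)) -
      c * aeval ζ (derivative P) := by
    simp
  rw [hb']
  refine (abs_sub _ _).trans ?_
  rw [abs_mul, Nat.abs_cast]
  set T : ℝ := Z ^ x * (Z ^ (x * (1 + ω) - B) + Z ^ (-B / 2)) with hT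
  have hT0 : 0 ≤ T := by positivity
  have h5 : (c : ℝ) * |aeval ζ (derivative P)| ≤ (n + 1) * (K * T) :=
    mul_le_mul hcR h2' (abs_nonneg _) (by linarith)
  have h6 : Z ^ (x + ε) * (Z ^ (x * (1 + ω) - B) + Z ^ (-B / 2)) = Z ^ ε * T := by
    rw [hT, Real.rpow_add hZ0]
    ring
  rw [h6]
  have h7 : (K * m ^ (2 + ω) + (n + 1) * K) * T ≤ Z ^ ε * T :=
    mul_le_mul_of_nonneg_right hbig2 hT0
  calc |aeval ζ (derivative (b + C (c : ℤ) * P))| + (c : ℝ) * |aeval ζ (derivative P)|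
      ≤ K * m ^ (2 + ω) * T + (n + 1) * (K * T) := add_le_add h1' h5
    _ = (K * m ^ (2 + ω) + (n + 1) * K) * T := by ring
    _ ≤ Z ^ ε * T := h7

theorem deriv_pair (n : ℕ) (hn : 1 ≤ n) (ζ : ℝ) (hζ : Transcendental ℤ ζ) (ω X0 : ℝ)
    (hω : 0 ≤ ω) (hno : NoStar n ζ ω X0) (ε Bmax : ℝ) (hε : 0 < ε) :
    ∃ Z0 : ℝ, ∀ (Z B : ℝ) (P R : ℤ[X]), Z0 ≤ Z → B ≤ Bmax → 1 + ω ≤ B - ε →
      P.natDegree ≤ n → R.natDegree = n → Squarefree (R.map (Int.castRingHom ℂ)) →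
      IsCoprime (P.map (Int.castRingHom ℂ)) (R.map (Int.castRingHom ℂ)) →
      (H70W.height P : ℝ) ≤ Z → (H70W.height R : ℝ) ≤ Z →
      |aeval ζ P| ≤ Z ^ (1 - B) → |aeval ζ R| ≤ Z ^ (1 - B) →
      |aeval ζ (derivative P)| ≤ Z ^ (1 + ε) * (Z ^ (1 + ω - B) + Z ^ (-B / 2)) ∧
      |aeval ζ (derivative R)| ≤ Z ^ (1 + ε) * (Z ^ (1 + ω - B) + Z ^ (-B / 2)) := by
  obtain ⟨K, Y0, hK, hY0, hpair⟩ :=
    pair_deriv n hn ζ hζ ω X0 (ω + ε / 2) hω (by linarith) hno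
  obtain ⟨Z2, hZ2⟩ := eventually_atTop.1 ((tendsto_rpow_atTop hε).eventually_ge_atTop K)
  refine ⟨max Z2 (max Y0 1), ?_⟩
  intro Z B P R hZ hB hωB hPd hRd hsq hco hPh hRh hPv hRv
  have hZZ2 : Z2 ≤ Z := (le_max_left _ _).trans hZ
  have hZY : Y0 ≤ Z := (le_max_left _ _).trans ((le_max_right _ _).trans hZ)
  have hZ1' : 1 ≤ Z := (le_max_right _ _).trans ((le_max_right _ _).trans hZ)
  have hZ0 : 0 < Z := by linarith
  have hone : (1 : ℝ) ^ (1 + (ω + ε / 2)) ≤ Z ^ (ε / 2) := by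
    rw [Real.one_rpow]
    exact Real.one_le_rpow hZ1' (by linarith)
  have hv1 := dv_v (x := 1) (B := B) le_rfl hZ1' hone (by linarith)
  rw [one_mul, one_mul, Real.rpow_one] at hv1
  have h2 := hpair Z (Z ^ (1 - B)) P R hZY hv1 hPd hRd hsq hco hPh hRh hPv hRv
  have h3 := dv_bound_one (B := B) hK hZ1' hω
  have h4 : K * (Z * (Z ^ (1 + ω - B) + Z ^ (-B / 2))) ≤
      Z ^ (1 + ε) * (Z ^ (1 + ω - B) + Z ^ (-B / 2)) := by
    have h5 : Z ^ (1 + ε) = Z ^ ε * Z := by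
      rw [Real.rpow_add hZ0, Real.rpow_one, mul_comm]
    rw [h5, mul_assoc]
    exact mul_le_mul_of_nonneg_right (hZ2 Z hZZ2) (by positivity)
  exact ⟨h2.1.trans (h3.trans h4), h2.2.trans (h3.trans h4)⟩

end Pool.Agent.Lib.H42W
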