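import Pool.Agent.Lib.H42W.Defs

/-!
# Chunk MB (M)
Minkowski's second theorem at the corner.

Proof. `C` from `H70X.mk (n+1)` (`Lib/H70X/MK2.lean`). For `Z ≥ 1` let `M` be the real
`(n+1) x (n+1)` matrix with `M 0 l = Z^A ζ^l` and `M i l = Z^(-1)` if `l = i ≥ 1`, `0` otherwise. It is
upper triangular with determinant `Z^A Z^(-n)`. For an integer vector `g` with polynomial
`b = Σ g_l T^l`: `‖M g‖ = max(Z^A |b(ζ)|, |g_l| / Z (l ≥ 1))` (sup norm). `mk` gives an integer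
matrix `G`, `det G = ±1`, whose columns `g_j` (polynomials `b_j = Σ_l G l j T^l`) satisfy
`∏ N_j ≤ C Z^(A-n)`, `N_j = ‖M g_j‖ > 0`.
`|b_j(ζ)| ≤ N_j Z^(-A)`, `|g_l| ≤ N_j Z` for `l ≥ 1`, and
`|g_0| ≤ |b_j(ζ)| + Σ_{l ≥ 1} |g_l| |ζ|^l`. (i) `N_j ≥ Z^(-2ε)`: otherwise `|b_j(ζ)| < Z^(-A-2ε)`, so
(with `A ≥ -1`) `height b_j ≤ C' Z^(1-2ε) ≤ Z^(1-ε)` for large `Z`, `b_j ≠ 0` (a column of an invertible
matrix), and the hypothesis gives `Z^(-A-ε) ≤ |b_j(ζ)| < Z^(-A-2ε)`: contradiction.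
(ii) `ν_j = 1 + log N_j / log Z + 2 ε ≥ 1`, i.e. `Z^(ν_j) = N_j Z^(1+2ε)`; so
`height b_j ≤ C' N_j Z ≤ Z^(ν_j)` (`A ≥ -1` is used for `|g_0|`) and `|b_j(ζ)| ≤ N_j Z^(-A) ≤ Z^(ν_j - 1 - A)`.
(iii) `Σ ν_j = (n+1)(1 + 2ε) + log (∏ N_j) / log Z ≤ (n+1)(1+2ε) + A - n + log C / log Z
≤ A + 1 + (2n+3) ε`. Finally sort: a permutation `σ` with `ν ∘ σ` monotone (`Tuple.sort`,
`Tuple.monotone_sort`); the determinant of the permuted transposed matrix is still not 0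
(`Matrix.det_permute`, `Matrix.det_transpose`).
-/

open Polynomial Filter

namespace Pool.Agent.Lib.H42W

private noncomputable def MB_mat (n : ℕ) (ζ Z A : ℝ) : Matrix (Fin (n + 1)) (Fin (n + 1)) ℝ :=
  Matrix.of fun i l => if i = 0 then Z ^ A * ζ ^ (l : ℕ) else if l = i then Z⁻¹ else 0

private theorem MB_mat_det (n : ℕ) (ζ Z A : ℝ) : (MB_mat n ζ Z A).det = Z ^ A * (Z⁻¹) ^ n := by
  have hT : (MB_mat n ζ Z A).BlockTriangular id := by
    intro i j hij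
    have hij' : j < i := hij
    have h0 : i ≠ 0 := by
      rintro rfl
      exact absurd hij' (Fin.not_lt_zero j)
    have h1 : j ≠ i := ne_of_lt hij'
    simp [MB_mat, h0, h1]
  rw [Matrix.det_of_isUpperTriangular hT, Fin.prod_univ_succ]
  have h0 : MB_mat n ζ Z A 0 0 = Z ^ A := by simp [MB_mat]
  have h1 : ∀ i : Fin n, MB_mat n ζ Z A i.succ i.succ = Z⁻¹ := by
    intro i
    simp [MB_mat, Fin.succ_ne_zero]
  rw [h0, Finset.prod_congr rfl (fun i _ => h1 i), Finset.prod_const, Finset.card_univ, Fintype.card_fin]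

/-- the polynomial of an integer vector -/
private noncomputable def MB_pol {n : ℕ} (g : Fin (n + 1) → ℤ) : ℤ[X] := ∑ l : Fin (n + 1), C (g l) * X ^ (l : ℕ)

private theorem MB_pol_coeff {n : ℕ} (g : Fin (n + 1) → ℤ) (l : Fin (n + 1)) : (MB_pol g).coeff (l : ℕ) = g l := by
  unfold MB_pol
  rw [Polynomial.finsetSum_coeff, Finset.sum_eq_single l]
  · simp
  · intro b _ hb
    have : (l : ℕ) ≠ (b : ℕ) := fun h => hb (Fin.ext h.symm)
    rw [coeff_C_mul, coeff_X_pow, if_neg this, mul_zero]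
  · intro h
    exact absurd (Finset.mem_univ l) h

private theorem MB_pol_deg {n : ℕ} (g : Fin (n + 1) → ℤ) : (MB_pol g).natDegree ≤ n := by
  unfold MB_pol
  refine Polynomial.natDegree_sum_le_of_forall_le _ _ ?_
  intro l _
  refine (Polynomial.natDegree_C_mul_X_pow_le _ _).trans ?_
  have := l.2
  omega

private theorem MB_pol_coeff_big {n : ℕ} (g : Fin (n + 1) → ℤ) (i : ℕ) (hi : n < i) : (MB_pol g).coeff i = 0 :=
  Polynomial.coeff_eq_zero_of_natDegree_lt (lt_of_le_of_lt (MB_pol_deg g) hi)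

private theorem MB_pol_ev {n : ℕ} (g : Fin (n + 1) → ℤ) (ζ : ℝ) :
    aeval ζ (MB_pol g) = ∑ l : Fin (n + 1), (g l : ℝ) * ζ ^ (l : ℕ) := by
  unfold MB_pol
  rw [map_sum]
  refine Finset.sum_congr rfl fun l _ => ?_
  simp

private theorem MB_pol_ne {n : ℕ} (g : Fin (n + 1) → ℤ) (h : g ≠ 0) : MB_pol g ≠ 0 := by
  intro h0
  apply h
  ext l
  rw [← MB_pol_coeff g l, h0]
  simp

private theorem MB_mul_zero {n : ℕ} (ζ Z A : ℝ) (g : Fin (n + 1) → ℤ) :
    (MB_mat n ζ Z A).mulVec (fun i => (g i : ℝ)) 0 = Z ^ A * aeval ζ (MB_pol g) := by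
  rw [MB_pol_ev, Matrix.mulVec, dotProduct, Finset.mul_sum]
  refine Finset.sum_congr rfl fun l _ => ?_
  simp only [MB_mat, Matrix.of_apply, if_true]
  ring

private theorem MB_mul_ne {n : ℕ} (ζ Z A : ℝ) (g : Fin (n + 1) → ℤ) (i : Fin (n + 1)) (hi : i ≠ 0) :
    (MB_mat n ζ Z A).mulVec (fun i => (g i : ℝ)) i = Z⁻¹ * g i := by
  rw [Matrix.mulVec, dotProduct, Finset.sum_eq_single i]
  · simp [MB_mat, hi]
  · intro b _ hb
    simp [MB_mat, hi, hb]
  · intro h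
    exact absurd (Finset.mem_univ i) h

/-- the constant in the bound for the heights -/
private noncomputable def MB_D (n : ℕ) (ζ : ℝ) : ℝ := 1 + ∑ l : Fin n, |ζ| ^ ((l : ℕ) + 1)

private theorem MB_D_one (n : ℕ) (ζ : ℝ) : 1 ≤ MB_D n ζ := by
  unfold MB_D
  have : 0 ≤ ∑ l : Fin n, |ζ| ^ ((l : ℕ) + 1) := Finset.sum_nonneg fun l _ => by positivity
  linarith

private theorem MB_bounds {n : ℕ} {ζ Z A : ℝ} (hZ : 1 ≤ Z) (hA : 0 ≤ A) (g : Fin (n + 1) → ℤ) {N : ℝ}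
    (hN : N = ‖(MB_mat n ζ Z A).mulVec (fun i => (g i : ℝ))‖) :
    |aeval ζ (MB_pol g)| ≤ N * Z ^ (-A) ∧ (H70W.height (MB_pol g) : ℝ) ≤ MB_D n ζ * N * Z := by
  have hZ0 : 0 < Z := by linarith
  have hN0 : 0 ≤ N := by rw [hN]; exact norm_nonneg _
  have hcomp : ∀ i, |(MB_mat n ζ Z A).mulVec (fun i => (g i : ℝ)) i| ≤ N := by
    intro i
    rw [hN, ← Real.norm_eq_abs]
    exact norm_le_pi_norm ((MB_mat n ζ Z A).mulVec (fun i => (g i : ℝ))) i
  have hev : |aeval ζ (MB_pol g)| ≤ N * Z ^ (-A) := by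
    have h := hcomp 0
    rw [MB_mul_zero, abs_mul, abs_of_pos (Real.rpow_pos_of_pos hZ0 A)] at h
    rw [Real.rpow_neg hZ0.le]
    rw [← div_eq_mul_inv, le_div_iff₀ (Real.rpow_pos_of_pos hZ0 A)]
    linarith
  refine ⟨hev, ?_⟩
  have hD := MB_D_one n ζ
  have hNZ : 0 ≤ N * Z := by positivity
  have hi : ∀ i : Fin (n + 1), i ≠ 0 → |(g i : ℝ)| ≤ N * Z := by
    intro i hi
    have h := hcomp i
    rw [MB_mul_ne ζ Z A g i hi, abs_mul, abs_of_pos (inv_pos.2 hZ0)] at h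
    rw [inv_mul_le_iff₀ hZ0] at h
    linarith
  have hev' : |aeval ζ (MB_pol g)| ≤ N * Z := by
    refine hev.trans ?_
    refine mul_le_mul_of_nonneg_left ?_ hN0
    calc Z ^ (-A) ≤ Z ^ (0 : ℝ) := Real.rpow_le_rpow_of_exponent_le hZ (by linarith)
      _ = 1 := Real.rpow_zero _
      _ ≤ Z := hZ
  have h0 : |(g 0 : ℝ)| ≤ MB_D n ζ * N * Z := by
    have e : (g 0 : ℝ) = aeval ζ (MB_pol g) - ∑ l : Fin n, (g l.succ : ℝ) * ζ ^ ((l : ℕ) + 1) := by
      rw [MB_pol_ev, Fin.sum_univ_succ]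
      simp
    have hs : |∑ l : Fin n, (g l.succ : ℝ) * ζ ^ ((l : ℕ) + 1)| ≤ ∑ l : Fin n, N * Z * |ζ| ^ ((l : ℕ) + 1) := by
      refine (Finset.abs_sum_le_sum_abs _ _).trans (Finset.sum_le_sum fun l _ => ?_)
      rw [abs_mul, abs_pow]
      exact mul_le_mul_of_nonneg_right (hi l.succ (Fin.succ_ne_zero l)) (by positivity)
    rw [e]
    refine (abs_sub _ _).trans ?_
    refine (add_le_add hev' hs).trans (le_of_eq ?_)
    rw [← Finset.mul_sum]
    unfold MB_D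
    ring
  refine H70W.height_le_of (by positivity) ?_
  intro i
  by_cases hin : n < i
  · rw [MB_pol_coeff_big g i hin]
    simp only [Int.cast_zero, abs_zero]
    positivity
  · have hlt : i < n + 1 := by omega
    have hc := MB_pol_coeff g ⟨i, hlt⟩
    simp only at hc
    rw [hc]
    by_cases h00 : (⟨i, hlt⟩ : Fin (n + 1)) = 0
    · rw [h00]
      exact h0
    · refine (hi _ h00).trans ?_
      calc N * Z = 1 * (N * Z) := by ring
        _ ≤ MB_D n ζ * (N * Z) := mul_le_mul_of_nonneg_right hD hNZ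
        _ = MB_D n ζ * N * Z := by ring

theorem mink_basis (n : ℕ) (hn : 1 ≤ n) (ζ ε : ℝ) (hε : 0 < ε) :
    ∀ᶠ Z : ℝ in atTop, ∀ A : ℝ, 0 ≤ A →
      (∀ P' : ℤ[X], P' ≠ 0 → P'.natDegree ≤ n → (H70W.height P' : ℝ) ≤ Z ^ (1 - ε) →
        Z ^ (-A - ε) ≤ |aeval ζ P'|) →
      ∃ (b : Fin (n + 1) → ℤ[X]) (ν : Fin (n + 1) → ℝ), Monotone ν ∧ (∀ i, 1 ≤ ν i) ∧
        ∑ i, ν i ≤ A + 1 + (2 * n + 3) * ε ∧ (∀ i, (b i).natDegree ≤ n) ∧
        (∀ i, (H70W.height (b i) : ℝ) ≤ Z ^ (ν i)) ∧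
        (∀ i, |aeval ζ (b i)| ≤ Z ^ (ν i - 1 - A)) ∧
        (Matrix.of fun k l : Fin (n + 1) => (b k).coeff (l : ℕ)).det ≠ 0 := by
  obtain ⟨C, hC, hmk⟩ := H70X.mk (n + 1)
  have hlim := tendsto_rpow_atTop hε
  filter_upwards [eventually_gt_atTop (1 : ℝ), hlim.eventually_ge_atTop C, hlim.eventually_ge_atTop (MB_D n ζ)]
    with Z hZ hCZ hDZ A hA hyp
  have hZ0 : 0 < Z := by linarith
  have hlog : 0 < Real.log Z := Real.log_pos hZ
  have hD := MB_D_one n ζ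
  obtain ⟨G, hG, hprod⟩ := hmk (MB_mat n ζ Z A) (by
    rw [MB_mat_det]
    positivity)
  have hGdet : G.det ≠ 0 := hG.ne_zero
  -- the columns
  let g : Fin (n + 1) → Fin (n + 1) → ℤ := fun j l => G l j
  let Nn : Fin (n + 1) → ℝ := fun j => ‖(MB_mat n ζ Z A).mulVec (fun i => (g j i : ℝ))‖
  have hgne : ∀ j, g j ≠ 0 := by
    intro j h0
    apply hGdet
    exact Matrix.det_eq_zero_of_column_eq_zero j (fun i => congrFun h0 i)
  have hb : ∀ j, |aeval ζ (MB_pol (g j))| ≤ Nn j * Z ^ (-A) ∧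
      (H70W.height (MB_pol (g j)) : ℝ) ≤ MB_D n ζ * Nn j * Z := fun j => MB_bounds hZ.le hA (g j) rfl
  have hprod' : ∏ j, Nn j ≤ C * (Z ^ A * (Z⁻¹) ^ n) := by
    have h := hprod
    rw [MB_mat_det, abs_of_pos (by positivity)] at h
    exact h
  -- lower bound for the norms
  have hlow : ∀ j, Z ^ (-(2 * ε)) ≤ Nn j := by
    intro j
    by_contra hlt
    push Not at hlt
    have h1 : (H70W.height (MB_pol (g j)) : ℝ) ≤ Z ^ (1 - ε) := by
      refine (hb j).2.trans ?_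
      calc MB_D n ζ * Nn j * Z ≤ Z ^ ε * Z ^ (-(2 * ε)) * Z := by
            have h3 : MB_D n ζ * Nn j ≤ Z ^ ε * Z ^ (-(2 * ε)) :=
              mul_le_mul hDZ hlt.le (norm_nonneg _) (by positivity)
            exact mul_le_mul_of_nonneg_right h3 hZ0.le
        _ = Z ^ (1 - ε) := by
            rw [← Real.rpow_add hZ0, ← Real.rpow_add_one hZ0.ne']
            congr 1
            ring
    have h2 := hyp (MB_pol (g j)) (MB_pol_ne _ (hgne j)) (MB_pol_deg _) h1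
    have h3 : |aeval ζ (MB_pol (g j))| < Z ^ (-A - ε) := by
      calc |aeval ζ (MB_pol (g j))| ≤ Nn j * Z ^ (-A) := (hb j).1
        _ < Z ^ (-(2 * ε)) * Z ^ (-A) := mul_lt_mul_of_pos_right hlt (Real.rpow_pos_of_pos hZ0 _)
        _ = Z ^ (-A - 2 * ε) := by
            rw [← Real.rpow_add hZ0]
            congr 1
            ring
        _ ≤ Z ^ (-A - ε) := Real.rpow_le_rpow_of_exponent_le hZ.le (by linarith)
    linarith
  have hNpos : ∀ j, 0 < Nn j := fun j => lt_of_lt_of_le (Real.rpow_pos_of_pos hZ0 _) (hlow j)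
  let ν0 : Fin (n + 1) → ℝ := fun j => 1 + Real.log (Nn j) / Real.log Z + 2 * ε
  have hpow : ∀ j, Z ^ (ν0 j) = Z * Nn j * Z ^ (2 * ε) := by
    intro j
    have h1 : Z ^ (Real.log (Nn j) / Real.log Z) = Nn j := by
      rw [Real.rpow_def_of_pos hZ0, mul_div_cancel₀ _ hlog.ne', Real.exp_log (hNpos j)]
    show Z ^ (1 + Real.log (Nn j) / Real.log Z + 2 * ε) = _
    rw [Real.rpow_add hZ0, Real.rpow_add hZ0, Real.rpow_one, h1]
  have hZ2 : 1 ≤ Z ^ (2 * ε) := Real.one_le_rpow hZ.le (by positivity)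
  have hν1 : ∀ j, 1 ≤ ν0 j := by
    intro j
    have h1 : -(2 * ε) * Real.log Z ≤ Real.log (Nn j) := by
      rw [← Real.log_rpow hZ0]
      exact Real.log_le_log (Real.rpow_pos_of_pos hZ0 _) (hlow j)
    have h2 : -(2 * ε) ≤ Real.log (Nn j) / Real.log Z := by
      rw [le_div_iff₀ hlog]
      exact h1
    show 1 ≤ 1 + Real.log (Nn j) / Real.log Z + 2 * ε
    linarith
  have hνsum : ∑ j, ν0 j ≤ A + 1 + (2 * n + 3) * ε := by
    have h1 : ∑ j, Real.log (Nn j) ≤ (A - n + ε) * Real.log Z := by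
      rw [← Real.log_prod (fun j _ => (hNpos j).ne')]
      have h2 : C * (Z ^ A * (Z⁻¹) ^ n) ≤ Z ^ (A - n + ε) := by
        have h3 : Z ^ A * (Z⁻¹) ^ n = Z ^ (A - n) := by
          rw [Real.rpow_sub hZ0, Real.rpow_natCast, inv_pow, div_eq_mul_inv]
        rw [h3, Real.rpow_add hZ0, mul_comm (Z ^ (A - n))]
        exact mul_le_mul_of_nonneg_right hCZ (Real.rpow_pos_of_pos hZ0 _).le
      calc Real.log (∏ j, Nn j) ≤ Real.log (Z ^ (A - n + ε)) :=
            Real.log_le_log (Finset.prod_pos fun j _ => hNpos j) (hprod'.trans h2)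
        _ = (A - n + ε) * Real.log Z := Real.log_rpow hZ0 _
    have h2 : ∑ j, ν0 j = (n + 1) * (1 + 2 * ε) + (∑ j, Real.log (Nn j)) / Real.log Z := by
      show ∑ j, (1 + Real.log (Nn j) / Real.log Z + 2 * ε) = _
      rw [Finset.sum_add_distrib, Finset.sum_add_distrib, Finset.sum_const, Finset.sum_const, Finset.card_univ,
        Fintype.card_fin, ← Finset.sum_div]
      simp only [nsmul_eq_mul]
      push_cast
      ring
    have h3 : (∑ j, Real.log (Nn j)) / Real.log Z ≤ A - n + ε := by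
      rw [div_le_iff₀ hlog]
      exact h1
    rw [h2]
    nlinarith
  -- sort
  let σ := Tuple.sort ν0
  refine ⟨fun k => MB_pol (g (σ k)), fun k => ν0 (σ k), ?_, fun k => hν1 _, ?_, fun k => MB_pol_deg _, ?_, ?_, ?_⟩
  · exact Tuple.monotone_sort ν0
  · rw [Equiv.sum_comp σ ν0]
    exact hνsum
  · intro k
    rw [hpow]
    refine (hb _).2.trans ?_
    have h1 : MB_D n ζ ≤ Z ^ (2 * ε) :=
      hDZ.trans (Real.rpow_le_rpow_of_exponent_le hZ.le (by linarith))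
    calc MB_D n ζ * Nn (σ k) * Z ≤ Z ^ (2 * ε) * Nn (σ k) * Z := by
          have := (hNpos (σ k)).le
          gcongr
      _ = Z * Nn (σ k) * Z ^ (2 * ε) := by ring
  · intro k
    have h1 : Z ^ (ν0 (σ k) - 1 - A) = Nn (σ k) * Z ^ (2 * ε) * Z ^ (-A) := by
      have h2 : ν0 (σ k) - 1 - A = ν0 (σ k) + (-1 + -A) := by ring
      rw [h2, Real.rpow_add hZ0, hpow, Real.rpow_add hZ0, Real.rpow_neg_one]
      field_simp
    rw [h1]
    refine (hb _).1.trans ?_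
    have h3 : 0 ≤ Z ^ (-A) := (Real.rpow_pos_of_pos hZ0 _).le
    have h4 := (hNpos (σ k)).le
    calc Nn (σ k) * Z ^ (-A) = Nn (σ k) * 1 * Z ^ (-A) := by ring
      _ ≤ Nn (σ k) * Z ^ (2 * ε) * Z ^ (-A) := by gcongr
  · have h1 : (Matrix.of fun k l : Fin (n + 1) => (MB_pol (g (σ k))).coeff (l : ℕ)) =
        (G.transpose).submatrix σ id := by
      ext k l
      simp only [Matrix.of_apply, Matrix.submatrix_apply, Matrix.transpose_apply, id]
      exact MB_pol_coeff _ l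
    rw [h1, Matrix.det_permute, Matrix.det_transpose]
    exact mul_ne_zero (by exact_mod_cast (Int.cast_ne_zero.2 (Units.ne_zero (Equiv.Perm.sign σ)))) hGdet

end Pool.Agent.Lib.H42W
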