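import Pool.Agent.Lib.H42W.CP2
import Pool.Agent.Lib.H42W.MB

/-!
# Chunk ES (S)
The data exist.

Proof. `ε' = min (1/2) (ε / (2 n + 4))`. `mink_basis` for `ε'` gives `Z1`; `corner` for `ε'` and
`max Z0 (max Z1 1)` gives `Z, A, P, R` (`A ≥ n - ε' ≥ 0`); `B = A + 1`. Extend `b, ν` from
`Fin (n+1)` to `ℕ` by `b k = b (min k n)`, `ν k = ν (min k n)` (`⟨min k n, _⟩ : Fin (n+1)`); the sum over
`Finset.range (n+1)` is the sum over `Fin (n+1)` (`Finset.sum_range`).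
-/

open Polynomial Filter

namespace Pool.Agent.Lib.H42W

theorem exists_sys (n : ℕ) (hn : 1 ≤ n) (ζ : ℝ) (hζ : Transcendental ℤ ζ) (ε : ℝ) (hε : 0 < ε)
    (Z0 : ℝ) :
    ∃ (Z B : ℝ) (P R : ℤ[X]) (b : ℕ → ℤ[X]) (ν : ℕ → ℝ), Z0 ≤ Z ∧ (n : ℝ) + 1 - ε ≤ B ∧
      Sys n ζ Z B P R b ν ∧ ∑ k ∈ Finset.range (n + 1), ν k ≤ B + ε := by
  have hn' : (1 : ℝ) ≤ n := by exact_mod_cast hn
  set ε' : ℝ := min (1 / 2) (ε / (2 * n + 4)) with hε'def
  have hε' : 0 < ε' := lt_min (by norm_num) (by positivity)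
  have hε'1 : ε' ≤ 1 / 2 := min_le_left _ _
  have hε'2 : (2 * n + 4) * ε' ≤ ε := by
    have h1 : ε' ≤ ε / (2 * n + 4) := min_le_right _ _
    rw [le_div_iff₀ (by positivity)] at h1
    linarith
  obtain ⟨Z1, hZ1⟩ := Filter.eventually_atTop.1 (mink_basis n hn ζ ε' hε')
  obtain ⟨Z, A, P, R, hZ, hA, hPd, hRd, hsq, hco, hPh, hRh, hPv, hRv, hlow⟩ :=
    corner n hn ζ hζ ε' hε' hε'1 (max Z0 Z1)
  have hA0 : 0 ≤ A := by linarith
  obtain ⟨b, ν, hmono, hone, hsum, hbd, hbh, hbv, hdet⟩ :=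
    hZ1 Z ((le_max_right _ _).trans hZ) A hA0 hlow
  have hidx : ∀ k : ℕ, min k n < n + 1 := fun k => Nat.lt_succ_of_le (min_le_right _ _)
  have hfin : ∀ k : Fin (n + 1), (⟨min (k : ℕ) n, hidx k⟩ : Fin (n + 1)) = k := by
    intro k
    apply Fin.ext
    exact min_eq_left (Nat.lt_succ_iff.1 k.2)
  refine ⟨Z, A + 1, P, R, fun k => b ⟨min k n, hidx k⟩, fun k => ν ⟨min k n, hidx k⟩,
    (le_max_left _ _).trans hZ, ?_, ?_, ?_⟩
  · nlinarith
  · have e1 : (1 : ℝ) - (A + 1) = -A := by ring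
    refine ⟨hPd, hRd, hsq, hco, hPh, hRh, by rw [e1]; exact hPv, by rw [e1]; exact hRv,
      fun k => hbd _, fun k => hbh _, fun k => ?_, ?_, fun k => hone _, ?_⟩
    · have e2 : ν ⟨min k n, hidx k⟩ - (A + 1) = ν ⟨min k n, hidx k⟩ - 1 - A := by ring
      rw [e2]
      exact hbv _
    · simp only [hfin]
      exact hdet
    · intro k l hkl
      apply hmono
      rw [Fin.mk_le_mk]
      exact min_le_min_right _ hkl
  · rw [Finset.sum_range]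
    simp only [hfin]
    nlinarith

end Pool.Agent.Lib.H42W
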