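import Pool.Agent.Lib.H42W.RW
import Pool.Agent.Lib.H42W.DT
import Pool.Agent.Lib.H42W.DV

/-!
# Chunk IQ (M)
The main inequality.

Proof. `ε' = ε / 4`, `Z` large. Write `x = mu ν (i-1) ≥ 1`, `J = n + 1 - i`, `D = n + J + 1`, and let `y`
be the rows (`rows n i J`). For `m < 2J + 2` put `h m = 1`, for `m ≥ 2J + 2` put `h m = ν (m - 2J)`
(`m - 2J ∈ [2, i-1]`). For `y m = X^j g`: `height g ≤ Z^(h m)` (`ν` monotone, `≥ 1`, `Z ≥ 1`),
`|g(ζ)| ≤ Z^(h m - B)`, and by `deriv_all`, `deriv_pair` (with `ε'`, and `B ≤ Bmax`), as `ν k (1+ω) ≤ x (1+ω) ≤ B - ε ≤ B - ε'`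
for the `k ≤ i - 1` used here (for `i = 2` only `P, R` occur; for `i ≥ 3` `x = ν (i-1)`; `k = 0, 1` too: `ν` is monotone),
`|g'(ζ)| ≤ Z^(h m + ε') (Z^(x (1+ω) - B) + Z^(-B/2)) ≤ 2 Z^(h m + ε') Z^(-β)` with
`β = min (B - x (1+ω)) (B/2)`. With a constant `C = C(n, ζ)` (`j ≤ n`, `(X^j g)' = j X^(j-1) g + X^j g'`, and
`|g(ζ)| ≤ Z^(h m - B) ≤ Z^(h m + ε' - β)`, as `β ≤ B/2 ≤ B` for `B ≥ 0`) `det_two` applies with `H m = Z^(h m)`,
`v = C Z^(-B)`, `d = C Z^(ε' - β)`: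
`1 ≤ D! C^2 Z^(Σ h m - B + ε' - β)`, so `B + β ≤ Σ h m + ε' + log (D! C^2) / log Z ≤ Σ h m + ε`. And
`Σ_m h m = 2J + 2 + Σ_{k=2}^{i-1} ν k = 2J + Σ_{k < i} mu ν k` (`mu ν 0 = mu ν 1 = 1`).
(`B ≥ ε + 1 > 0` from `x (1 + ω) ≤ B - ε`.)
-/

open Polynomial Filter

namespace Pool.Agent.Lib.H42W

private theorem iq_sum (ν : ℕ → ℝ) (i J : ℕ) :
    ∑ m : Fin (i + 2 * J), (if (m : ℕ) < 2 * J + 2 then (1 : ℝ) else ν ((m : ℕ) - 2 * J)) =
      2 * (J : ℝ) + ∑ k ∈ Finset.range i, mu ν k := by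
  rw [Fin.sum_univ_eq_sum_range
    (fun m : ℕ => if m < 2 * J + 2 then (1 : ℝ) else ν (m - 2 * J)) (i + 2 * J)]
  rw [add_comm i (2 * J), Finset.sum_range_add]
  congr 1
  · rw [Finset.sum_congr rfl (g := fun _ => (1 : ℝ))]
    · simp
    · intro m hm
      have := Finset.mem_range.mp hm
      rw [if_pos (by omega)]
  · apply Finset.sum_congr rfl
    intro k _
    unfold mu
    by_cases hk : k ≤ 1
    · rw [if_pos (by omega), if_pos hk]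
    · rw [if_neg (by omega), if_neg hk]
      congr 1
      omega

private theorem iq_row (n : ℕ) (ζ : ℝ) (g : ℤ[X]) (j : ℕ) (hj : j ≤ n) (M : ℝ) (hM1 : 1 ≤ M)
    (hM : ∀ k ≤ n, |ζ| ^ k ≤ M) (H v d : ℝ) (hH : 0 ≤ H) (hv0 : 0 ≤ v) (hvd : v ≤ d)
    (hh : (H70W.height g : ℝ) ≤ H) (hv : |aeval ζ g| ≤ H * v)
    (hd : |aeval ζ (derivative g)| ≤ H * (2 * d)) :
    (∀ l, |(((X ^ j * g : ℤ[X]).coeff l : ℤ) : ℝ)| ≤ H) ∧
      |aeval ζ (X ^ j * g : ℤ[X])| ≤ H * (((n : ℝ) + 2) * M * v) ∧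
      |aeval ζ (derivative (X ^ j * g : ℤ[X]))| ≤ H * (((n : ℝ) + 2) * M * d) := by
  have hd0 : 0 ≤ d := le_trans hv0 hvd
  have hn0 : (0 : ℝ) ≤ n := Nat.cast_nonneg n
  refine ⟨?_, ?_, ?_⟩
  · intro l
    rw [Polynomial.coeff_X_pow_mul']
    split_ifs with h
    · exact le_trans (H70W.abs_coeff_le_height g (l - j)) hh
    · simpa using hH
  · have h1 : aeval ζ (X ^ j * g : ℤ[X]) = ζ ^ j * aeval ζ g := by simp
    rw [h1, abs_mul, abs_pow]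
    have h2 : |ζ| ^ j * |aeval ζ g| ≤ M * (H * v) :=
      mul_le_mul (hM j hj) hv (abs_nonneg _) (by linarith)
    have h3 : M * (H * v) ≤ H * (((n : ℝ) + 2) * M * v) := by
      have : 0 ≤ H * v * M := by positivity
      nlinarith
    linarith
  · have h1 : aeval ζ (derivative (X ^ j * g : ℤ[X])) =
        (j : ℝ) * ζ ^ (j - 1) * aeval ζ g + ζ ^ j * aeval ζ (derivative g) := by
      rw [derivative_mul, derivative_X_pow]
      simp
    rw [h1]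
    have hj0 : (0 : ℝ) ≤ j := Nat.cast_nonneg j
    have hjn : (j : ℝ) ≤ n := by exact_mod_cast hj
    have h2 : |(j : ℝ) * ζ ^ (j - 1) * aeval ζ g| ≤ n * M * (H * d) := by
      rw [abs_mul, abs_mul, abs_pow, abs_of_nonneg hj0]
      have h3 : (j : ℝ) * |ζ| ^ (j - 1) ≤ n * M :=
        mul_le_mul hjn (hM (j - 1) (by omega)) (by positivity) hn0
      exact mul_le_mul h3 (le_trans hv (mul_le_mul_of_nonneg_left hvd hH)) (abs_nonneg _)
        (by positivity)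
    have h4 : |ζ ^ j * aeval ζ (derivative g)| ≤ M * (H * (2 * d)) := by
      rw [abs_mul, abs_pow]
      exact mul_le_mul (hM j hj) hd (abs_nonneg _) (by linarith)
    refine le_trans (abs_add_le _ _) ?_
    have h5 : n * M * (H * d) + M * (H * (2 * d)) = H * (((n : ℝ) + 2) * M * d) := by ring
    linarith

theorem ineq (n : ℕ) (hn : 2 ≤ n) (ζ : ℝ) (hζ : Transcendental ℤ ζ) (ω X0 : ℝ) (hω : 0 ≤ ω)
    (hno : NoStar n ζ ω X0) (ε Bmax : ℝ) (hε : 0 < ε) :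
    ∃ Z0 : ℝ, ∀ (Z B : ℝ) (P R : ℤ[X]) (b : ℕ → ℤ[X]) (ν : ℕ → ℝ), Z0 ≤ Z → B ≤ Bmax →
      Sys n ζ Z B P R b ν → ∀ i : ℕ, 2 ≤ i → i ≤ n → mu ν (i - 1) * (1 + ω) ≤ B - ε →
        B + min (B - mu ν (i - 1) * (1 + ω)) (B / 2) ≤
          2 * ((n : ℝ) + 1 - i) + ∑ k ∈ Finset.range i, mu ν k + ε := by
  have hε4 : 0 < ε / 4 := by linarith
  obtain ⟨Z1, hZ1⟩ := deriv_all n (by omega) ζ hζ ω X0 hω hno (ε / 4) Bmax hε4
  obtain ⟨Z2, hZ2⟩ := deriv_pair n (by omega) ζ hζ ω X0 hω hno (ε / 4) Bmax hε4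
  obtain ⟨M, hM⟩ : ∃ M : ℝ, M = (max 1 |ζ|) ^ n := ⟨_, rfl⟩
  have hm1 : 1 ≤ max 1 |ζ| := le_max_left _ _
  have hM1 : 1 ≤ M := by rw [hM]; exact one_le_pow₀ hm1
  have hMk : ∀ k ≤ n, |ζ| ^ k ≤ M := by
    intro k hk
    rw [hM]
    exact le_trans (pow_le_pow_left₀ (abs_nonneg _) (le_max_right _ _) k)
      (pow_le_pow_right₀ hm1 hk)
  obtain ⟨C, hC⟩ : ∃ C : ℝ, C = ((n : ℝ) + 2) * M := ⟨_, rfl⟩
  have hC0 : 0 < C := by rw [hC]; positivity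
  have hlarge := (tendsto_rpow_atTop hε4).eventually_ge_atTop
    (((2 * n + 1).factorial : ℝ) * C ^ 2)
  obtain ⟨Z3, hZ3⟩ := Filter.eventually_atTop.mp hlarge
  refine ⟨max (max Z1 Z2) (max Z3 2), ?_⟩
  intro Z B P R b ν hZ hB S i hi hin hx
  have hZ1' : Z1 ≤ Z := le_trans (le_trans (le_max_left _ _) (le_max_left _ _)) hZ
  have hZ2' : Z2 ≤ Z := le_trans (le_trans (le_max_right _ _) (le_max_left _ _)) hZ
  have hZ3' : Z3 ≤ Z := le_trans (le_trans (le_max_left _ _) (le_max_right _ _)) hZ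
  have hZ22 : 2 ≤ Z := le_trans (le_trans (le_max_right _ _) (le_max_right _ _)) hZ
  have hZge : 1 ≤ Z := by linarith
  have hZpos : 0 < Z := by linarith
  obtain ⟨x, hxdef⟩ : ∃ x : ℝ, x = mu ν (i - 1) := ⟨_, rfl⟩
  have hmu1 : ∀ k, 1 ≤ mu ν k := by
    intro k
    unfold mu
    split_ifs
    · exact le_rfl
    · exact S.one_le k
  have hx1 : 1 ≤ x := by rw [hxdef]; exact hmu1 _
  rw [← hxdef] at hx ⊢
  have hxω : 0 ≤ x * ω := mul_nonneg (by linarith) hω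
  have hBpos : 0 < B := by nlinarith
  obtain ⟨β, hβ⟩ : ∃ β : ℝ, β = min (B - x * (1 + ω)) (B / 2) := ⟨_, rfl⟩
  have hβ1 : β ≤ B - x * (1 + ω) := by rw [hβ]; exact min_le_left _ _
  have hβ2 : β ≤ B / 2 := by rw [hβ]; exact min_le_right _ _
  rw [← hβ]
  obtain ⟨J, hJ⟩ : ∃ J : ℕ, i + J = n + 1 := ⟨n + 1 - i, by omega⟩
  obtain ⟨y, hyli, hy⟩ := rows n i J (by omega) hi hJ P R b S.Pd S.Rd S.co S.bd S.bdet
  obtain ⟨h, hh⟩ : ∃ h : ℕ → ℝ, h = fun m => if m < 2 * J + 2 then (1 : ℝ) else ν (m - 2 * J) :=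
    ⟨_, rfl⟩
  have hmono : ∀ {a c : ℝ}, a ≤ c → Z ^ a ≤ Z ^ c :=
    fun hac => Real.rpow_le_rpow_of_exponent_le hZge hac
  have hh1 : ∀ m, 1 ≤ h m := by
    intro m
    rw [hh]
    dsimp only
    split_ifs
    · exact le_rfl
    · exact S.one_le _
  have hpair := hZ2 Z B P R hZ2' hB (by nlinarith) S.Pd S.Rd S.sq S.co S.Ph S.Rh S.Pv S.Rv
  -- the bounds for the factors
  have hg : ∀ (m : Fin (n + J + 1)) (g : ℤ[X]),
      (g = P ∨ g = R ∨ (2 * J + 2 ≤ (m : ℕ) ∧ ∃ k ≤ (m : ℕ) - 2 * J, g = b k)) →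
      (H70W.height g : ℝ) ≤ Z ^ (h m) ∧ |aeval ζ g| ≤ Z ^ (h m) * Z ^ (-B) ∧
        |aeval ζ (derivative g)| ≤ Z ^ (h m) * (2 * Z ^ (ε / 4 - β)) := by
    intro m g hgm
    have key : ∀ t : ℝ, 1 ≤ t → t ≤ h m → t * (1 + ω) ≤ x * (1 + ω) →
        Z ^ (t + ε / 4) * (Z ^ (t * (1 + ω) - B) + Z ^ (-B / 2)) ≤
          Z ^ (h m) * (2 * Z ^ (ε / 4 - β)) := by
      intro t ht1 hth htx
      have e1 : Z ^ (t * (1 + ω) - B) ≤ Z ^ (-β) := hmono (by linarith)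
      have e2 : Z ^ (-B / 2) ≤ Z ^ (-β) := hmono (by linarith)
      have e3 : Z ^ (t + ε / 4) ≤ Z ^ (h m + ε / 4) := hmono (by linarith)
      calc Z ^ (t + ε / 4) * (Z ^ (t * (1 + ω) - B) + Z ^ (-B / 2))
          ≤ Z ^ (h m + ε / 4) * (Z ^ (-β) + Z ^ (-β)) :=
            mul_le_mul e3 (add_le_add e1 e2) (by positivity) (by positivity)
        _ = Z ^ (h m) * (2 * Z ^ (ε / 4 - β)) := by
            rw [Real.rpow_add hZpos, sub_eq_add_neg, Real.rpow_add hZpos]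
            ring
    have key2 : ∀ t : ℝ, t ≤ h m → Z ^ (t - B) ≤ Z ^ (h m) * Z ^ (-B) := by
      intro t ht
      rw [← Real.rpow_add hZpos]
      exact hmono (by linarith)
    have h1x : (1 : ℝ) * (1 + ω) ≤ x * (1 + ω) :=
      mul_le_mul_of_nonneg_right hx1 (by linarith)
    have hZh : Z ≤ Z ^ (h m) := by
      calc Z = Z ^ (1 : ℝ) := (Real.rpow_one Z).symm
        _ ≤ Z ^ (h m) := hmono (hh1 m)
    have key1 := key 1 le_rfl (hh1 m) h1x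
    rw [one_mul] at key1
    rcases hgm with rfl | rfl | ⟨hm2, k, hk, rfl⟩
    · exact ⟨le_trans S.Ph hZh, le_trans S.Pv (key2 1 (hh1 m)), le_trans hpair.1 key1⟩
    · exact ⟨le_trans S.Rh hZh, le_trans S.Rv (key2 1 (hh1 m)), le_trans hpair.2 key1⟩
    · have hmlt : (m : ℕ) < n + J + 1 := m.isLt
      have hhm : h m = ν ((m : ℕ) - 2 * J) := by
        rw [hh]
        dsimp only
        rw [if_neg (by omega)]
      have hkh : ν k ≤ h m := by rw [hhm]; exact S.mono hk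
      have hkx : ν k ≤ x := by
        rw [hxdef]
        unfold mu
        rw [if_neg (by omega)]
        exact S.mono (by omega)
      have hkω : ν k * (1 + ω) ≤ x * (1 + ω) := mul_le_mul_of_nonneg_right hkx (by linarith)
      refine ⟨le_trans (S.bh k) (hmono hkh), le_trans (S.bv k) (key2 _ hkh), ?_⟩
      refine le_trans ?_ (key (ν k) (S.one_le k) hkh hkω)
      exact hZ1 Z B (ν k) P R (b k) hZ1' hB (S.one_le k) (by linarith) S.Pd S.Rd S.sq S.co S.Ph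
        S.Rh S.Pv S.Rv (S.bd k) (S.bh k) (S.bv k)
  have hvd : Z ^ (-B) ≤ Z ^ (ε / 4 - β) := hmono (by linarith)
  have hrow : ∀ m : Fin (n + J + 1),
      (∀ l, |(((y m).coeff l : ℤ) : ℝ)| ≤ Z ^ (h m)) ∧
      |aeval ζ (y m)| ≤ Z ^ (h m) * (C * Z ^ (-B)) ∧
      |aeval ζ (derivative (y m))| ≤ Z ^ (h m) * (C * Z ^ (ε / 4 - β)) := by
    intro m
    obtain ⟨j, hj, g, hyg, hgc⟩ := hy m
    obtain ⟨a1, a2, a3⟩ := hg m g hgc
    rw [hyg, hC]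
    exact iq_row n ζ g j (by omega) M hM1 hMk (Z ^ (h m)) (Z ^ (-B)) (Z ^ (ε / 4 - β))
      (by positivity) (by positivity) hvd a1 a2 a3
  have hydeg : ∀ m : Fin (n + J + 1), (y m).natDegree < n + J + 1 := by
    intro m
    obtain ⟨j, hj, g, hyg, hgc⟩ := hy m
    have hgd : g.natDegree ≤ n := by
      rcases hgc with rfl | rfl | ⟨_, k, _, rfl⟩
      · exact S.Pd
      · exact S.Rd.le
      · exact S.bd k
    rw [hyg]
    refine lt_of_le_of_lt (natDegree_mul_le) ?_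
    rw [natDegree_X_pow]
    omega
  have hdet := det_two (n + J + 1) (by omega) y hydeg hyli ζ (fun m => Z ^ (h m))
    (C * Z ^ (-B)) (C * Z ^ (ε / 4 - β)) (by positivity) (by positivity)
    (fun m l => (hrow m).1 l) (fun m => (hrow m).2.1) (fun m => (hrow m).2.2)
  have hprod : ∏ m : Fin (n + J + 1), Z ^ (h m) = Z ^ (∑ m : Fin (n + J + 1), h m) := by
    rw [Real.rpow_sum_of_pos hZpos]
  have hsum : ∑ m : Fin (n + J + 1), h m = 2 * (J : ℝ) + ∑ k ∈ Finset.range i, mu ν k := by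
    have h2 := iq_sum ν i J
    have h3 : n + J + 1 = i + 2 * J := by omega
    rw [hh, h3]
    exact h2
  rw [hprod] at hdet
  obtain ⟨σ, hσ⟩ : ∃ σ : ℝ, σ = ∑ m : Fin (n + J + 1), h m := ⟨_, rfl⟩
  rw [← hσ] at hdet hsum
  have hfac : ((n + J + 1).factorial : ℝ) ≤ ((2 * n + 1).factorial : ℝ) := by
    exact_mod_cast Nat.factorial_le (by omega)
  have hbig : 1 ≤ Z ^ (ε / 4 + (σ - B + (ε / 4 - β))) := by
    have e0 : ((n + J + 1).factorial : ℝ) * Z ^ σ * (C * Z ^ (-B)) * (C * Z ^ (ε / 4 - β)) =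
        (((n + J + 1).factorial : ℝ) * C ^ 2) * Z ^ (σ - B + (ε / 4 - β)) := by
      rw [Real.rpow_add hZpos, sub_eq_add_neg σ B, Real.rpow_add hZpos]
      ring
    rw [e0] at hdet
    refine le_trans hdet ?_
    rw [Real.rpow_add hZpos (ε / 4)]
    apply mul_le_mul_of_nonneg_right _ (by positivity)
    exact le_trans (mul_le_mul_of_nonneg_right hfac (by positivity)) (hZ3 Z hZ3')
  have hexp : 0 ≤ ε / 4 + (σ - B + (ε / 4 - β)) := by
    by_contra hneg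
    push Not at hneg
    have := Real.rpow_lt_one_of_one_lt_of_neg (by linarith : (1 : ℝ) < Z) hneg
    linarith
  have hJr : (J : ℝ) = (n : ℝ) + 1 - i := by
    have : (i : ℝ) + J = n + 1 := by exact_mod_cast hJ
    linarith
  rw [← hJr]
  linarith

end Pool.Agent.Lib.H42W
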