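import Pool.Agent.Lib.H42W.SP3

/-!
# Chunk LS (S)
The last exponent is large.

Proof. Suppose `x (1+ω) ≤ B - ε`, `x = ν n`. `1 ≤ x ≤ Bmax` (`1 + ω ≥ 1`, so `x ≤ B ≤ Bmax`), so `Bmax ≥ 1`.
`w = ω + ε / Bmax`: `x (1 + w) = x (1+ω) + x ε / Bmax ≤ B`. `no_span` with `K = 1` and this `w` gives
`Y0`. With `Y = Z^x ≥ Z ≥ Y0` (`Z ≥ 1`): the `b k`, `k ≤ n`, have height at most `Z^(ν k) ≤ Y` and
`|b k (ζ)| ≤ Z^(ν k - B) ≤ Z^(x - B) ≤ Z^(- x w) = Y^(-w)`, so the determinant is 0, against `Sys.bdet`.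
-/

open Polynomial Filter

namespace Pool.Agent.Lib.H42W

theorem last_large (n : ℕ) (hn : 1 ≤ n) (ζ ω X0 : ℝ) (hω : 0 ≤ ω) (hno : NoStar n ζ ω X0)
    (ε Bmax : ℝ) (hε : 0 < ε) :
    ∃ Z0 : ℝ, ∀ (Z B : ℝ) (P R : ℤ[X]) (b : ℕ → ℤ[X]) (ν : ℕ → ℝ), Z0 ≤ Z → B ≤ Bmax →
      Sys n ζ Z B P R b ν → B - ε < ν n * (1 + ω) := by
  have hM : 0 < max Bmax 1 := lt_of_lt_of_le one_pos (le_max_right _ _)
  obtain ⟨w, hw⟩ : ∃ w : ℝ, w = ω + ε / max Bmax 1 := ⟨_, rfl⟩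
  have hwω : ω < w := by
    have := div_pos hε hM
    linarith
  obtain ⟨Y0, hY0⟩ := no_span n hn ζ ω X0 1 w hω hwω hno
  refine ⟨max 1 Y0, ?_⟩
  intro Z B P R b ν hZ hB S
  by_contra hcon
  push Not at hcon
  have hZ1 : 1 ≤ Z := le_trans (le_max_left _ _) hZ
  have hZ0 : Y0 ≤ Z := le_trans (le_max_right _ _) hZ
  have hx1 : 1 ≤ ν n := S.one_le n
  have hxω : 0 ≤ ν n * ω := mul_nonneg (by linarith) hω
  have hxB : ν n ≤ max Bmax 1 := le_trans (by nlinarith) (le_max_left Bmax 1)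
  have hxw : ν n * (1 + w) ≤ B := by
    have h1 : ν n * (ε / max Bmax 1) ≤ ε := by
      rw [mul_div_assoc', div_le_iff₀ hM]
      nlinarith
    rw [hw]
    nlinarith
  have hYZ : Z ≤ Z ^ (ν n) := by
    calc Z = Z ^ (1 : ℝ) := (Real.rpow_one Z).symm
      _ ≤ Z ^ (ν n) := Real.rpow_le_rpow_of_exponent_le hZ1 hx1
  have hYw : (Z ^ (ν n)) ^ (-w) = Z ^ (ν n * (-w)) := by
    rw [← Real.rpow_mul (by linarith)]
  have hk : ∀ k : Fin (n + 1), ν (k : ℕ) ≤ ν n := fun k => S.mono (by omega)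
  refine S.bdet (hY0 (Z ^ (ν n)) (le_trans hZ0 hYZ) (fun k => b (k : ℕ)) (fun k => S.bd k) ?_ ?_)
  · intro k
    rw [one_mul]
    exact le_trans (S.bh k) (Real.rpow_le_rpow_of_exponent_le hZ1 (hk k))
  · intro k
    rw [one_mul, hYw]
    refine le_trans (S.bv k) (Real.rpow_le_rpow_of_exponent_le hZ1 ?_)
    have := hk k
    nlinarith

end Pool.Agent.Lib.H42W
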