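import Mathlib

/-!
# Chunk NB1 (S)
The tangent line.

Proof. `L = log (1 + 1/Ω) > 0`, `θ = 2 Ω L`, `q = Ω/(1+Ω) = exp (-L)`, so `q^y = exp (- L y)`. For every real `u`:
`exp (-u) = (1/θ) exp (log θ - u) ≥ (1/θ)(1 + log θ - u)` (`Real.add_one_le_exp`). With `u = L (N - Ω + 2τ)`,
`N = n + 1`, `L/θ = 1/(2Ω)`: `(N+τ)/Ω + q^(N-Ω+2τ) ≥ (N+τ)/Ω + (1 + log θ)/θ - (N - Ω + 2τ)/(2Ω)
= N/(2Ω) + 1/2 + (1 + log θ)/θ`.
-/

open Polynomial Filter

namespace Pool.Agent.Lib.H42W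

theorem tangent (N Ω τ : ℝ) (hΩ : 1 ≤ Ω) :
    N / (2 * Ω) + 1 / 2 + (1 + Real.log (2 * Ω * Real.log (1 + 1 / Ω))) /
      (2 * Ω * Real.log (1 + 1 / Ω)) ≤ (N + τ) / Ω + (Ω / (1 + Ω)) ^ (N - Ω + 2 * τ) := by
  have hΩ0 : (0:ℝ) < Ω := by linarith
  have h1 : (0:ℝ) < 1 / Ω := by positivity
  have hL : 0 < Real.log (1 + 1 / Ω) := Real.log_pos (by linarith)
  have hq0 : 0 < Ω / (1 + Ω) := by positivity
  have hlogq : Real.log (Ω / (1 + Ω)) = - Real.log (1 + 1 / Ω) := by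
    rw [← Real.log_inv]
    congr 1
    field_simp
    ring
  set L := Real.log (1 + 1 / Ω) with hLdef
  set y := N - Ω + 2 * τ with hy
  have hpow : (Ω / (1 + Ω)) ^ y = Real.exp (-(L * y)) := by
    rw [Real.rpow_def_of_pos hq0, hlogq]
    congr 1
    ring
  rw [hpow]
  set θ := 2 * Ω * L with hθ
  have hθ0 : 0 < θ := by positivity
  have hexp : (1 + Real.log θ - L * y) / θ ≤ Real.exp (-(L * y)) := by
    rw [div_le_iff₀ hθ0]
    have h2 : Real.exp (-(L * y)) * θ = Real.exp (Real.log θ - L * y) := by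
      rw [show Real.log θ - L * y = -(L * y) + Real.log θ by ring, Real.exp_add,
        Real.exp_log hθ0]
    rw [h2]
    have h3 := Real.add_one_le_exp (Real.log θ - L * y)
    linarith
  have hkey : (1 + Real.log θ - L * y) / θ = (1 + Real.log θ) / θ - y / (2 * Ω) := by
    rw [sub_div]
    congr 1
    rw [hθ]
    field_simp
  have h4 : (N + τ) / Ω - y / (2 * Ω) = N / (2 * Ω) + 1 / 2 := by
    rw [hy]
    field_simp
    ring
  have h5 : N / (2 * Ω) + 1 / 2 + (1 + Real.log θ) / θ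
      = (N + τ) / Ω + ((1 + Real.log θ) / θ - y / (2 * Ω)) := by
    linarith
  rw [h5, ← hkey]
  linarith

end Pool.Agent.Lib.H42W
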