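import Mathlib

/-!
# Chunk NB2 (M)
The logarithmic inequality.

Proof. Let `x = 1/Ω ∈ (0, 10/48]`, `c = log 2`, `ℓ = log (1 + x)`, `r = ℓ / x`, so `θ = 2 Ω L = 2 r` and
`(1 + log θ)/θ = (1 + c + log r)/(2 r)`. The claim is (times `2 r > 0`)
`(1 + c)(1 - r) + log r - (1 - c) x r > 0`. With `s = 1 - r ∈ (0, 0.1)` this is `g := c s + s + log (1 - s) - (1 - c) x (1 - s) > 0`.
Bounds: `ℓ ≤ x - x^2/2 + x^3/3 - x^4/4 + x^5/5` (for instance from `Real.abs_log_sub_add_sum_range_le` at `-x` with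
many terms, or because the difference has a nonnegative derivative `x^5/(1+x)`), so
`s ≥ x/2 - x^2/3 + x^3/4 - x^4/5 =: s0`; and `log (1 - s) ≥ - s - s^2/2 - s^3/3 - s^4/(1-s)`
(`Real.abs_log_sub_add_sum_range_le` with `n = 3`). So
`g ≥ c s - s^2/2 - s^3/3 - s^4/(1-s) - (1 - c) x (1 - s)`, increasing in `s` on `[0, 0.1]`
(derivative `≥ c - s - s^2 - 5 s^3 > 0`), so one may insert `s = s0` (`s0 ≥ x/2 - x^2/3` alone is NOT enough near `x = 10/48`):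
`g/x = 0.03972 - 0.20262 x + 0.196 x^2 - ...`; numerically `g/x = 0.00468` at `x = 10/48` (`s = 0.09164`,
`s0 = 0.09158`), and larger for smaller `x`.
`0.6931471803 < c < 0.6931471808` (`Real.log_two_gt_d9`, `Real.log_two_lt_d9`). Numerical check of the claim at `Ω = 4.8`:
right side `0.879074`, left side `0.878537`.
-/

open Polynomial Filter

namespace Pool.Agent.Lib.H42W

/-- Upper bound for `log (1 + x)`. -/
private theorem NB2_log_upper (x : ℝ) (h0 : 0 < x) (h1 : x ≤ 10 / 48) :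
    Real.log (1 + x) ≤ x - x ^ 2 / 2 + x ^ 3 / 3 - x ^ 4 / 4 + x ^ 5 / 5 + x ^ 6 / 10 := by
  have hab : |(-x)| < 1 := by rw [abs_neg, abs_of_pos h0]; linarith
  have h := Real.abs_log_sub_add_sum_range_le hab 6
  rw [abs_neg, abs_of_pos h0] at h
  have h2 := (abs_le.1 h).2
  simp only [Finset.sum_range_succ, Finset.sum_range_zero] at h2
  norm_num at h2
  have h3 : x ^ 7 / (1 - x) ≤ x ^ 6 * (4 / 15) := by
    rw [div_le_iff₀ (by linarith)]
    have : x ^ 7 = x ^ 6 * x := by ring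
    rw [this, mul_assoc]
    exact mul_le_mul_of_nonneg_left (by linarith) (by positivity)
  nlinarith [h2, h3]

/-- Lower bound for `log (1 - s)`. -/
private theorem NB2_log_lower (s : ℝ) (h0 : 0 < s) (h1 : s ≤ 92 / 1000) :
    - s - s ^ 2 / 2 - s ^ 3 / 3 - 111 / 100 * s ^ 4 ≤ Real.log (1 - s) := by
  have hab : |s| < 1 := by rw [abs_of_pos h0]; linarith
  have h := Real.abs_log_sub_add_sum_range_le hab 3
  rw [abs_of_pos h0] at h
  have h2 := (abs_le.1 h).1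
  simp only [Finset.sum_range_succ, Finset.sum_range_zero] at h2
  norm_num at h2
  have h3 : s ^ 4 / (1 - s) ≤ 111 / 100 * s ^ 4 := by
    rw [div_le_iff₀ (by linarith)]
    have : (0 : ℝ) ≤ s ^ 4 := by positivity
    nlinarith [this]
  linarith [h2, h3]

/-- The polynomial inequality. -/
private theorem NB2_poly (x c σ : ℝ) (h0 : 0 < x) (h1 : x ≤ 10 / 48) (hc : 6931471 / 10000000 < c)
    (_ : c < 1)
    (hσ : σ = 1 / 2 - x / 3 + x ^ 2 / 4 - x ^ 3 / 5 - x ^ 4 / 10) :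
    0 < c * σ - x * σ ^ 2 / 2 - x ^ 2 * σ ^ 3 / 3 - 111 / 100 * (x ^ 3 * σ ^ 4)
      - (1 - c) * (1 - x * σ) := by
  have hx2 : x ^ 2 ≤ 10 / 48 * x := by nlinarith
  have hx3 : x ^ 3 ≤ 10 / 48 * x ^ 2 := by
    have : x ^ 3 = x * x ^ 2 := by ring
    rw [this]
    exact mul_le_mul_of_nonneg_right h1 (by positivity)
  have hx4 : x ^ 4 ≤ 10 / 48 * x ^ 3 := by
    have : x ^ 4 = x * x ^ 3 := by ring
    rw [this]
    exact mul_le_mul_of_nonneg_right h1 (by positivity)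
  have hσu : σ ≤ 1 / 2 - 9 / 32 * x := by
    rw [hσ]
    have : 0 < x ^ 3 := by positivity
    have : 0 < x ^ 4 := by positivity
    nlinarith
  have hσ0 : 0 ≤ σ := by
    rw [hσ]
    have : 0 < x ^ 2 := by positivity
    nlinarith
  set τ : ℝ := 1 / 2 - 9 / 32 * x with hτ
  have e2 : σ ^ 2 ≤ τ ^ 2 := pow_le_pow_left₀ hσ0 hσu 2
  have e3 : σ ^ 3 ≤ τ ^ 3 := pow_le_pow_left₀ hσ0 hσu 3
  have e4 : σ ^ 4 ≤ τ ^ 4 := pow_le_pow_left₀ hσ0 hσu 4
  have f2 : x * σ ^ 2 ≤ x * τ ^ 2 := mul_le_mul_of_nonneg_left e2 h0.le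
  have f3 : x ^ 2 * σ ^ 3 ≤ x ^ 2 * τ ^ 3 := mul_le_mul_of_nonneg_left e3 (by positivity)
  have f4 : x ^ 3 * σ ^ 4 ≤ x ^ 3 * τ ^ 4 := mul_le_mul_of_nonneg_left e4 (by positivity)
  have hxσ : x * σ ≤ 1 := by nlinarith
  have g1 : 6931471 / 10000000 * σ - (1 - 6931471 / 10000000) * (1 - x * σ) ≤
      c * σ - (1 - c) * (1 - x * σ) := by nlinarith
  have key : 0 < 6931471 / 10000000 * σ - (1 - 6931471 / 10000000) * (1 - x * σ)
      - x * τ ^ 2 / 2 - x ^ 2 * τ ^ 3 / 3 - 111 / 100 * (x ^ 3 * τ ^ 4) := by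
    have hid : 6931471 / 10000000 * σ - (1 - 6931471 / 10000000) * (1 - x * σ)
      - x * τ ^ 2 / 2 - x ^ 2 * τ ^ 3 / 3 - 111 / 100 * (x ^ 3 * τ ^ 4) =
      6931471 / 10000000 * σ - (1 - 6931471 / 10000000) * (1 - x * σ)
      - x * τ ^ 2 / 2 - x ^ 2 * τ ^ 3 / 3 - 111 / 100 * (x ^ 3 * τ ^ 4) := rfl
    have hx5 : x ^ 5 ≤ 5 / 100 * x ^ 3 := by
      have : x ^ 5 = x ^ 2 * x ^ 3 := by ring
      rw [this]
      exact mul_le_mul_of_nonneg_right (by nlinarith) (by positivity)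
    have hx7 : x ^ 7 ≤ 1 / 100 * x ^ 3 := by
      have : x ^ 7 = x ^ 4 * x ^ 3 := by ring
      rw [this]
      refine mul_le_mul_of_nonneg_right ?_ (by positivity)
      nlinarith
    have hp6 : 0 ≤ x ^ 6 := by positivity
    have hp4 : 0 ≤ x ^ 4 := by positivity
    have hp3 : 0 ≤ x ^ 3 := by positivity
    have hlow : 397 / 10000 - 2027 / 10000 * x + 1699 / 10000 * x ^ 2 - 125 / 1000 * x ^ 3 ≤
        6931471 / 10000000 * σ - (1 - 6931471 / 10000000) * (1 - x * σ)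
        - x * τ ^ 2 / 2 - x ^ 2 * τ ^ 3 / 3 - 111 / 100 * (x ^ 3 * τ ^ 4) := by
      rw [hσ, hτ]
      nlinarith [hx5, hx7, hp6, hp4, hp3, hx4, h0.le, sq_nonneg x]
    nlinarith [hlow, hx3, hx2]
  linarith

theorem log_ineq (Ω : ℝ) (hΩ : 48 / 10 ≤ Ω) :
    (1 + Real.log 2) / 2 + (1 - Real.log 2) / (2 * Ω) <
      (1 + Real.log (2 * Ω * Real.log (1 + 1 / Ω))) / (2 * Ω * Real.log (1 + 1 / Ω)) := by
  have hΩ0 : 0 < Ω := by linarith
  obtain ⟨x, hx⟩ : ∃ x : ℝ, x = 1 / Ω := ⟨_, rfl⟩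
  have hx0 : 0 < x := by rw [hx]; positivity
  have hx1 : x ≤ 10 / 48 := by
    rw [hx, div_le_iff₀ hΩ0]; linarith
  have hΩx : Ω = 1 / x := by rw [hx]; field_simp
  rw [← hx]
  obtain ⟨l, hl⟩ : ∃ l : ℝ, l = Real.log (1 + x) := ⟨_, rfl⟩
  obtain ⟨c, hc⟩ : ∃ c : ℝ, c = Real.log 2 := ⟨_, rfl⟩
  have hc1 : 6931471 / 10000000 < c := by
    rw [hc]; have := Real.log_two_gt_d9; linarith
  have hc2 : c < 1 := by
    rw [hc]; have := Real.log_two_lt_d9; linarith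
  obtain ⟨r, hr⟩ : ∃ r : ℝ, r = l / x := ⟨_, rfl⟩
  have hlu : l ≤ x - x ^ 2 / 2 + x ^ 3 / 3 - x ^ 4 / 4 + x ^ 5 / 5 + x ^ 6 / 10 := by
    rw [hl]; exact NB2_log_upper x hx0 hx1
  have hll : 2 * x / (x + 2) ≤ l := by
    rw [hl]; exact Real.le_log_one_add_of_nonneg hx0.le
  have hr1 : 9 / 10 ≤ r := by
    rw [hr, le_div_iff₀ hx0]
    refine le_trans ?_ hll
    rw [le_div_iff₀ (by linarith)]
    nlinarith
  have hr0 : 0 < r := by linarith
  obtain ⟨σ, hσ⟩ : ∃ σ : ℝ, σ = 1 / 2 - x / 3 + x ^ 2 / 4 - x ^ 3 / 5 - x ^ 4 / 10 := ⟨_, rfl⟩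
  have hru : r ≤ 1 - x * σ := by
    rw [hr, div_le_iff₀ hx0, hσ]
    nlinarith [hlu]
  have hxσ : x * σ ≤ 92 / 1000 := by
    have hx3 : 0 ≤ x ^ 3 := by positivity
    have hx4 : 0 ≤ x ^ 4 := by positivity
    have h5 : σ ≤ 1 / 2 - 9 / 32 * x := by
      rw [hσ]; nlinarith
    have h6 : x * σ ≤ x * (1 / 2 - 9 / 32 * x) := mul_le_mul_of_nonneg_left h5 hx0.le
    nlinarith
  have hσ0 : 0 < σ := by
    have h2 : x ^ 3 ≤ 1 := pow_le_one₀ hx0.le (by linarith)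
    have h3 : x ^ 4 ≤ 10 / 48 := by
      have : x ^ 4 = x * x ^ 3 := by ring
      rw [this]; nlinarith [h2]
    have h4 : x ^ 3 ≤ 10 / 48 := by
      have h7 : x ^ 2 ≤ 1 := pow_le_one₀ hx0.le (by linarith)
      have : x ^ 3 = x * x ^ 2 := by ring
      rw [this]; nlinarith [h7]
    have h5 : 0 ≤ x ^ 2 := by positivity
    rw [hσ]; nlinarith
  have hs0 : 0 < x * σ := by positivity
  have hlog1 := NB2_log_lower (x * σ) hs0 hxσ
  have hpoly := NB2_poly x c σ hx0 hx1 hc1 hc2 hσ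
  have hr1pos : 0 < 1 - x * σ := by linarith
  have hlogr : Real.log (1 - x * σ) + (1 - (1 - x * σ) / r) ≤ Real.log r := by
    have h1 : Real.log r = Real.log (1 - x * σ) + Real.log (r / (1 - x * σ)) := by
      rw [Real.log_div hr0.ne' hr1pos.ne']; ring
    rw [h1]
    have h2 := Real.one_sub_inv_le_log_of_pos (div_pos hr0 hr1pos)
    rw [inv_div] at h2
    linarith
  have hmain : 0 < (1 + c) * (1 - r) + Real.log r - (1 - c) * (x * r) := by
    have h1 : 1 - (1 - x * σ) / r = -((1 - x * σ) - r) / r := by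
      field_simp
      ring
    have h2 : -(12 / 10 * ((1 - x * σ) - r)) ≤ 1 - (1 - x * σ) / r := by
      rw [h1, le_div_iff₀ hr0]
      nlinarith
    have h3 : (1 - c) * (x * r) ≤ (1 - c) * (x * (1 - x * σ)) :=
      mul_le_mul_of_nonneg_left (mul_le_mul_of_nonneg_left hru hx0.le) (by linarith)
    have h4 : 0 < x * (c * σ - x * σ ^ 2 / 2 - x ^ 2 * σ ^ 3 / 3 - 111 / 100 * (x ^ 3 * σ ^ 4)
      - (1 - c) * (1 - x * σ)) := mul_pos hx0 hpoly
    have h5 : (1 + c) * (1 - r) = (1 + c) * (x * σ) + (1 + c) * ((1 - x * σ) - r) := by ring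
    have h6 : 0 ≤ (c - 2 / 10) * ((1 - x * σ) - r) :=
      mul_nonneg (by linarith) (by linarith)
    nlinarith [h2, h3, h4, h5, h6, hlog1, hlogr]
  have hth : 2 * Ω * l = 2 * r := by
    rw [hr, hΩx]; field_simp
  rw [← hl, ← hc, hth, Real.log_mul two_ne_zero hr0.ne', ← hc, lt_div_iff₀ (by linarith)]
  have h7 : (1 - c) / (2 * Ω) = (1 - c) * x / 2 := by
    rw [hΩx]; field_simp
  rw [h7]
  nlinarith [hmain]

end Pool.Agent.Lib.H42W
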