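import Pool.Agent.Lib.H42W.NA
import Pool.Agent.Lib.H42W.NB1
import Pool.Agent.Lib.H42W.NB2

/-!
# Chunk NB (S/M)
The numerical contradiction.

Proof. `Ω = 1 + ω ≥ 48/10`, `c = log 2`, `2 - c > 0`. `h3` gives `n > (2 - c) ω`, so with `N = n + 1`:
`N/(2Ω) > ((2-c)(Ω-1) + 1)/(2Ω) = (2-c)/2 - (1-c)/(2Ω)`. With `log_ineq` the constant of `tangent`,
`N/(2Ω) + 1/2 + (1 + log θ)/θ`, is larger than `2`; `κ` = it minus 2, so `hstar` of `num_seq` holds. `Ω ≤ n`: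
`ω < n/(2-c) ≤ 0.7653 n` (`c < 0.6931471808`) and `n ≥ 5`. `2 n + ε < 3 Ω = 3 + 3 ω` from `h2` if `ε < 3`. Take
`ε = min (1/2) (Ω κ / (2 (n + 3)))`.
-/

open Polynomial Filter

namespace Pool.Agent.Lib.H42W

theorem num (n : ℕ) (hn : 5 ≤ n) (ω : ℝ) (h1 : 38 / 10 ≤ ω) (h2 : 2 / 3 * (n : ℝ) ≤ ω)
    (h3 : ω < n / (2 - Real.log 2)) :
    ∃ ε : ℝ, 0 < ε ∧ ∀ (B : ℝ) (μ : ℕ → ℝ), (n : ℝ) + 1 - ε ≤ B → μ 0 = 1 → μ 1 = 1 →
      (∀ k, 1 ≤ μ k) → ∑ k ∈ Finset.range (n + 1), μ k ≤ B + ε →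
      (∀ i : ℕ, 2 ≤ i → i ≤ n → μ (i - 1) * (1 + ω) ≤ B - ε →
        B + min (B - μ (i - 1) * (1 + ω)) (B / 2) ≤
          2 * ((n : ℝ) + 1 - i) + ∑ k ∈ Finset.range i, μ k + ε) →
      B - ε < μ n * (1 + ω) → False := by
  have hn5 : (5 : ℝ) ≤ n := by exact_mod_cast hn
  have hc1 := Real.log_two_gt_d9
  have hc2 := Real.log_two_lt_d9
  have h2c : 0 < 2 - Real.log 2 := by linarith
  have hlt : (2 - Real.log 2) * ω < n := by
    rw [lt_div_iff₀ h2c] at h3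
    linarith
  obtain ⟨Ω, hΩ⟩ : ∃ Ω : ℝ, Ω = 1 + ω := ⟨_, rfl⟩
  have hΩ1 : 48 / 10 ≤ Ω := by linarith
  have hΩpos : 0 < Ω := by linarith
  have hlog := log_ineq Ω hΩ1
  obtain ⟨C, hC⟩ : ∃ C : ℝ, C = (1 + Real.log (2 * Ω * Real.log (1 + 1 / Ω))) /
      (2 * Ω * Real.log (1 + 1 / Ω)) := ⟨_, rfl⟩
  rw [← hC] at hlog
  obtain ⟨κ, hκ⟩ : ∃ κ : ℝ, κ = ((n : ℝ) + 1) / (2 * Ω) + 1 / 2 + C - 2 := ⟨_, rfl⟩
  have hκpos : 0 < κ := by
    have h5 : ((2 - Real.log 2) * (Ω - 1) + 1) / (2 * Ω) < ((n : ℝ) + 1) / (2 * Ω) := by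
      apply div_lt_div_of_pos_right _ (by linarith)
      have : Ω - 1 = ω := by linarith
      rw [this]
      linarith
    have h6 : ((2 - Real.log 2) * (Ω - 1) + 1) / (2 * Ω) =
        (2 - Real.log 2) / 2 - (1 - Real.log 2) / (2 * Ω) := by
      field_simp
      ring
    rw [h6] at h5
    rw [hκ]
    linarith
  have hΩn : Ω ≤ n := by
    have h7 : (1.3068528 : ℝ) * ω ≤ (2 - Real.log 2) * ω := by
      apply mul_le_mul_of_nonneg_right _ (by linarith)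
      linarith
    linarith
  have hn3 : (0 : ℝ) < (n : ℝ) + 3 := by linarith
  refine ⟨min (1 / 2) (Ω * κ / (2 * ((n : ℝ) + 3))), ?_, ?_⟩
  · apply lt_min (by norm_num)
    positivity
  · intro B μ hB h0 h1' ha hb hc hd
    have hε1 : min (1 / 2) (Ω * κ / (2 * ((n : ℝ) + 3))) ≤ 1 / 2 := min_le_left _ _
    have hε2 : min (1 / 2) (Ω * κ / (2 * ((n : ℝ) + 3))) ≤ Ω * κ / (2 * ((n : ℝ) + 3)) :=
      min_le_right _ _
    have hεpos : 0 < min (1 / 2) (Ω * κ / (2 * ((n : ℝ) + 3))) := by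
      apply lt_min (by norm_num)
      positivity
    obtain ⟨ε, hε⟩ : ∃ ε : ℝ, ε = min (1 / 2) (Ω * κ / (2 * ((n : ℝ) + 3))) := ⟨_, rfl⟩
    rw [← hε] at hε1 hε2 hεpos hB hb hc hd
    rw [← hΩ] at hc hd
    refine num_seq n (by omega) Ω κ ε hεpos (by linarith) hκpos (by linarith) hΩn ?_ ?_ ?_ B hB μ
      h0 h1' ha hb hc hd
    · linarith
    · have h8 : ((n : ℝ) + 3) * ε ≤ ((n : ℝ) + 3) * (Ω * κ / (2 * ((n : ℝ) + 3))) :=
        mul_le_mul_of_nonneg_left hε2 hn3.le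
      have h9 : ((n : ℝ) + 3) * (Ω * κ / (2 * ((n : ℝ) + 3))) = Ω * κ / 2 := by
        field_simp
      have h10 : 0 < Ω * κ := by positivity
      linarith
    · intro τ
      have h11 := tangent ((n : ℝ) + 1) Ω τ (by linarith)
      rw [← hC] at h11
      rw [hκ]
      linarith

end Pool.Agent.Lib.H42W
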