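import Pool.Agent.Lib.H42W.ES
import Pool.Agent.Lib.H42W.BL
import Pool.Agent.Lib.H42W.IQ
import Pool.Agent.Lib.H42W.LS
import Pool.Agent.Lib.H42W.NB

/-!
# Chunk FN (M)
The lower bound for `w*_{=n}`.

Proof. `not_noStar`: suppose `NoStar n ζ ω X0`. `ε` from `num` (replace by `min ε (1/2)`: all hypotheses of `num` for
the smaller `ε` imply those for `ε`? no: simply use `ε` of `num`), `Bmax = 2 n + 1`. Let `Z0` be the maximum of the `Z0` of
`B_le`, `ineq` (`ε`), `last_large` (`ε`), and take the data of `exists_sys` (`ε`, `Z0`). Put `μ = mu ν`: `μ 0 = μ 1 = 1`,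
`μ k ≥ 1`, `Σ_{k ≤ n} μ k ≤ Σ ν k ≤ B + ε` (`ν ≥ 1`), (c) is `ineq`, (d) is `last_large` (`μ n = ν n` as `n ≥ 2`). `num` gives
`False`.
`star_lower`: for every real `ω` with `max (38/10) (2/3 n) ≤ ω < n/(2 - log 2)` we show `ω ∈ StarSet n ζ`: otherwise
(`Filter.not_frequently`) there is `X0 ≥ 1` with no solution for `X ≥ X0`, and `NoStar n ζ ω X0`: a root `α` of an
irreducible `P` of degree `n ≥ 5` is not 0 (`P.coeff 0 = 0` would give `X ∣ P`, degree 1) and `ζ ≠ α` since `ζ` is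
transcendental. So `ω ≤ starExp` for these `ω`, which are arbitrarily close to `n/(2 - log 2)`
(`38/10 < n/(2 - log 2)` and `2/3 n < n/(2 - log 2)` for `n ≥ 5`: `0.6931471803 < log 2 < 0.6931471808`).
-/

open Polynomial Filter

namespace Pool.Agent.Lib.H42W

theorem not_noStar (n : ℕ) (hn : 5 ≤ n) (ζ : ℝ) (hζ : Transcendental ℤ ζ) (ω X0 : ℝ)
    (h1 : 38 / 10 ≤ ω) (h2 : 2 / 3 * (n : ℝ) ≤ ω) (h3 : ω < n / (2 - Real.log 2)) :
    ¬ NoStar n ζ ω X0 := by
  intro hno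
  have hω : 0 ≤ ω := by linarith
  obtain ⟨ε, hε, hnum⟩ := num n hn ω h1 h2 h3
  obtain ⟨Z1, hZ1⟩ := B_le n (by omega) ζ
  obtain ⟨Z2, hZ2⟩ := ineq n (by omega) ζ hζ ω X0 hω hno ε (2 * n + 1) hε
  obtain ⟨Z3, hZ3⟩ := last_large n (by omega) ζ ω X0 hω hno ε (2 * n + 1) hε
  obtain ⟨Z, B, P, R, b, ν, hZ, hB, S, hsum⟩ :=
    exists_sys n (by omega) ζ hζ ε hε (max Z1 (max Z2 Z3))
  have hZ1' : Z1 ≤ Z := (le_max_left _ _).trans hZ
  have hZ2' : Z2 ≤ Z := ((le_max_left _ _).trans (le_max_right _ _)).trans hZ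
  have hZ3' : Z3 ≤ Z := ((le_max_right _ _).trans (le_max_right _ _)).trans hZ
  have hBm := hZ1 Z B P R b ν hZ1' S
  refine hnum B (mu ν) hB (by simp [mu]) (by simp [mu]) ?_ ?_ ?_ ?_
  · intro k
    unfold mu
    split_ifs
    · exact le_rfl
    · exact S.one_le k
  · refine le_trans (Finset.sum_le_sum fun k _ => ?_) hsum
    unfold mu
    split_ifs
    · exact S.one_le k
    · exact le_rfl
  · intro i hi hin hx
    exact hZ2 Z B P R b ν hZ2' hBm S i hi hin hx
  · have e : mu ν n = ν n := by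
      unfold mu
      rw [if_neg (by omega)]
    rw [e]
    exact hZ3 Z B P R b ν hZ3' hBm S

theorem star_lower (n : ℕ) (hn : 5 ≤ n) (ζ : ℝ) (hζ : Transcendental ℤ ζ) :
    ((n / (2 - Real.log 2) : ℝ) : EReal) ≤ starExp n ζ := by
  have hn5 : (5 : ℝ) ≤ n := by exact_mod_cast hn
  have hc1 := Real.log_two_gt_d9
  have hc2 := Real.log_two_lt_d9
  have h2c : 0 < 2 - Real.log 2 := by linarith
  obtain ⟨M, hM⟩ : ∃ M : ℝ, M = max (38 / 10) (2 / 3 * (n : ℝ)) := ⟨_, rfl⟩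
  have hMlt : M < n / (2 - Real.log 2) := by
    rw [hM, max_lt_iff, lt_div_iff₀ h2c, lt_div_iff₀ h2c]
    constructor <;> nlinarith
  have key : ∀ ω : ℝ, M ≤ ω → ω < n / (2 - Real.log 2) → ω ∈ StarSet n ζ := by
    intro ω h h3
    rw [hM] at h
    have h1 := (le_max_left _ _).trans h
    have h2 := (le_max_right _ _).trans h
    by_contra hcon
    unfold StarSet at hcon
    rw [Set.mem_ofPred_eq, Filter.not_frequently] at hcon
    obtain ⟨X1, hX1⟩ := Filter.eventually_atTop.1 hcon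
    refine not_noStar n hn ζ hζ ω X1 h1 h2 h3 ?_
    intro X α P hX hP hd hα hh
    by_contra hlt
    rw [not_lt] at hlt
    refine hX1 X hX ⟨α, P, ?_, hP, hd, hα, hh, ?_, hlt⟩
    · rintro rfl
      have e0 : P.coeff 0 = 0 := by
        have e1 := Polynomial.coeff_zero_eq_aeval_zero' (A := ℝ) P
        rw [hα, eq_intCast] at e1
        exact_mod_cast e1
      obtain ⟨Q, hQ⟩ := Polynomial.X_dvd_iff.2 e0
      rcases hP.isUnit_or_isUnit hQ with hu | hu
      · exact Polynomial.not_isUnit_X hu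
      · have e2 := Polynomial.natDegree_eq_zero_of_isUnit hu
        have e3 := Polynomial.natDegree_mul_le (p := (Polynomial.X : ℤ[X])) (q := Q)
        rw [← hQ, hd, e2] at e3
        have e4 := Polynomial.natDegree_X_le (R := ℤ)
        omega
    · rw [abs_pos, sub_ne_zero]
      rintro rfl
      exact hζ ⟨P, hP.ne_zero, hα⟩
  by_contra hcon
  rw [not_le] at hcon
  obtain ⟨y, hy1, hy2⟩ := EReal.lt_iff_exists_real_btwn.1 hcon
  have hy3 : y < n / (2 - Real.log 2) := by exact_mod_cast hy2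
  have hmem := key (max y M) (le_max_right _ _) (max_lt hy3 hMlt)
  have hle : ((max y M : ℝ) : EReal) ≤ starExp n ζ := le_sSup ⟨_, hmem, rfl⟩
  have hyM : (y : EReal) ≤ ((max y M : ℝ) : EReal) := EReal.coe_le_coe_iff.2 (le_max_left _ _)
  exact absurd (lt_of_lt_of_le hy1 (hyM.trans hle)) (lt_irrefl _)

end Pool.Agent.Lib.H42W
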