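import Pool.Agent.Lib.H42W.Defs
import Pool.Agent.Lib.H42V.FL

/-!
# Chunk SL (S/M; adapt `H42V.lower`, file `Lib/H42V/FL.lean`)
The lower bound for the star exponent.

Proof. `StarSet`: for every `X0` we need `X ≥ X0` and `α, P`. Take `k` large, `C = 4 * 6^n`, `X = C q_k^n`, `P` of `pkP_facts`,
`α = al n (g k)`. `aeval α P = tc α (rv pk) 0 = 0` (a lemma in `H42V/PK1.lean` / `PK2.lean`: `pk` vanishes at `al`). `height P ≤ X`,
`height P ≥ 1` (irreducible). `hJ`: `Y ≤ ζ - α ≤ 2 Y`, `Y = q^(-(n ws - n + 2))`, so `|ζ - α| > 0`, and `α > 0` for large `k` (`2 Y ≤ 2/q^2`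
tends to 0 and `ζ > 0`; `n ws - n + 2 ≥ 2`). `(height P)⁻¹ X^(-x) ≥ C^(-1) q^(-n) C^(-x) q^(-n x)` if `x ≥ 0` or in general
`X^(-x) = C^(-x) q^(-n x)`, and `2 q^(-(n ws - n + 2)) ≤ C^(-1-x) q^(-n (1+x))` as soon as `2 C^(1+x) ≤ q^(n ws - n + 2 - n - n x)`, and
`n ws - 2n + 2 - n x ≥ n d` by `hlim`: true for large `k`.
-/

open Polynomial MeasureTheory Set Filter

namespace Pool.Agent.Lib.H42W

open Pool.Agent.Lib.H42V

theorem SL_height {P : ℤ[X]} (h : P ≠ 0) : (1 : ℝ) ≤ H70W.height P := by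
  have h1 : P.natDegree ∈ P.support := natDegree_mem_support_of_nonzero h
  have h2 : (P.coeff P.natDegree).natAbs ≤ H70W.height P :=
    Finset.le_sup (f := fun i => (P.coeff i).natAbs) h1
  have h3 : 1 ≤ (P.coeff P.natDegree).natAbs :=
    Nat.one_le_iff_ne_zero.2 (Int.natAbs_ne_zero.2 (mem_support_iff.1 h1))
  exact_mod_cast h3.trans h2

theorem star_low (n : ℕ) (hn : 1 ≤ n) (ζ x d : ℝ) (hζ0 : 0 < ζ) (hd : 0 < d) (ws : ℕ → ℝ)
    (hws : ∀ k, 1 ≤ ws k) (hlim : ∀ᶠ k in atTop, x + 2 - 2 / (n : ℝ) + d ≤ ws k) (g : ℕ → Mo)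
    (hg : ∀ k, (g k).Ok) (hq : ∀ k : ℕ, (k : ℤ) + 2 ≤ (g k).q)
    (hJ : ∀ k, ζ ∈ Jj n (ws k) (g k)) : x ∈ StarSet n ζ := by
  have hnR : (1 : ℝ) ≤ n := by exact_mod_cast hn
  have hqR : ∀ k : ℕ, (k : ℝ) + 2 ≤ ((g k).q : ℝ) := by
    intro k
    have := hq k
    exact_mod_cast this
  have hqT : Tendsto (fun k : ℕ => ((g k).q : ℝ)) atTop atTop := by
    refine tendsto_atTop_mono (fun k => ?_) tendsto_natCast_atTop_atTop
    linarith [hqR k]
  set C : ℝ := 4 * 6 ^ n with hC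
  have hC1 : 1 ≤ C := by
    have h6 : (1 : ℝ) ≤ 6 ^ n := one_le_pow₀ (by norm_num)
    rw [hC]
    linarith
  have hC0 : 0 < C := lt_of_lt_of_le one_pos hC1
  have hX : Tendsto (fun k : ℕ => C * ((g k).q : ℝ) ^ n) atTop atTop := by
    refine tendsto_atTop_mono (fun k => ?_) hqT
    have hq1 : (1 : ℝ) ≤ (g k).q := by
      have := hqR k
      have h0 : (0 : ℝ) ≤ k := Nat.cast_nonneg k
      linarith
    have h1 : ((g k).q : ℝ) ≤ ((g k).q : ℝ) ^ n := le_self_pow₀ hq1 (by omega)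
    have h2 : (0 : ℝ) ≤ ((g k).q : ℝ) ^ n := by positivity
    nlinarith
  have hbig : ∀ᶠ k : ℕ in atTop, 2 * C ^ (1 + x) ≤ ((g k).q : ℝ) ^ ((n : ℝ) * d) := by
    have hT : Tendsto (fun k : ℕ => ((g k).q : ℝ) ^ ((n : ℝ) * d)) atTop atTop :=
      (tendsto_rpow_atTop (mul_pos (by linarith) hd)).comp hqT
    exact hT.eventually_ge_atTop _
  have hbig2 : ∀ᶠ k : ℕ in atTop, 2 / ζ < ((g k).q : ℝ) := hqT.eventually_gt_atTop _
  have hev : ∀ᶠ k : ℕ in atTop, ∃ (α : ℝ) (P : ℤ[X]), α ≠ 0 ∧ Irreducible P ∧ P.natDegree = n ∧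
      aeval α P = 0 ∧ (H70W.height P : ℝ) ≤ C * ((g k).q : ℝ) ^ n ∧ 0 < |ζ - α| ∧
        |ζ - α| ≤ (H70W.height P : ℝ)⁻¹ * (C * ((g k).q : ℝ) ^ n) ^ (-x) := by
    filter_upwards [hlim, hbig, hbig2] with k hk hb hb2
    obtain ⟨P, hirr, hdeg, hht, hval⟩ := pkP_facts n hn (g k) (hg k)
    have hq2 : (2 : ℝ) ≤ (g k).q := by
      have := hqR k
      have h0 : (0 : ℝ) ≤ k := Nat.cast_nonneg k
      linarith
    have hq1 : (1 : ℝ) ≤ (g k).q := by linarith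
    have hq0 : (0 : ℝ) < (g k).q := lt_of_lt_of_le one_pos hq1
    have hY0 : 0 < Yy n (ws k) (g k) := Real.rpow_pos_of_pos hq0 _
    have hJ1 := (hJ k).1
    have hJ2 := (hJ k).2
    have hws1 := hws k
    have hY2 : Yy n (ws k) (g k) ≤ (((g k).q : ℝ))⁻¹ := by
      unfold Yy
      rw [← Real.rpow_neg_one]
      apply Real.rpow_le_rpow_of_exponent_le hq1
      nlinarith
    have hh1 : (1 : ℝ) ≤ H70W.height P := SL_height hirr.ne_zero
    refine ⟨al n (g k), P, ?_, hirr, hdeg, ?_, hht, ?_, ?_⟩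
    · intro h0
      rw [h0, zero_add] at hJ2
      have h1 : 2 * (((g k).q : ℝ))⁻¹ < ζ := by
        rw [← div_eq_mul_inv, div_lt_iff₀ hq0, mul_comm ζ, ← div_lt_iff₀ hζ0]
        exact hb2
      linarith
    · rw [hval (al n (g k))]
      exact pk_root n hn (g k) (hg k)
    · exact abs_pos.2 (by linarith)
    · have h1 : |ζ - al n (g k)| ≤ 2 * Yy n (ws k) (g k) := by
        rw [abs_of_pos (by linarith)]
        linarith
      refine h1.trans ?_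
      have hX0 : 0 < C * ((g k).q : ℝ) ^ n := by positivity
      have h2 : (C * ((g k).q : ℝ) ^ n)⁻¹ ≤ (H70W.height P : ℝ)⁻¹ :=
        inv_anti₀ (by linarith) hht
      have h3 : 0 ≤ (C * ((g k).q : ℝ) ^ n) ^ (-x) := (Real.rpow_pos_of_pos hX0 _).le
      refine le_trans ?_ (mul_le_mul_of_nonneg_right h2 h3)
      have e1 : (C * ((g k).q : ℝ) ^ n)⁻¹ * (C * ((g k).q : ℝ) ^ n) ^ (-x) =
          C ^ (-(1 + x)) * ((g k).q : ℝ) ^ (-((n : ℝ) * (1 + x))) := by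
        rw [← Real.rpow_neg_one, ← Real.rpow_add hX0, Real.mul_rpow hC0.le (by positivity),
          ← Real.rpow_natCast ((g k).q : ℝ) n, ← Real.rpow_mul hq0.le]
        congr 2 <;> ring
      rw [e1]
      have h4 : Yy n (ws k) (g k) ≤
          ((g k).q : ℝ) ^ (-((n : ℝ) * (1 + x))) * ((g k).q : ℝ) ^ (-((n : ℝ) * d)) := by
        unfold Yy
        rw [← Real.rpow_add hq0]
        apply Real.rpow_le_rpow_of_exponent_le hq1
        have h5 : (n : ℝ) * (x + 2 - 2 / n + d) ≤ n * ws k :=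
          mul_le_mul_of_nonneg_left hk (by linarith)
        have h6 : (n : ℝ) * (2 / n) = 2 := by
          field_simp
        nlinarith
      have h5 : 2 * ((g k).q : ℝ) ^ (-((n : ℝ) * d)) ≤ C ^ (-(1 + x)) := by
        rw [Real.rpow_neg hq0.le, Real.rpow_neg hC0.le]
        have ha : 0 < ((g k).q : ℝ) ^ ((n : ℝ) * d) := Real.rpow_pos_of_pos hq0 _
        have hb0 : 0 < C ^ (1 + x) := Real.rpow_pos_of_pos hC0 _
        rw [← div_eq_mul_inv, div_le_iff₀ ha, inv_mul_eq_div, le_div_iff₀ hb0]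
        exact hb
      have h7 : (0 : ℝ) ≤ ((g k).q : ℝ) ^ (-((n : ℝ) * (1 + x))) := by positivity
      calc 2 * Yy n (ws k) (g k)
          ≤ 2 * (((g k).q : ℝ) ^ (-((n : ℝ) * (1 + x))) * ((g k).q : ℝ) ^ (-((n : ℝ) * d))) :=
            mul_le_mul_of_nonneg_left h4 (by norm_num)
        _ = (2 * ((g k).q : ℝ) ^ (-((n : ℝ) * d))) * ((g k).q : ℝ) ^ (-((n : ℝ) * (1 + x))) := by
            ring
        _ ≤ C ^ (-(1 + x)) * ((g k).q : ℝ) ^ (-((n : ℝ) * (1 + x))) :=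
            mul_le_mul_of_nonneg_right h5 h7
  exact hX.frequently hev.frequently

end Pool.Agent.Lib.H42W
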