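import Pool.Agent.Lib.H42W.SU
import Pool.Agent.Lib.H42W.SL
import Pool.Agent.Lib.H42V.Fin

/-!
# Chunk SS (S/M; adapt `H42V.exists_exact`, file `Lib/H42V/Fin.lean`)
All values in `[n, ∞]` occur for the star exponent.

Proof. As `H42V.exists_exact`. `w = ⊤`: `ws k = n + 1 + k`, `Qs k = 20`, `star_low` for every real `x` (`d = 1`). `w` real, `w ≥ n`:
`ws k = w + 2 - 2/n + 1/(k+1)` (`≥ 1 + 1/(k+1)` because `w ≥ n ≥ 1` and `2 - 2/n ≥ 0`), `Qs k = 20^(k+1)`, `star_low` for `x < w`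
(`d = w - x`), `star_upper`, and `H42V.fin_sSup_eq`.
-/

open Polynomial MeasureTheory Set Filter

namespace Pool.Agent.Lib.H42W

theorem star_exists (n : ℕ) (hn : 1 ≤ n) (w : EReal) (hw : (n : EReal) ≤ w) :
    ∃ ζ : ℝ, Transcendental ℤ ζ ∧ starExp n ζ = w := by
  have hn1 : (1 : ℝ) ≤ n := by exact_mod_cast hn
  have h2n : (2 : ℝ) / n ≤ 2 := by
    rw [div_le_iff₀ (by linarith)]
    linarith
  have h2n0 : (0 : ℝ) ≤ 2 / n := by positivity
  induction w using EReal.rec with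
  | bot =>
    exact absurd hw (not_le.2 (EReal.bot_lt_coe (n : ℝ)))
  | coe w =>
    have hw' : (n : ℝ) ≤ w := by exact_mod_cast hw
    have hpos : ∀ k : ℕ, (0 : ℝ) < 1 / ((k : ℝ) + 1) := fun k => Nat.one_div_pos_of_nat
    have hws : ∀ k : ℕ, 1 ≤ (fun k : ℕ => w + 2 - 2 / n + 1 / ((k : ℝ) + 1)) k := by
      intro k
      have := hpos k
      show 1 ≤ w + 2 - 2 / n + 1 / ((k : ℝ) + 1)
      linarith
    obtain ⟨ζ, hζ0, -, ht, g, hg, hq, hQ, hmono, hJ, hmain⟩ :=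
      H42V.exists_zeta n hn (fun k : ℕ => w + 2 - 2 / n + 1 / ((k : ℝ) + 1)) hws
        (fun k => 20 ^ (k + 1))
    have hq20 : ∀ k : ℕ,
        20 ≤ ((g k).q : ℝ) ^ (n * ((fun k : ℕ => w + 2 - 2 / n + 1 / ((k : ℝ) + 1)) k - 1)) := by
      intro k
      have h2 : (20 : ℝ) ^ (k + 1) ≤ (g k).q := by
        have := hQ k
        push_cast at this
        exact_mod_cast this
      have h3 : (1 : ℝ) / ((k : ℝ) + 1) ≤ n * (w + 2 - 2 / n + 1 / ((k : ℝ) + 1) - 1) := by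
        have h4 := hpos k
        have h5 : (1 : ℝ) / ((k : ℝ) + 1) ≤ w + 2 - 2 / n + 1 / ((k : ℝ) + 1) - 1 := by linarith
        nlinarith
      have h6 : (1 : ℝ) ≤ (g k).q := (one_le_pow₀ (by norm_num)).trans h2
      calc (20 : ℝ) = ((20 : ℝ) ^ (k + 1)) ^ (1 / ((k : ℝ) + 1)) := by
            rw [← Real.rpow_natCast, ← Real.rpow_mul (by norm_num)]
            push_cast
            rw [mul_one_div_cancel (by positivity), Real.rpow_one]
        _ ≤ ((g k).q : ℝ) ^ (1 / ((k : ℝ) + 1)) :=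
            Real.rpow_le_rpow (by positivity) h2 (hpos k).le
        _ ≤ ((g k).q : ℝ) ^ (n * (w + 2 - 2 / n + 1 / ((k : ℝ) + 1) - 1)) :=
            Real.rpow_le_rpow_of_exponent_le h6 h3
    have hlim : Tendsto (fun k : ℕ => w + 2 - 2 / n + 1 / ((k : ℝ) + 1)) atTop
        (nhds (w + 2 - 2 / n)) := by
      have := (tendsto_one_div_add_atTop_nhds_zero_nat (𝕜 := ℝ)).const_add (w + 2 - 2 / n)
      rwa [add_zero] at this
    refine ⟨ζ, ht, ?_⟩
    show sSup ((fun w : ℝ => (w : EReal)) '' StarSet n ζ) = (w : EReal)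
    apply H42V.fin_sSup_eq
    · intro x hx
      refine star_low n hn ζ x (w - x) hζ0 (by linarith) _ hws (Eventually.of_forall fun k => ?_)
        g hg hq hJ
      have := hpos k
      show x + 2 - 2 / n + (w - x) ≤ w + 2 - 2 / n + 1 / ((k : ℝ) + 1)
      linarith
    · intro x hx
      exact star_upper n hn ζ w hw' _ hws hlim g hg hq hq20 hmono hJ hmain x hx
  | top =>
    have hws : ∀ k : ℕ, 1 ≤ (fun k : ℕ => (n : ℝ) + 1 + k) k := by
      intro k
      have : (0 : ℝ) ≤ k := Nat.cast_nonneg k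
      show (1 : ℝ) ≤ n + 1 + k
      linarith
    obtain ⟨ζ, hζ0, -, ht, g, hg, hq, hQ, hmono, hJ, hmain⟩ :=
      H42V.exists_zeta n hn (fun k : ℕ => (n : ℝ) + 1 + k) hws (fun _ => 20)
    refine ⟨ζ, ht, ?_⟩
    have key : ∀ x : ℝ, x ∈ StarSet n ζ := by
      intro x
      refine star_low n hn ζ x 1 hζ0 one_pos _ hws ?_ g hg hq hJ
      filter_upwards [eventually_ge_atTop ⌈x + 3⌉₊] with k hk
      have h2 : x + 3 ≤ k := (Nat.le_ceil (x + 3)).trans (by exact_mod_cast hk)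
      show x + 2 - 2 / n + 1 ≤ (n : ℝ) + 1 + k
      linarith
    show sSup ((fun w : ℝ => (w : EReal)) '' StarSet n ζ) = ⊤
    rw [EReal.eq_top_iff_forall_lt]
    intro y
    have h3 : ((y + 1 : ℝ) : EReal) ≤ sSup ((fun w : ℝ => (w : EReal)) '' StarSet n ζ) :=
      le_sSup ⟨y + 1, key _, rfl⟩
    exact lt_of_lt_of_le (EReal.coe_lt_coe_iff.2 (by linarith)) h3

end Pool.Agent.Lib.H42W
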