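import Pool.Agent.Lib.H42W.FN
import Pool.Agent.Lib.H42W.SS
import Pool.Agent.Lib.H70X.Fin

/-!
# The four exact-degree spectra (MP_5a602a_nt)
-/

open Polynomial Filter

namespace Pool.Agent.Lib.H42W

/-- The spectrum of an exponent: the set of its values at transcendental real numbers. -/
def spec (e : ℝ → EReal) : Set EReal := {w : EReal | ∃ ζ : ℝ, Transcendental ℚ ζ ∧ e ζ = w}

theorem transc_int {ζ : ℝ} (h : Transcendental ℚ ζ) : Transcendental ℤ ζ :=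
  fun h' => h (h'.extendScalars (Int.cast_injective (α := ℚ)))

theorem transc_rat {ζ : ℝ} (h : Transcendental ℤ ζ) : Transcendental ℚ ζ :=
  fun h' => h ((IsFractionRing.isAlgebraic_iff ℤ ℚ ℝ).2 h')

/-- The spectrum of `w_{=n}` is `[n, ∞]`. -/
theorem spec_exact (n : ℕ) (hn : 1 ≤ n) : spec (H70W.exactExp n) = Set.Icc (n : EReal) ⊤ := by
  ext w
  constructor
  · rintro ⟨ζ, hζ, rfl⟩
    have h := H70W.main n hn ζ (transc_int hζ)
    exact ⟨h.1.trans h.2, le_top⟩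
  · intro hw
    obtain ⟨ζ, hζ, h⟩ := H42V.exists_exact n hn w hw.1
    exact ⟨ζ, transc_rat hζ, h⟩

/-- The spectrum of `w*_{=n}` contains `[n, ∞]`. -/
theorem spec_star (n : ℕ) (hn : 1 ≤ n) : Set.Icc (n : EReal) ⊤ ⊆ spec (starExp n) := by
  intro w hw
  obtain ⟨ζ, hζ, h⟩ := star_exists n hn w hw.1
  exact ⟨ζ, transc_rat hζ, h⟩

/-- The spectrum of `w*_{=n}` is contained in `[n / (2 - log 2), ∞]` for `n ≥ 5`. -/
theorem spec_star_lower (n : ℕ) (hn : 5 ≤ n) :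
    spec (starExp n) ⊆ Set.Icc ((n / (2 - Real.log 2) : ℝ) : EReal) ⊤ := by
  rintro w ⟨ζ, hζ, rfl⟩
  exact ⟨star_lower n hn ζ (transc_int hζ), le_top⟩

end Pool.Agent.Lib.H42W
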