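import Mathlib

/-!
# Chunk GL1 (M)
The growth lemma.

Proof. `TW` is the image of `W` under multiplication by `X`, `d = finrank W` (finite, `W ≤ degreeLE m`).
`W ≠ 0` because `p, r` are coprime. Suppose `finrank (W ⊔ TW) ≤ d + 1` (otherwise we are done). For a
subspace `U ≤ W` let `U' = W ⊓ TU`. `TU / U'` embeds in `(W ⊔ TW)/W`, of dimension at most 1, so
`finrank U' ≥ finrank U - 1` (`finrank (W ⊔ TU) + finrank (W ⊓ TU) = finrank W + finrank TU`,
`Submodule.finrank_sup_add_finrank_inf_eq`, `finrank TU = finrank U` by injectivity,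
`W ⊔ TU ≤ W ⊔ TW`). Starting with `U_0 = W`, `U_(j+1) = W ⊓ T U_j ≤ W`: `finrank U_j ≥ d - j`, so
`U_(d-1) ≠ 0`. By induction on `j` every `u ∈ U_j` is `X^j * e` with `X^i * e ∈ W` for all `i ≤ j`
(if `u ∈ W ⊓ T U_j`, `u = X * u'`, `u' = X^j e`, `X^i e ∈ W` for `i ≤ j`, and `u = X^(j+1) e ∈ W`). So there is
`e ≠ 0` with `X^i * e ∈ W` for `i ≤ d - 1`: these are `d` linearly independent elements of `W` (different
degrees), so they span `W` and every element of `W` is a multiple of `e`. `e` divides `p` and `r`, so it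
is a unit, a nonzero constant, and `W` is the span of `1, X, ..., X^(d-1)`. All elements of `W`
have `natDegree ≤ d - 1`, so `m ≤ d - 1`; and `W ⊔ TW` contains `1, X, ..., X^d`, of dimension `d + 1`.
`min (m + 2) (d + 2) ≤ m + 2 ≤ d + 1`.
-/

open Polynomial Filter

namespace Pool.Agent.Lib.H42W

private theorem gl1_finrank (k : ℕ) : Module.finrank ℝ (degreeLT ℝ k) = k := by
  rw [(degreeLTEquiv ℝ k).finrank_eq, Module.finrank_fin_fun]

private theorem gl1_fin (k : ℕ) : FiniteDimensional ℝ (degreeLT ℝ k) :=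
  Module.Finite.equiv (degreeLTEquiv ℝ k).symm

/-- The chain of subspaces. -/
private noncomputable def gl1U (W : Submodule ℝ ℝ[X]) : ℕ → Submodule ℝ ℝ[X]
  | 0 => W
  | j + 1 => W ⊓ (gl1U W j).map (LinearMap.mulLeft ℝ (X : ℝ[X]))

private theorem gl1U_le (W : Submodule ℝ ℝ[X]) (j : ℕ) : gl1U W j ≤ W := by
  cases j with
  | zero => exact le_rfl
  | succ j => exact inf_le_left

private theorem gl1U_mem (W : Submodule ℝ ℝ[X]) (j : ℕ) :
    ∀ u ∈ gl1U W j, ∃ e : ℝ[X], u = X ^ j * e ∧ ∀ i ≤ j, X ^ i * e ∈ W := by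
  induction j with
  | zero =>
    intro u hu
    refine ⟨u, by simp, fun i hi => ?_⟩
    obtain rfl : i = 0 := by omega
    rw [pow_zero, one_mul]
    exact hu
  | succ j ih =>
    intro u hu
    have hu' : u ∈ W ⊓ (gl1U W j).map (LinearMap.mulLeft ℝ (X : ℝ[X])) := hu
    rw [Submodule.mem_inf] at hu'
    obtain ⟨huW, v, hv, hvu⟩ := hu'
    obtain ⟨e, hve, he⟩ := ih v hv
    have hue : u = X ^ (j + 1) * e := by
      rw [← hvu, LinearMap.mulLeft_apply, hve]; ring
    refine ⟨e, hue, fun i hi => ?_⟩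
    rcases Nat.lt_or_ge i (j + 1) with h | h
    · exact he i (by omega)
    · obtain rfl : i = j + 1 := by omega
      rwa [← hue]

private theorem gl1_inj : Function.Injective (LinearMap.mulLeft ℝ (X : ℝ[X])) := by
  intro a b hab
  simpa using hab

theorem grow (W : Submodule ℝ ℝ[X]) (m : ℕ) (hW : ∀ f ∈ W, f.natDegree ≤ m) (p r s : ℝ[X])
    (hp : p ∈ W) (hr : r ∈ W) (hcop : IsCoprime p r) (hs : s ∈ W) (hsm : s.natDegree = m) :
    min (m + 2) (Module.finrank ℝ W + 2) ≤
      Module.finrank ℝ (W ⊔ W.map (LinearMap.mulLeft ℝ (X : ℝ[X])) : Submodule ℝ ℝ[X]) := by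
  have hWle : W ≤ degreeLT ℝ (m + 1) := by
    intro f hf
    rw [mem_degreeLT]
    refine lt_of_le_of_lt degree_le_natDegree ?_
    exact_mod_cast Nat.lt_succ_of_le (hW f hf)
  have hfl := gl1_fin (m + 1)
  have hWf : FiniteDimensional ℝ W := Submodule.finiteDimensional_of_le hWle
  set T := LinearMap.mulLeft ℝ (X : ℝ[X]) with hT
  have hTWf : FiniteDimensional ℝ (W.map T) := inferInstance
  have hsupf : FiniteDimensional ℝ (W ⊔ W.map T : Submodule ℝ ℝ[X]) := inferInstance
  set d := Module.finrank ℝ W with hd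
  by_contra hcon
  rw [not_le, lt_min_iff] at hcon
  obtain ⟨hcon1, hcon2⟩ := hcon
  -- `W ≠ 0`
  have hd1 : 1 ≤ d := by
    by_contra h0
    have : Module.finrank ℝ W = 0 := by omega
    have hbot : W = ⊥ := Submodule.finrank_eq_zero.1 this
    have hp0 : p = 0 := by rw [hbot] at hp; simpa using hp
    have hr0 : r = 0 := by rw [hbot] at hr; simpa using hr
    rw [hp0, hr0] at hcop
    exact not_isCoprime_zero_zero hcop
  have hdim : ∀ j, d ≤ Module.finrank ℝ (gl1U W j) + j := by
    intro j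
    induction j with
    | zero => exact le_of_eq rfl
    | succ j ih =>
      have hUf : FiniteDimensional ℝ (gl1U W j) := Submodule.finiteDimensional_of_le (gl1U_le W j)
      have h1 : Module.finrank ℝ ((gl1U W j).map T) = Module.finrank ℝ (gl1U W j) :=
        (Submodule.equivMapOfInjective T gl1_inj (gl1U W j)).finrank_eq.symm
      have h2 := Submodule.finrank_sup_add_finrank_inf_eq W ((gl1U W j).map T)
      have h3 : Module.finrank ℝ (W ⊔ (gl1U W j).map T : Submodule ℝ ℝ[X]) ≤
          Module.finrank ℝ (W ⊔ W.map T : Submodule ℝ ℝ[X]) :=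
        Submodule.finrank_mono (sup_le_sup_left (Submodule.map_mono (gl1U_le W j)) W)
      have h4 : Module.finrank ℝ (gl1U W (j + 1)) =
          Module.finrank ℝ (W ⊓ (gl1U W j).map T : Submodule ℝ ℝ[X]) := rfl
      omega
  -- the element `e`
  obtain ⟨e, he0, heW⟩ : ∃ e : ℝ[X], e ≠ 0 ∧ ∀ i < d, X ^ i * e ∈ W := by
    have h1 := hdim (d - 1)
    have h2 : 0 < Module.finrank ℝ (gl1U W (d - 1)) := by omega
    have h3 : gl1U W (d - 1) ≠ ⊥ := by
      intro h
      rw [h, finrank_bot] at h2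
      exact lt_irrefl _ h2
    obtain ⟨u, hu, hu0⟩ := Submodule.exists_mem_ne_zero_of_ne_bot h3
    obtain ⟨e, hue, he⟩ := gl1U_mem W (d - 1) u hu
    refine ⟨e, ?_, fun i hi => he i (by omega)⟩
    rintro rfl
    exact hu0 (by rw [hue, mul_zero])
  -- `W` consists of the multiples
  have hDf := gl1_fin d
  have hmap : (degreeLT ℝ d).map (LinearMap.mulRight ℝ e) = W := by
    apply Submodule.eq_of_le_of_finrank_eq
    · rintro f ⟨q, hq, rfl⟩
      rw [SetLike.mem_coe, degreeLT_eq_span_X_pow] at hq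
      rw [LinearMap.mulRight_apply]
      induction hq using Submodule.span_induction with
      | mem x hx =>
        rw [Finset.mem_coe, Finset.mem_image] at hx
        obtain ⟨i, hi, rfl⟩ := hx
        exact heW i (Finset.mem_range.1 hi)
      | zero => rw [zero_mul]; exact W.zero_mem
      | add x y _ _ hx hy => rw [add_mul]; exact W.add_mem hx hy
      | smul c x _ hx => rw [smul_mul_assoc]; exact W.smul_mem c hx
    · have hinj : Function.Injective (LinearMap.mulRight ℝ e) := by
        intro a b hab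
        simp only [LinearMap.mulRight_apply] at hab
        exact mul_right_cancel₀ he0 hab
      rw [← (Submodule.equivMapOfInjective _ hinj (degreeLT ℝ d)).finrank_eq, gl1_finrank]
  have hdvd : ∀ f ∈ W, e ∣ f := by
    intro f hf
    rw [← hmap] at hf
    obtain ⟨q, _, rfl⟩ := hf
    exact ⟨q, by rw [LinearMap.mulRight_apply, mul_comm]⟩
  have hunit : IsUnit e := hcop.isUnit_of_dvd' (hdvd p hp) (hdvd r hr)
  obtain ⟨c, hc, hce⟩ := Polynomial.isUnit_iff.1 hunit
  have hc0 : c ≠ 0 := hc.ne_zero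
  have hWX : ∀ i < d, (X : ℝ[X]) ^ i ∈ W := by
    intro i hi
    have h1 := W.smul_mem c⁻¹ (heW i hi)
    rw [← hce, mul_comm, ← smul_eq_C_mul, smul_smul, inv_mul_cancel₀ hc0, one_smul] at h1
    exact h1
  have hmd : m < d := by
    have hs' := hs
    rw [← hmap] at hs'
    obtain ⟨q, hq, hqs⟩ := hs'
    rw [LinearMap.mulRight_apply, ← hce] at hqs
    rw [SetLike.mem_coe, mem_degreeLT] at hq
    have hle : s.natDegree ≤ q.natDegree := by
      rw [← hqs, natDegree_mul_C hc0]
    have hlt : q.natDegree < d := by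
      by_cases hq0 : q = 0
      · rw [hq0, natDegree_zero]; omega
      · rwa [degree_eq_natDegree hq0, Nat.cast_lt] at hq
    omega
  have hbig : degreeLT ℝ (d + 1) ≤ W ⊔ W.map T := by
    rw [degreeLT_eq_span_X_pow, Submodule.span_le]
    intro x hx
    rw [Finset.mem_coe, Finset.mem_image] at hx
    obtain ⟨i, hi, rfl⟩ := hx
    rw [Finset.mem_range] at hi
    rcases Nat.lt_or_ge i d with h | h
    · exact Submodule.mem_sup_left (hWX i h)
    · refine Submodule.mem_sup_right ⟨X ^ (d - 1), hWX _ (by omega), ?_⟩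
      rw [hT, LinearMap.mulLeft_apply, ← pow_succ']
      congr 1
      omega
  have hfin := Submodule.finrank_mono hbig
  rw [gl1_finrank] at hfin
  omega

end Pool.Agent.Lib.H42W
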