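import Pool.Agent.Lib.H42W.GL1

/-!
# Chunk GL2 (S/M)
The dimension of the levels.

Proof. Induction on `J`. `W_J = span {X^j g : j ≤ J, g ∈ S}`. `J = 0`: `W_0 = span S` (`X^0 * g = g`), and
`min (n+1) k ≤ k`. Step: `W_(J+1) = W_J ⊔ T W_J` (only `≥` is needed: `Submodule.map_span`,
`X * (X^j * g) = X^(j+1) * g`; finite dimension: everything is in `degreeLE ℝ (n+J+1)`,
`Submodule.finrank_mono`). The elements of `W_J` have `natDegree ≤ n + J`; `p, r ∈ W_J` are coprime;
`s = X^J * r ∈ W_J` has degree `n + J` (`r ≠ 0`: if `r = 0` then `n = 0` and `p` is a unit; in that case take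
`s = X^J * p`; or note `natDegree` of `X^J * r` for `r ≠ 0` and treat `r = 0` apart). `grow` with
`m = n + J`: `min (n + J + 2) (finrank W_J + 2) ≤ finrank W_(J+1)` and
`finrank W_J ≥ min (n+J+1) (k + 2J)`.
-/

open Polynomial Filter

namespace Pool.Agent.Lib.H42W

private theorem gl2_deg (n J : ℕ) (S : Set ℝ[X]) (hS : ∀ g ∈ S, g.natDegree ≤ n) :
    Submodule.span ℝ {f : ℝ[X] | ∃ j ≤ J, ∃ g ∈ S, f = X ^ j * g} ≤
      Polynomial.degreeLT ℝ (n + J + 1) := by
  rw [Submodule.span_le]
  rintro f ⟨j, hj, g, hg, rfl⟩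
  have h1 : (X ^ j * g : ℝ[X]).natDegree ≤ j + n := by
    refine le_trans Polynomial.natDegree_mul_le ?_
    have h2 : (X ^ j : ℝ[X]).natDegree ≤ j := by simp
    have h3 := hS g hg
    omega
  have h4 : (X ^ j * g : ℝ[X]).natDegree < n + J + 1 := by omega
  show X ^ j * g ∈ Polynomial.degreeLT ℝ (n + J + 1)
  rw [Polynomial.mem_degreeLT]
  refine lt_of_le_of_lt Polynomial.degree_le_natDegree ?_
  exact_mod_cast h4

theorem levels (n J k : ℕ) (S : Set ℝ[X]) (hS : ∀ g ∈ S, g.natDegree ≤ n) (p r : ℝ[X])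
    (hp : p ∈ S) (hr : r ∈ S) (hcop : IsCoprime p r) (hrn : r.natDegree = n)
    (hk : k ≤ Module.finrank ℝ (Submodule.span ℝ S)) :
    min (n + J + 1) (k + 2 * J) ≤
      Module.finrank ℝ (Submodule.span ℝ {f : ℝ[X] | ∃ j ≤ J, ∃ g ∈ S, f = X ^ j * g}) := by
  induction J with
  | zero =>
    have h0 : {f : ℝ[X] | ∃ j ≤ 0, ∃ g ∈ S, f = X ^ j * g} = S := by
      ext f
      constructor
      · rintro ⟨j, hj, g, hg, rfl⟩
        have : j = 0 := by omega
        subst this
        simpa using hg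
      · intro hf
        exact ⟨0, le_refl _, f, hf, by simp⟩
    rw [h0]
    exact le_trans (min_le_right _ _) (by simpa using hk)
  | succ J ih =>
    set W := Submodule.span ℝ {f : ℝ[X] | ∃ j ≤ J, ∃ g ∈ S, f = X ^ j * g} with hWdef
    set W' := Submodule.span ℝ {f : ℝ[X] | ∃ j ≤ J + 1, ∃ g ∈ S, f = X ^ j * g} with hW'def
    have hWle : W ≤ Polynomial.degreeLT ℝ (n + J + 1) := gl2_deg n J S hS
    have hW'le : W' ≤ Polynomial.degreeLT ℝ (n + (J + 1) + 1) := gl2_deg n (J + 1) S hS
    have : FiniteDimensional ℝ (Polynomial.degreeLT ℝ (n + (J + 1) + 1)) :=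
      (Polynomial.degreeLTEquiv ℝ (n + (J + 1) + 1)).symm.finiteDimensional
    have : FiniteDimensional ℝ W' := Submodule.finiteDimensional_of_le hW'le
    have hW : ∀ f ∈ W, f.natDegree ≤ n + J := by
      intro f hf
      have h1 := hWle hf
      rw [Polynomial.mem_degreeLT] at h1
      by_cases hf0 : f = 0
      · rw [hf0]; simp
      · have h2 : f.natDegree < n + J + 1 := by
          rw [Polynomial.degree_eq_natDegree hf0] at h1
          exact_mod_cast h1
        omega
    have hpW : p ∈ W := Submodule.subset_span ⟨0, Nat.zero_le _, p, hp, by simp⟩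
    have hrW : r ∈ W := Submodule.subset_span ⟨0, Nat.zero_le _, r, hr, by simp⟩
    have hex : ∃ s ∈ W, s.natDegree = n + J := by
      by_cases hr0 : r = 0
      · have hn : n = 0 := by rw [← hrn, hr0]; simp
        have hu : IsUnit p := by
          rw [hr0] at hcop
          exact isCoprime_zero_right.mp hcop
        refine ⟨X ^ J * p, Submodule.subset_span ⟨J, le_refl _, p, hp, rfl⟩, ?_⟩
        rw [Polynomial.natDegree_mul (pow_ne_zero _ Polynomial.X_ne_zero) hu.ne_zero,
          Polynomial.natDegree_X_pow, Polynomial.natDegree_eq_zero_of_isUnit hu, hn]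
        omega
      · refine ⟨X ^ J * r, Submodule.subset_span ⟨J, le_refl _, r, hr, rfl⟩, ?_⟩
        rw [Polynomial.natDegree_mul (pow_ne_zero _ Polynomial.X_ne_zero) hr0,
          Polynomial.natDegree_X_pow, hrn]
        omega
    obtain ⟨s, hs, hsm⟩ := hex
    have hg := grow W (n + J) hW p r s hpW hrW hcop hs hsm
    have hle : W ⊔ W.map (LinearMap.mulLeft ℝ (X : ℝ[X])) ≤ W' := by
      refine sup_le ?_ ?_
      · refine Submodule.span_mono ?_
        rintro f ⟨j, hj, g, hg, rfl⟩
        exact ⟨j, by omega, g, hg, rfl⟩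
      · rw [hWdef, Submodule.map_span]
        rw [Submodule.span_le]
        rintro f ⟨f', ⟨j, hj, g, hg, rfl⟩, rfl⟩
        refine Submodule.subset_span ⟨j + 1, by omega, g, hg, ?_⟩
        simp only [LinearMap.mulLeft_apply]
        ring
    have hfin := Submodule.finrank_mono hle
    omega

end Pool.Agent.Lib.H42W
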