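import Mathlib

/-!
# Chunk GR (S)
Choosing independent vectors from given sets.

Proof. Induction on `D` (generalising `S`). `D = 0`: trivial. Step: the induction hypothesis for
`fun m : Fin D => S m.castSucc` gives independent `y_m`. If `S (Fin.last D) ⊆ span (range y)` then
`finrank (span (S (last D))) ≤ finrank (span (range y)) ≤ D` (`Submodule.finrank_mono`,
`finrank_span_eq_card`), against `D + 1 ≤ ...`. So some `z ∈ S (last D)` is not in the span, and
`Fin.snoc y z` is independent (`linearIndependent_finSnoc` / `linearIndependent_fin_snoc`).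
-/

open Polynomial Filter

namespace Pool.Agent.Lib.H42W

theorem greedy {V : Type*} [AddCommGroup V] [Module ℝ V] (D : ℕ) (S : Fin D → Set V)
    (h : ∀ m : Fin D, (m : ℕ) + 1 ≤ Module.finrank ℝ (Submodule.span ℝ (S m))) :
    ∃ y : Fin D → V, (∀ m, y m ∈ S m) ∧ LinearIndependent ℝ y := by
  induction D with
  | zero => exact ⟨fun m => m.elim0, fun m => m.elim0, linearIndependent_empty_type⟩
  | succ D ih =>
    obtain ⟨y, hy, hli⟩ := ih (fun m => S m.castSucc) (fun m => h m.castSucc)
    have hz : ∃ z ∈ S (Fin.last D), z ∉ Submodule.span ℝ (Set.range y) := by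
      by_contra hcon
      push Not at hcon
      have h1 : Submodule.span ℝ (S (Fin.last D)) ≤ Submodule.span ℝ (Set.range y) :=
        Submodule.span_le.2 hcon
      have : Module.Finite ℝ (Submodule.span ℝ (Set.range y)) :=
        FiniteDimensional.span_of_finite ℝ (Set.finite_range y)
      have h2 := Submodule.finrank_mono h1
      have h3 := finrank_span_eq_card hli
      have h4 := h (Fin.last D)
      rw [h3, Fintype.card_fin] at h2
      rw [Fin.val_last] at h4
      omega
    obtain ⟨z, hzS, hz⟩ := hz
    refine ⟨Fin.snoc y z, fun m => ?_, ?_⟩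
    · refine Fin.lastCases ?_ (fun i => ?_) m
      · rw [Fin.snoc_last]
        exact hzS
      · rw [Fin.snoc_castSucc]
        exact hy i
    · exact linearIndependent_finSnoc.2 ⟨hli, hz⟩

end Pool.Agent.Lib.H42W
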