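import Mathlib

/-!
# Chunk NA (M)
The numerical contradiction (sequences).

Proof. `N = n + 1`, `q = Ω / (1 + Ω)`, `τ = B - N ≥ - ε`, `S i = Σ_{k < i} μ k`, `S i ≥ i`, `S 2 = 2`.
(0) `i = 2` in (c): `μ 1 Ω = Ω ≤ B - ε` (from `Ω ≤ n`, `B ≥ n + 1 - ε`, `2 ε ≤ 1`), so
`B + min (B - Ω) (B/2) ≤ 2 (n - 1) + 2 + ε = 2 n + ε`. If `B ≥ 2 Ω` then `B/2 ≤ B - Ω` and
`3 Ω ≤ (3/2) B ≤ 2 n + ε`, against `h3`. So `B < 2 Ω`, and for every `x ≥ 1` `B - x Ω ≤ B - Ω < B/2`: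
the minimum in (c) is always `B - μ Ω`. For `i = 2`: `2 B - Ω ≤ 2 n + ε`, i.e. `i0 := Ω - 2 τ ≥ 2 - ε`.
(1) `E i = S i - 2 i - 2 τ + 2 Ω`, `e i = Ω q^(i - i0)` (real power), so `e (i-1) = e i / q`,
`e (i-1) - e i = e i / Ω = q^(i - i0)`. Let `i1 = max 2 ⌊i0⌋₊` (`i0 ≤ Ω + 2 ε ≤ n + 1`). Claim
`E i ≥ e i - (i - i1 + 1) ε` for `i1 ≤ i ≤ N`. Start: `E i1 ≥ i1 - 2 i1 - 2 τ + 2 Ω = Ω + f`, `f = i0 - i1`. If
`0 ≤ f < 1`: `q^(-f) = (1 + 1/Ω)^f ≤ 1 + f/Ω` (`_root_.rpow_one_add_le_one_add_mul_self`), so `e i1 ≤ Ω + f`. If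
`f < 0` then `i1 = 2`, `f ≥ - ε`, `q^(-f) ≤ 1`, so `e i1 ≤ Ω ≤ E i1 + ε`.
Step `i - 1 → i`, `i ≥ 3`. (i) If `i ≤ n` and `μ (i-1) Ω ≤ B - ε`: (c) is
`2 B - Ω (S i - S (i-1)) ≤ 2 (N - i) + S i + ε`, i.e. `(1 + Ω) E i ≥ Ω E (i-1) - ε` (insert
`S = E + 2 i + 2 τ - 2 Ω`), so `E i ≥ q E (i-1) - ε ≥ e i - (i - i1 + 1) ε`. (ii) Otherwise (`i ≤ n` and not (i),
or `i = N` by (d)) `μ (i-1) > (B - ε)/Ω ≥ B/Ω - ε` (`Ω ≥ 1`) and
`E i = E (i-1) + μ (i-1) - 2 ≥ e (i-1) - (i - i1) ε + B/Ω - ε - 2 = e i + q^(i-i0) + B/Ω - 2 - (i - i1 + 1) ε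
≥ e i + κ - (i - i1 + 1) ε`, because `q^(i - i0) ≥ q^(N - i0)` (`q < 1`, `i ≤ N`) and
`B/Ω + q^(N - i0) ≥ 2 + κ` is `hstar` for `τ` (`N - i0 = N - Ω + 2 τ`).
(2) `i = N`: `S N = E N + 2 N + 2 τ - 2 Ω ≥ Ω q^(N-i0) - (N+1) ε + 2 B - 2 Ω ≥ Ω (2 + κ - B/Ω) - (N+1) ε + 2 B - 2 Ω
= B + Ω κ - (N+1) ε`, against (b): `S N ≤ B + ε` and `(n + 3) ε < Ω κ`.
-/

open Polynomial Filter

namespace Pool.Agent.Lib.H42W

theorem num_seq (n : ℕ) (hn : 2 ≤ n) (Ω κ ε : ℝ) (hε : 0 < ε) (hε2 : 2 * ε ≤ 1) (hκ : 0 < κ)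
    (hΩ1 : 1 ≤ Ω) (hΩn : Ω ≤ n) (h3 : 2 * n + ε < 3 * Ω) (hεκ : (n + 3) * ε < Ω * κ)
    (hstar : ∀ τ : ℝ, 2 + κ ≤ ((n : ℝ) + 1 + τ) / Ω + (Ω / (1 + Ω)) ^ ((n : ℝ) + 1 - Ω + 2 * τ))
    (B : ℝ) (hB : (n : ℝ) + 1 - ε ≤ B) (μ : ℕ → ℝ) (h0 : μ 0 = 1) (h1 : μ 1 = 1)
    (ha : ∀ k, 1 ≤ μ k) (hb : ∑ k ∈ Finset.range (n + 1), μ k ≤ B + ε)
    (hc : ∀ i : ℕ, 2 ≤ i → i ≤ n → μ (i - 1) * Ω ≤ B - ε →
      B + min (B - μ (i - 1) * Ω) (B / 2) ≤
        2 * ((n : ℝ) + 1 - i) + ∑ k ∈ Finset.range i, μ k + ε)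
    (hd : B - ε < μ n * Ω) : False := by
  have hΩ0 : (0 : ℝ) < Ω := by linarith
  obtain ⟨τ, hτ⟩ : ∃ τ : ℝ, τ = B - (n + 1) := ⟨_, rfl⟩
  obtain ⟨S, hS⟩ : ∃ S : ℕ → ℝ, ∀ i, S i = ∑ k ∈ Finset.range i, μ k := ⟨_, fun _ => rfl⟩
  have hSs : ∀ i, S (i + 1) = S i + μ i := fun i => by
    rw [hS, hS, Finset.sum_range_succ]
  have hS0 : S 0 = 0 := by rw [hS]; simp
  have hS2 : S 2 = 2 := by
    have a1 := hSs 0
    have a2 := hSs 1
    norm_num at a1 a2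
    rw [a2, a1, hS0, h0, h1]; norm_num
  have hSi : ∀ i : ℕ, (i : ℝ) ≤ S i := by
    intro i
    induction i with
    | zero => rw [hS0]; simp
    | succ m ih =>
      have := hSs m
      have := ha m
      push_cast
      linarith
  have hSb : S (n + 1) ≤ B + ε := by rw [hS]; exact hb
  -- the case i = 2
  have hn2 : (2 : ℝ) ≤ n := by exact_mod_cast hn
  have c2 := hc 2 le_rfl hn (by
    have : (2 - 1 : ℕ) = 1 := rfl
    rw [this, h1]; linarith)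
  have e21 : (2 - 1 : ℕ) = 1 := rfl
  rw [← hS, hS2, e21, h1] at c2
  push_cast at c2
  have hB2 : B < 2 * Ω := by
    by_contra hcon
    push Not at hcon
    have : min (B - 1 * Ω) (B / 2) = B / 2 := min_eq_right (by linarith)
    rw [this] at c2
    linarith
  have hc' : ∀ i : ℕ, 2 ≤ i → i ≤ n → μ (i - 1) * Ω ≤ B - ε →
      2 * B - μ (i - 1) * Ω ≤ 2 * ((n : ℝ) + 1 - i) + S i + ε := by
    intro i hi hin him
    have h := hc i hi hin him
    have hm : min (B - μ (i - 1) * Ω) (B / 2) = B - μ (i - 1) * Ω := by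
      apply min_eq_left
      have : Ω ≤ μ (i - 1) * Ω := by nlinarith [ha (i - 1)]
      linarith
    rw [hm, ← hS] at h
    linarith
  have hm2 : min (B - 1 * Ω) (B / 2) = B - 1 * Ω := min_eq_left (by linarith)
  rw [hm2] at c2
  obtain ⟨i0, hi0⟩ : ∃ i0 : ℝ, i0 = Ω - 2 * τ := ⟨_, rfl⟩
  have hi0l : 2 - ε ≤ i0 := by rw [hi0, hτ]; linarith
  have hi0p : 0 ≤ i0 := by linarith
  have hi0u : i0 ≤ n + 1 := by rw [hi0, hτ]; linarith
  obtain ⟨q, hq⟩ : ∃ q : ℝ, q = Ω / (1 + Ω) := ⟨_, rfl⟩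
  have hΩ1' : (0 : ℝ) < 1 + Ω := by linarith
  have hq0 : 0 < q := by rw [hq]; positivity
  have hq1 : q < 1 := by rw [hq, div_lt_one hΩ1']; linarith
  have hqm : q * (1 + Ω) = Ω := by rw [hq]; field_simp
  obtain ⟨i1, hi1⟩ : ∃ i1 : ℕ, i1 = max 2 ⌊i0⌋₊ := ⟨_, rfl⟩
  have hi12 : 2 ≤ i1 := by rw [hi1]; exact le_max_left _ _
  have hi1n : i1 ≤ n + 1 := by
    rw [hi1]
    apply max_le (by omega)
    apply Nat.floor_le_of_le
    push_cast
    exact hi0u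
  have hstar' : 2 + κ ≤ B / Ω + q ^ ((n : ℝ) + 1 - i0) := by
    have h := hstar τ
    rw [← hq] at h
    have e1 : (n : ℝ) + 1 + τ = B := by rw [hτ]; ring
    have e2 : (n : ℝ) + 1 - Ω + 2 * τ = (n : ℝ) + 1 - i0 := by rw [hi0]; ring
    rw [e1, e2] at h
    exact h
  obtain ⟨E, hE⟩ : ∃ E : ℕ → ℝ, ∀ i, E i = S i - 2 * i - 2 * τ + 2 * Ω := ⟨_, fun _ => rfl⟩
  obtain ⟨e, he⟩ : ∃ e : ℕ → ℝ, ∀ i : ℕ, e i = Ω * q ^ ((i : ℝ) - i0) := ⟨_, fun _ => rfl⟩
  have hEs : ∀ i, E (i + 1) = E i + μ i - 2 := by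
    intro i
    rw [hE, hE, hSs]
    push_cast
    ring
  have hes : ∀ i, e (i + 1) = q * e i := by
    intro i
    rw [he, he]
    have : ((i + 1 : ℕ) : ℝ) - i0 = ((i : ℝ) - i0) + 1 := by push_cast; ring
    rw [this, Real.rpow_add hq0, Real.rpow_one]
    ring
  have hed : ∀ i : ℕ, e i - e (i + 1) = q ^ (((i + 1 : ℕ) : ℝ) - i0) := by
    intro i
    have h1 : e (i + 1) = Ω * q ^ (((i + 1 : ℕ) : ℝ) - i0) := he (i + 1)
    have h2 := hes i
    -- e i = e (i+1) / q, and Ω / q = 1 + Ω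
    have h3 : e i * q = (1 + Ω) * q * q ^ (((i + 1 : ℕ) : ℝ) - i0) := by
      rw [mul_comm (e i) q, ← h2, h1, mul_comm (1 + Ω) q, hqm]
    have h4 : e i = (1 + Ω) * q ^ (((i + 1 : ℕ) : ℝ) - i0) := by
      apply mul_right_cancel₀ hq0.ne'
      rw [h3]; ring
    rw [h4, h1]; ring
  have hep : ∀ i, 0 < e i := by
    intro i
    rw [he]
    exact mul_pos hΩ0 (Real.rpow_pos_of_pos hq0 _)
  have key : ∀ i : ℕ, i1 ≤ i → i ≤ n + 1 → e i - ((i : ℝ) - i1 + 1) * ε ≤ E i := by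
    intro i hi
    induction i, hi using Nat.le_induction with
    | base =>
      intro _
      have hEl : Ω + (i0 - i1) ≤ E i1 := by
        rw [hE, hi0]
        have := hSi i1
        linarith
      have hf1 : i0 - i1 < 1 := by
        have a1 : i0 < ⌊i0⌋₊ + 1 := Nat.lt_floor_add_one i0
        have a2 : ((⌊i0⌋₊ : ℕ) : ℝ) ≤ i1 := by
          rw [hi1]; exact_mod_cast le_max_right _ _
        linarith
      have hsimp : ((i1 : ℝ) - i1 + 1) * ε = ε := by ring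
      rw [hsimp]
      by_cases hf : 0 ≤ i0 - i1
      · -- q^(-f) = (1 + 1/Ω)^f ≤ 1 + f/Ω
        have a1 : q ^ ((i1 : ℝ) - i0) = (1 + 1 / Ω) ^ (i0 - i1) := by
          have b1 : (i1 : ℝ) - i0 = -(i0 - i1) := by ring
          have b2 : q⁻¹ = 1 + 1 / Ω := by
            rw [hq]; field_simp; ring
          rw [b1, Real.rpow_neg hq0.le, ← Real.inv_rpow hq0.le, b2]
        have a2 : (1 + 1 / Ω) ^ (i0 - i1) ≤ 1 + (i0 - i1) * (1 / Ω) := by
          apply _root_.rpow_one_add_le_one_add_mul_self _ hf hf1.le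
          have : 0 < 1 / Ω := by positivity
          linarith
        have a3 : e i1 ≤ Ω + (i0 - i1) := by
          rw [he, a1]
          calc Ω * (1 + 1 / Ω) ^ (i0 - i1) ≤ Ω * (1 + (i0 - i1) * (1 / Ω)) :=
                mul_le_mul_of_nonneg_left a2 hΩ0.le
            _ = Ω + (i0 - i1) := by field_simp
        linarith
      · push Not at hf
        have a0 : i1 = 2 := by
          by_contra hne
          have : i1 = ⌊i0⌋₊ := by
            rw [hi1] at hne ⊢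
            rcases le_total 2 ⌊i0⌋₊ with h | h
            · exact max_eq_right h
            · exact absurd (max_eq_left h) hne
          have a2 : (i1 : ℝ) ≤ i0 := by rw [this]; exact Nat.floor_le hi0p
          linarith
        have a1 : -ε ≤ i0 - i1 := by rw [a0]; push_cast; linarith
        have a2 : q ^ ((i1 : ℝ) - i0) ≤ 1 :=
          Real.rpow_le_one hq0.le hq1.le (by linarith)
        have a3 : e i1 ≤ Ω := by
          rw [he]
          calc Ω * q ^ ((i1 : ℝ) - i0) ≤ Ω * 1 := mul_le_mul_of_nonneg_left a2 hΩ0.le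
            _ = Ω := mul_one _
        linarith
    | succ j hj ih =>
      intro hjn
      have ihj := ih (by omega)
      have hji : (i1 : ℝ) ≤ j := by exact_mod_cast hj
      have hj1 : (0 : ℝ) ≤ ((j : ℝ) - i1 + 1) * ε := by
        apply mul_nonneg _ hε.le
        linarith
      by_cases hcase : j + 1 ≤ n ∧ μ j * Ω ≤ B - ε
      · obtain ⟨hjn', hμ⟩ := hcase
        have h := hc' (j + 1) (by omega) hjn' (by simpa using hμ)
        have e1 : j + 1 - 1 = j := rfl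
        rw [e1] at h
        have hEj := hEs j
        have hEj1 := hE (j + 1)
        push_cast at h hEj1
        have h5 : Ω * E j - ε ≤ (1 + Ω) * E (j + 1) := by
          have hμj : μ j = E (j + 1) - E j + 2 := by linarith
          have hSj : S (j + 1) = E (j + 1) + 2 * (j + 1) + 2 * τ - 2 * Ω := by linarith
          rw [hμj, hSj] at h
          have hBτ : B = n + 1 + τ := by rw [hτ]; ring
          rw [hBτ] at h
          nlinarith
        have h6 : q * E j - ε ≤ E (j + 1) := by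
          have h7 : (1 + Ω) * (q * E j - ε) ≤ (1 + Ω) * E (j + 1) := by
            have : (1 + Ω) * (q * E j - ε) = (q * (1 + Ω)) * E j - (1 + Ω) * ε := by ring
            rw [this, hqm]
            nlinarith
          exact le_of_mul_le_mul_left h7 hΩ1'
        have h8 : q * (e j - ((j : ℝ) - i1 + 1) * ε) ≤ q * E j :=
          mul_le_mul_of_nonneg_left ihj hq0.le
        have h9 : q * (((j : ℝ) - i1 + 1) * ε) ≤ ((j : ℝ) - i1 + 1) * ε := by
          nlinarith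
        have h10 := hes j
        have g4 : (((j + 1 : ℕ) : ℝ) - i1 + 1) * ε = ((j : ℝ) - i1 + 1) * ε + ε := by
          push_cast; ring
        rw [g4, h10]
        linarith
      · have hμ : B - ε < μ j * Ω := by
          by_cases hjn' : j + 1 ≤ n
          · by_contra hcon
            push Not at hcon
            exact hcase ⟨hjn', hcon⟩
          · have : j = n := by omega
            rw [this]; exact hd
        have hμ2 : B / Ω - ε ≤ μ j := by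
          have a1 : (B - ε) / Ω < μ j := by
            rw [div_lt_iff₀ hΩ0]; exact hμ
          have a2 : B / Ω - ε ≤ (B - ε) / Ω := by
            rw [sub_div]
            have : ε / Ω ≤ ε := div_le_self hε.le hΩ1
            linarith
          linarith
        have hq3 : q ^ ((n : ℝ) + 1 - i0) ≤ q ^ (((j + 1 : ℕ) : ℝ) - i0) := by
          apply Real.rpow_le_rpow_of_exponent_ge hq0 hq1.le
          have : ((j + 1 : ℕ) : ℝ) ≤ ((n + 1 : ℕ) : ℝ) := by exact_mod_cast hjn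
          push_cast at this ⊢
          linarith
        have g1 := hed j
        have g2 := hEs j
        have g3 : e (j + 1) + κ - (((j : ℝ) - i1 + 1) * ε + ε) ≤ E (j + 1) := by
          rw [g2]
          linarith
        have g4 : (((j + 1 : ℕ) : ℝ) - i1 + 1) * ε = ((j : ℝ) - i1 + 1) * ε + ε := by
          push_cast; ring
        rw [g4]
        linarith
  have hfin := key (n + 1) hi1n le_rfl
  have hE1 := hE (n + 1)
  have he1 := he (n + 1)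
  push_cast at hfin hE1 he1
  have hm : Ω * (2 + κ - B / Ω) ≤ Ω * q ^ ((n : ℝ) + 1 - i0) :=
    mul_le_mul_of_nonneg_left (by linarith) hΩ0.le
  have hm2 : Ω * (2 + κ - B / Ω) = 2 * Ω + Ω * κ - B := by field_simp
  have hi1p : (0 : ℝ) ≤ i1 * ε := by positivity
  have hBτ : B = n + 1 + τ := by rw [hτ]; ring
  have g5 : ((n : ℝ) + 1 - i1 + 1) * ε = (n + 2) * ε - i1 * ε := by ring
  have g6 : ((n : ℝ) + 3) * ε = (n + 2) * ε + ε := by ring
  rw [g5] at hfin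
  rw [g6] at hεκ
  linarith

end Pool.Agent.Lib.H42W
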