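import Pool.Agent.Lib.H42W.GL2
import Pool.Agent.Lib.H42W.GR

/-!
# Chunk RW (M)
The rows.

Proof. Work with the images over `ℝ`. `p = P.map`, `r = R.map` are coprime over `ℝ`
(`Polynomial.isCoprime_map` for `ℝ → ℂ`), `r.natDegree = n`. For `κ : ℕ` let
`S_κ = {p, r} ∪ {b k : k < κ}` (images over `ℝ`). `finrank (span S_κ) ≥ max 2 (min κ (n+1))`: it contains the
independent `b 0, ..., b (κ-1)` (`κ ≤ n+1`, from `hdet`), and `p, r` are independent: `n ≥ 1`, a
relation `x p + y r = 0` with `(x, y) ≠ 0` and coprimality would make one of them a multiple of the other, so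
the coprime pair would be units up to zero; `r` has degree `n ≥ 1`, so `x ≠ 0`, `p = c r`, and `r` divides
both `p` and `r`, so `r` is a unit: contradiction.
Apply `greedy` with `D = n + J + 1` and, for `m : Fin D`, the set
`T_m = {X^j * g : j ≤ J, g ∈ S_(κ m)}`, `κ m = 0` if `m < 2J + 2`, `κ m = m + 1 - 2J` otherwise (`≥ 3`, and
`≤ i ≤ n + 1` since `m ≤ n + J = i - 1 + 2J`). `levels` gives `finrank (span T_m) ≥ min (n+J+1) (max 2 (κ m) + 2J) ≥ m + 1`.
The chosen vectors are images of `X^j * g` with integer `g` (`g = P`, `g = R`, or `g = b k` with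
`k < κ m`, i.e. `k ≤ m - 2J`): `choose` the integer polynomials.
-/

open Polynomial Filter

namespace Pool.Agent.Lib.H42W

private theorem rw_pair {n : ℕ} (hn : 1 ≤ n) {p r : ℝ[X]} (hcop : IsCoprime p r) (hrn : r.natDegree = n) :
    LinearIndependent ℝ ![p, r] := by
  have hr0 : r ≠ 0 := by
    rintro rfl
    rw [natDegree_zero] at hrn
    omega
  rw [LinearIndependent.pair_iff]
  intro s t hst
  have hs : s = 0 := by
    by_contra hs
    have h1 : p = (-(t / s)) • r := by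
      have h2 : s⁻¹ • (s • p + t • r) = 0 := by rw [hst, smul_zero]
      rw [smul_add, smul_smul, smul_smul, inv_mul_cancel₀ hs, one_smul] at h2
      rw [eq_neg_of_add_eq_zero_left h2, ← neg_smul]
      congr 1
      rw [div_eq_inv_mul]
    have h3 : r ∣ p := by
      rw [h1, smul_eq_C_mul]
      exact Dvd.intro_left _ rfl
    have h4 : IsUnit r := hcop.isUnit_of_dvd' h3 dvd_rfl
    have h5 := natDegree_eq_zero_of_isUnit h4
    omega
  subst hs
  rw [zero_smul, zero_add] at hst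
  exact ⟨rfl, (smul_eq_zero.1 hst).resolve_right hr0⟩

private theorem rw_indep (n : ℕ) (b : ℕ → ℤ[X])
    (hdet : (Matrix.of fun k l : Fin (n + 1) => (b (k : ℕ)).coeff (l : ℕ)).det ≠ 0) :
    LinearIndependent ℝ (fun k : Fin (n + 1) => (b (k : ℕ)).map (Int.castRingHom ℝ)) := by
  let c : ℝ[X] →ₗ[ℝ] (Fin (n + 1) → ℝ) := LinearMap.pi fun l => lcoeff ℝ (l : ℕ)
  refine LinearIndependent.of_comp c ?_
  have hd : ((Matrix.of fun k l : Fin (n + 1) => (b (k : ℕ)).coeff (l : ℕ)).map (Int.castRingHom ℝ)).det ≠ 0 := by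
    have h1 := RingHom.map_det (Int.castRingHom ℝ) (Matrix.of fun k l : Fin (n + 1) => (b (k : ℕ)).coeff (l : ℕ))
    rw [RingHom.mapMatrix_apply] at h1
    rw [← h1]
    intro h2
    exact hdet (Int.cast_injective (α := ℝ) (by simpa using h2))
  have h3 := Matrix.linearIndependent_rows_of_det_ne_zero hd
  have e : (c ∘ fun k : Fin (n + 1) => (b (k : ℕ)).map (Int.castRingHom ℝ)) =
      ((Matrix.of fun k l : Fin (n + 1) => (b (k : ℕ)).coeff (l : ℕ)).map (Int.castRingHom ℝ)).row := by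
    funext k l
    simp [c, Matrix.row]
  rw [e]
  exact h3

/-- the sets `S κ` -/
private def rw_S (p r : ℝ[X]) (b : ℕ → ℤ[X]) (κ : ℕ) : Set ℝ[X] :=
  {p, r} ∪ ((fun k => (b k).map (Int.castRingHom ℝ)) '' Set.Iio κ)

private theorem rw_fin (p r : ℝ[X]) (b : ℕ → ℤ[X]) (κ : ℕ) : (rw_S p r b κ).Finite :=
  (Set.toFinite {p, r}).union ((Set.finite_Iio κ).image _)

private theorem rw_rank (n : ℕ) (hn : 1 ≤ n) (p r : ℝ[X]) (hcop : IsCoprime p r) (hrn : r.natDegree = n) (b : ℕ → ℤ[X])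
    (hdet : (Matrix.of fun k l : Fin (n + 1) => (b (k : ℕ)).coeff (l : ℕ)).det ≠ 0) (κ : ℕ) (hκ : κ ≤ n + 1) :
    max 2 κ ≤ Module.finrank ℝ (Submodule.span ℝ (rw_S p r b κ)) := by
  haveI : FiniteDimensional ℝ (Submodule.span ℝ (rw_S p r b κ)) := FiniteDimensional.span_of_finite ℝ (rw_fin p r b κ)
  refine max_le ?_ ?_
  · have h1 := finrank_span_eq_card (rw_pair hn hcop hrn)
    rw [Fintype.card_fin] at h1
    refine h1.symm.le.trans (Submodule.finrank_mono (Submodule.span_mono ?_))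
    rintro _ ⟨k, rfl⟩
    fin_cases k
    · exact Or.inl (Or.inl rfl)
    · exact Or.inl (Or.inr rfl)
  · have h0 := (rw_indep n b hdet).comp (Fin.castLE hκ) (Fin.castLE_injective hκ)
    have h1 := finrank_span_eq_card h0
    rw [Fintype.card_fin] at h1
    conv_lhs => rw [← h1]
    refine Submodule.finrank_mono (Submodule.span_mono ?_)
    rintro _ ⟨k, rfl⟩
    exact Or.inr ⟨(k : ℕ), k.2, rfl⟩

theorem rows (n i J : ℕ) (hn : 1 ≤ n) (hi : 2 ≤ i) (hJ : i + J = n + 1) (P R : ℤ[X])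
    (b : ℕ → ℤ[X]) (hP : P.natDegree ≤ n) (hR : R.natDegree = n)
    (hco : IsCoprime (P.map (Int.castRingHom ℂ)) (R.map (Int.castRingHom ℂ)))
    (hb : ∀ k, (b k).natDegree ≤ n)
    (hdet : (Matrix.of fun k l : Fin (n + 1) => (b (k : ℕ)).coeff (l : ℕ)).det ≠ 0) :
    ∃ y : Fin (n + J + 1) → ℤ[X],
      LinearIndependent ℝ (fun m => (y m).map (Int.castRingHom ℝ)) ∧
      ∀ m : Fin (n + J + 1), ∃ j ≤ J, ∃ g : ℤ[X], y m = X ^ j * g ∧
        (g = P ∨ g = R ∨ (2 * J + 2 ≤ (m : ℕ) ∧ ∃ k ≤ (m : ℕ) - 2 * J, g = b k)) := by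
  set φ : ℤ →+* ℝ := Int.castRingHom ℝ with hφ
  have hinj : Function.Injective φ := Int.cast_injective
  have hcop : IsCoprime (P.map φ) (R.map φ) := by
    have e : ∀ Q : ℤ[X], Q.map (Int.castRingHom ℂ) = (Q.map φ).map (algebraMap ℝ ℂ) := by
      intro Q
      rw [Polynomial.map_map]
      congr 1
    rw [e P, e R] at hco
    exact (isCoprime_map (algebraMap ℝ ℂ)).1 hco
  have hrn : (R.map φ).natDegree = n := by rw [natDegree_map_eq_of_injective hinj, hR]
  have hSdeg : ∀ κ : ℕ, ∀ g ∈ rw_S (P.map φ) (R.map φ) b κ, g.natDegree ≤ n := by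
    rintro κ g ((rfl | rfl) | ⟨k, -, rfl⟩)
    · exact natDegree_map_le.trans hP
    · exact hrn.le
    · exact natDegree_map_le.trans (hb k)
  let κ : Fin (n + J + 1) → ℕ := fun m => if (m : ℕ) < 2 * J + 2 then 0 else (m : ℕ) + 1 - 2 * J
  have hκle : ∀ m, κ m ≤ n + 1 := by
    intro m
    have := m.2
    simp only [κ]
    split_ifs <;> omega
  have hT : ∀ m : Fin (n + J + 1), (m : ℕ) + 1 ≤ Module.finrank ℝ (Submodule.span ℝ
      {f : ℝ[X] | ∃ j ≤ J, ∃ g ∈ rw_S (P.map φ) (R.map φ) b (κ m), f = X ^ j * g}) := by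
    intro m
    have h1 := levels n J (max 2 (κ m)) (rw_S (P.map φ) (R.map φ) b (κ m)) (hSdeg (κ m)) (P.map φ) (R.map φ)
      (Or.inl (Or.inl rfl)) (Or.inl (Or.inr rfl)) hcop hrn (rw_rank n hn _ _ hcop hrn b hdet (κ m) (hκle m))
    refine le_trans (le_min ?_ ?_) h1
    · have := m.2
      omega
    · simp only [κ]
      split_ifs with h <;> omega
  obtain ⟨y, hy, hli⟩ := greedy (n + J + 1) _ hT
  have hex : ∀ m : Fin (n + J + 1), ∃ Y : ℤ[X], Y.map φ = y m ∧ ∃ j ≤ J, ∃ g : ℤ[X], Y = X ^ j * g ∧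
      (g = P ∨ g = R ∨ (2 * J + 2 ≤ (m : ℕ) ∧ ∃ k ≤ (m : ℕ) - 2 * J, g = b k)) := by
    intro m
    obtain ⟨j, hj, g, hg, hyg⟩ := hy m
    rcases hg with (rfl | rfl) | ⟨k, hk, rfl⟩
    · exact ⟨X ^ j * P, by rw [hyg, Polynomial.map_mul, Polynomial.map_pow, map_X], j, hj, P, rfl, Or.inl rfl⟩
    · exact ⟨X ^ j * R, by rw [hyg, Polynomial.map_mul, Polynomial.map_pow, map_X], j, hj, R, rfl, Or.inr (Or.inl rfl)⟩
    · have hk' : k < κ m := hk
      simp only [κ] at hk'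
      refine ⟨X ^ j * b k, by rw [hyg, Polynomial.map_mul, Polynomial.map_pow, map_X], j, hj, b k, rfl,
        Or.inr (Or.inr ?_)⟩
      split_ifs at hk' with h
      · omega
      · exact ⟨by omega, k, by omega, rfl⟩
  choose Y hY1 hY2 using hex
  refine ⟨Y, ?_, hY2⟩
  have e : (fun m => (Y m).map φ) = y := funext hY1
  rw [e]
  exact hli

end Pool.Agent.Lib.H42W
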