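import Pool.Agent.Lib.H42W.Defs

/-!
# Chunk SP1 (S/M)
A real root close to `ζ`.

Proof. Let `H = height F`, `v = |F(ζ)|`, `D = |F'(ζ)| > 0`, `L = (max 1 |ζ| + 1)`.
There are constants `C1, C2 ≥ 1` (depending on `n`, `ζ`) with `D ≤ C1 H`
(`|F'(ζ)| ≤ Σ_{i ≤ n} i |F.coeff i| |ζ|^(i-1)`, `H70W.abs_coeff_le_height`) and, for `|t| ≤ 1`,
`|F(ζ+t) - F(ζ) - F'(ζ) t| ≤ C2 H t^2` (for one power: `|(ζ+t)^i - ζ^i - i ζ^(i-1) t| ≤ c_i t^2` by
induction on `i`, compare `t4_pow`, `t4_taylor` in `Lib/H70X/T4.lean`, which are for `ζ ∈ [0,1]`).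
Take `K = 2 C1 + 8 C2`. If `v = 0` take `α = ζ`. Otherwise `r = 2 v / D`. From `K H v ≤ D^2`:
`r ≤ 2 D / (K H) ≤ 2 C1 / K ≤ 1`, and `C2 H r^2 = 4 C2 H v^2 / D^2 ≤ 4 C2 v / K ≤ v / 2`. So with
`s = sign F'(ζ)`: `F(ζ + s r) ≥ - v + 2 v - v/2 > 0` and `F(ζ - s r) ≤ v - 2 v + v/2 < 0`, and the
intermediate value theorem gives a root `α` with `|ζ - α| ≤ r`. (`H = 0` is impossible as `D > 0`.)
-/

open Polynomial Filter

namespace Pool.Agent.Lib.H42W

theorem sp1_pow (ζ : ℝ) (i : ℕ) : ∃ c : ℝ, 0 ≤ c ∧ ∀ t : ℝ, |t| ≤ 1 →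
    |(ζ + t) ^ i - ζ ^ i - i * ζ ^ (i - 1) * t| ≤ c * t ^ 2 := by
  induction i with
  | zero =>
    refine ⟨0, le_rfl, fun t _ => ?_⟩
    simp
  | succ i ih =>
    obtain ⟨c, hc, h⟩ := ih
    refine ⟨i * |ζ| ^ (i - 1) + (|ζ| + 1) * c, by positivity, fun t ht => ?_⟩
    have h1 : (i : ℝ) * ζ ^ (i - 1) * ζ = i * ζ ^ i := by
      rcases Nat.eq_zero_or_pos i with h0 | h0
      · rw [h0]
        simp
      · rw [mul_assoc, ← pow_succ, Nat.sub_add_cancel h0]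
    have h2 : (ζ + t) ^ (i + 1) - ζ ^ (i + 1) - ((i + 1 : ℕ) : ℝ) * ζ ^ (i + 1 - 1) * t =
        i * ζ ^ (i - 1) * t ^ 2 + (ζ + t) * ((ζ + t) ^ i - ζ ^ i - i * ζ ^ (i - 1) * t) := by
      rw [Nat.add_sub_cancel]
      push_cast
      linear_combination (t : ℝ) * h1
    rw [h2]
    have h3 : |(i : ℝ) * ζ ^ (i - 1) * t ^ 2| = i * |ζ| ^ (i - 1) * t ^ 2 := by
      rw [abs_mul, abs_mul, abs_pow, abs_of_nonneg (sq_nonneg t), Nat.abs_cast]
    have h4 : |ζ + t| ≤ |ζ| + 1 := (abs_add_le ζ t).trans (by linarith)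
    calc |(i : ℝ) * ζ ^ (i - 1) * t ^ 2 +
          (ζ + t) * ((ζ + t) ^ i - ζ ^ i - i * ζ ^ (i - 1) * t)| ≤
          |(i : ℝ) * ζ ^ (i - 1) * t ^ 2| +
            |(ζ + t) * ((ζ + t) ^ i - ζ ^ i - i * ζ ^ (i - 1) * t)| := abs_add_le _ _
      _ ≤ i * |ζ| ^ (i - 1) * t ^ 2 + (|ζ| + 1) * (c * t ^ 2) := by
          rw [h3, abs_mul]
          have h5 := mul_le_mul h4 (h t ht) (abs_nonneg _) (by positivity)
          linarith
      _ = _ := by ring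

theorem sp1_aeval {n : ℕ} {F : ℤ[X]} (hF : F.natDegree ≤ n) (x : ℝ) :
    aeval x F = ∑ i ∈ Finset.range (n + 1), (F.coeff i : ℝ) * x ^ i := by
  rw [aeval_eq_sum_range' (Nat.lt_succ_of_le hF)]
  exact Finset.sum_congr rfl fun i _ => by rw [zsmul_eq_mul]

theorem sp1_deriv {n : ℕ} {F : ℤ[X]} (hF : F.natDegree ≤ n) (x : ℝ) :
    aeval x (derivative F) =
      ∑ i ∈ Finset.range (n + 1), (F.coeff i : ℝ) * (i * x ^ (i - 1)) := by
  have h := congrArg (fun G : ℤ[X] => aeval x (derivative G))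
    (F.as_sum_range' (n + 1) (Nat.lt_succ_of_le hF))
  simp only [derivative_monomial, map_sum, aeval_monomial] at h
  rw [h]
  refine Finset.sum_congr rfl fun i _ => ?_
  rw [map_mul, map_natCast, eq_intCast]
  ring

theorem near_root (n : ℕ) (ζ : ℝ) : ∃ K : ℝ, 1 ≤ K ∧ ∀ F : ℤ[X], F.natDegree ≤ n →
    aeval ζ (derivative F) ≠ 0 →
    K * (H70W.height F : ℝ) * |aeval ζ F| ≤ |aeval ζ (derivative F)| ^ 2 →
    ∃ α : ℝ, aeval α F = 0 ∧ |ζ - α| * |aeval ζ (derivative F)| ≤ 2 * |aeval ζ F| := by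
  choose c hc hpow using sp1_pow ζ
  set C1 : ℝ := 1 + ∑ i ∈ Finset.range (n + 1), (i : ℝ) * |ζ| ^ (i - 1) with hC1
  set C2 : ℝ := 1 + ∑ i ∈ Finset.range (n + 1), c i with hC2
  have hs1 : 0 ≤ ∑ i ∈ Finset.range (n + 1), (i : ℝ) * |ζ| ^ (i - 1) :=
    Finset.sum_nonneg fun i _ => by positivity
  have hs2 : 0 ≤ ∑ i ∈ Finset.range (n + 1), c i := Finset.sum_nonneg fun i _ => hc i
  have hC1' : 1 ≤ C1 := by rw [hC1]; linarith
  have hC2' : 1 ≤ C2 := by rw [hC2]; linarith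
  refine ⟨2 * C1 + 8 * C2, by linarith, fun F hF hD hK => ?_⟩
  set H : ℝ := (H70W.height F : ℝ) with hH
  have hH0 : 0 ≤ H := Nat.cast_nonneg _
  have hcoeff : ∀ i, |(F.coeff i : ℝ)| ≤ H := fun i => H70W.abs_coeff_le_height F i
  set D : ℝ := aeval ζ (derivative F) with hDdef
  have hDpos : 0 < |D| := abs_pos.2 hD
  have hD1 : |D| ≤ C1 * H := by
    rw [hDdef, sp1_deriv hF]
    calc |∑ i ∈ Finset.range (n + 1), (F.coeff i : ℝ) * (i * ζ ^ (i - 1))| ≤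
          ∑ i ∈ Finset.range (n + 1), |(F.coeff i : ℝ) * (i * ζ ^ (i - 1))| :=
          Finset.abs_sum_le_sum_abs _ _
      _ ≤ ∑ i ∈ Finset.range (n + 1), H * (i * |ζ| ^ (i - 1)) := by
          refine Finset.sum_le_sum fun i _ => ?_
          rw [abs_mul, abs_mul, abs_pow, Nat.abs_cast]
          exact mul_le_mul_of_nonneg_right (hcoeff i) (by positivity)
      _ = (∑ i ∈ Finset.range (n + 1), (i : ℝ) * |ζ| ^ (i - 1)) * H := by
          rw [← Finset.mul_sum, mul_comm]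
      _ ≤ C1 * H := mul_le_mul_of_nonneg_right (by rw [hC1]; linarith) hH0
  have htaylor : ∀ t : ℝ, |t| ≤ 1 →
      |aeval (ζ + t) F - aeval ζ F - D * t| ≤ C2 * H * t ^ 2 := by
    intro t ht
    have h1 : aeval (ζ + t) F - aeval ζ F - D * t =
        ∑ i ∈ Finset.range (n + 1), (F.coeff i : ℝ) *
          ((ζ + t) ^ i - ζ ^ i - i * ζ ^ (i - 1) * t) := by
      rw [hDdef, sp1_deriv hF, sp1_aeval hF, sp1_aeval hF, Finset.sum_mul,
        ← Finset.sum_sub_distrib, ← Finset.sum_sub_distrib]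
      exact Finset.sum_congr rfl fun i _ => by ring
    rw [h1]
    calc |∑ i ∈ Finset.range (n + 1), (F.coeff i : ℝ) *
          ((ζ + t) ^ i - ζ ^ i - i * ζ ^ (i - 1) * t)| ≤
          ∑ i ∈ Finset.range (n + 1), |(F.coeff i : ℝ) *
          ((ζ + t) ^ i - ζ ^ i - i * ζ ^ (i - 1) * t)| := Finset.abs_sum_le_sum_abs _ _
      _ ≤ ∑ i ∈ Finset.range (n + 1), H * (c i * t ^ 2) := by
          refine Finset.sum_le_sum fun i _ => ?_
          rw [abs_mul]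
          exact mul_le_mul (hcoeff i) (hpow i t ht) (abs_nonneg _) hH0
      _ = (∑ i ∈ Finset.range (n + 1), c i) * (H * t ^ 2) := by
          rw [Finset.sum_mul]
          exact Finset.sum_congr rfl fun i _ => by ring
      _ ≤ C2 * (H * t ^ 2) := mul_le_mul_of_nonneg_right (by rw [hC2]; linarith)
          (mul_nonneg hH0 (sq_nonneg t))
      _ = _ := by ring
  have hHpos : 0 < H := by
    rcases hH0.eq_or_lt with h0 | h0
    · rw [← h0, mul_zero] at hD1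
      linarith
    · exact h0
  set v : ℝ := |aeval ζ F| with hv
  have hv0 : 0 ≤ v := abs_nonneg _
  rcases hv0.eq_or_lt with h0 | hvpos
  · refine ⟨ζ, abs_eq_zero.1 h0.symm, ?_⟩
    rw [sub_self, abs_zero, zero_mul, ← h0, mul_zero]
  have hsq : |D| ^ 2 = D ^ 2 := sq_abs D
  have h2v : 2 * v ≤ |D| := by
    have h1 : H * ((2 * C1 + 8 * C2) * v) ≤ H * (|D| * C1) := by
      calc H * ((2 * C1 + 8 * C2) * v) = (2 * C1 + 8 * C2) * H * v := by ring
        _ ≤ |D| ^ 2 := hK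
        _ = |D| * |D| := sq _
        _ ≤ |D| * (C1 * H) := mul_le_mul_of_nonneg_left hD1 hDpos.le
        _ = _ := by ring
    have h2 := le_of_mul_le_mul_left h1 hHpos
    have h3 : C1 * (2 * v) ≤ C1 * |D| := by nlinarith
    exact le_of_mul_le_mul_left h3 (by linarith)
  set ρ : ℝ := 2 * v / D with hρ
  have hDρ : D * ρ = 2 * v := by
    rw [hρ, mul_div_cancel₀ _ hD]
  have hρabs : |ρ| * |D| = 2 * v := by
    rw [← abs_mul, mul_comm ρ D, hDρ, abs_of_pos (by linarith)]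
  have hρ1 : |ρ| ≤ 1 := by
    have h1 : |ρ| * |D| ≤ 1 * |D| := by rw [hρabs, one_mul]; exact h2v
    exact le_of_mul_le_mul_right h1 hDpos
  have hCρ : C2 * H * ρ ^ 2 ≤ v / 2 := by
    have h1 : C2 * H * ρ ^ 2 * D ^ 2 ≤ v / 2 * D ^ 2 := by
      calc C2 * H * ρ ^ 2 * D ^ 2 = C2 * H * (D * ρ) ^ 2 := by ring
        _ = (8 * C2 * H * v) * (v / 2) := by rw [hDρ]; ring
        _ ≤ D ^ 2 * (v / 2) := by
            refine mul_le_mul_of_nonneg_right ?_ (by linarith)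
            rw [← hsq]
            refine le_trans ?_ hK
            have : 0 ≤ 2 * C1 * H * v := by positivity
            nlinarith
        _ = _ := by ring
    exact le_of_mul_le_mul_right h1 (by positivity)
  have hle1 := neg_abs_le (aeval ζ F)
  have hle2 := le_abs_self (aeval ζ F)
  have hplus := (abs_le.1 (htaylor ρ hρ1)).1
  have hminus := (abs_le.1 (htaylor (-ρ) (by rw [abs_neg]; exact hρ1))).2
  have hm2 : C2 * H * (-ρ) ^ 2 = C2 * H * ρ ^ 2 := by ring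
  have hm3 : D * -ρ = - (2 * v) := by rw [mul_neg, hDρ]
  rw [hm2, hm3] at hminus
  rw [hDρ] at hplus
  have hp : 0 ≤ aeval (ζ + ρ) F := by linarith
  have hm : aeval (ζ + -ρ) F ≤ 0 := by linarith
  have hcont : ContinuousOn (fun x : ℝ => aeval x F) (Set.uIcc (ζ + -ρ) (ζ + ρ)) :=
    (Polynomial.continuous_aeval F).continuousOn
  obtain ⟨x, hx, hx0⟩ := intermediate_value_uIcc hcont
    (Set.mem_uIcc.2 (Or.inl ⟨hm, hp⟩) : (0 : ℝ) ∈ Set.uIcc _ _)
  refine ⟨x, hx0, ?_⟩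
  have hxρ : |ζ - x| ≤ |ρ| := by
    have h1 := le_abs_self ρ
    have h2 := neg_abs_le ρ
    rcases Set.mem_uIcc.1 hx with ⟨h3, h4⟩ | ⟨h3, h4⟩
    · rw [abs_le]
      constructor <;> linarith
    · rw [abs_le]
      constructor <;> linarith
  calc |ζ - x| * |D| ≤ |ρ| * |D| := mul_le_mul_of_nonneg_right hxρ hDpos.le
    _ = 2 * v := hρabs

end Pool.Agent.Lib.H42W
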