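import Pool.Agent.Lib.H42W.SP0
import Pool.Agent.Lib.H42W.SP1

/-!
# Chunk SP2 (M/L)
From `n+1` independent good polynomials to an irreducible polynomial of degree `n` with a real root
close to `ζ`. (Compare `H70W.good_irreducible`, file `Lib/H70W/A9.lean`: the determinant part is
the same.)

Proof. `K' = max K 1`, `δ = ε / 8`, `L = (n+1)^2 (max 1 |ζ|)^n` (so `|G'(ζ)| ≤ L height G` and
`|G(ζ)| ≤ L height G` for `G` of degree at most `n`). `|det| ≤ (n+1)! (K' Y)^(n+1) ≤ Y^(n+2)`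
(`Matrix.det_le`), so `H70W.exists_prime` with `A = n+2` and `δ` gives a prime `p ≤ Y^δ` not dividing
it; `comb_irred` gives `c0`. Put `T = (n+1) p^2 K'` and `M = 2 T L Y`.
Over the reals the matrix `G` is invertible, so there are real `θ i` with
`Σ θ i (G i).coeff l = (- M ζ, M, 0, ..., 0)_l` (the coefficients of `M (T - ζ)`).
Let `c i ≡ c0 i mod p^2` be an integer with `|c i - θ i| ≤ p^2`
(`c i = c0 i + p^2 * round ((θ i - c0 i) / p^2)`), `F1 = Σ C (c i) * G i`. Then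
`|F1(ζ)| = |Σ (c i - θ i) (G i)(ζ)| ≤ T Y^(-w)`, `|F1'(ζ) - M| ≤ Σ |c i - θ i| |(G i)'(ζ)| ≤ T L Y
= M/2`, so `|F1'(ζ)| ≥ M/2`, and `height F1 ≤ M max(1,|ζ|) + T Y ≤ 2 M max(1,|ζ|)`
(`H70W.height_le_of`). `C a * F = F1` with `F` irreducible of degree `n`,
`height F ≤ height F1 ≤ Y^(1+ε)` for large `Y` (`p^2 ≤ Y^(2δ)`).
`near_root` for `F1` (constant `K0`): `K0 (2 M max(1,|ζ|)) T Y^(-w) ≤ (M/2)^2` because
`M = 2 T L Y`, `Y^(-w) ≤ 1`, so it is enough that `8 K0 max(1,|ζ|) ≤ 2 L Y`: true for large `Y`. The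
root `α` of `F1` is a root of `F` and `|ζ - α| ≤ 2 |F1(ζ)| / |F1'(ζ)| ≤ 4 T Y^(-w) / M
= 2 Y^(-w-1) / L ≤ Y^(-w-1+ε)`.
-/

open Polynomial Filter

namespace Pool.Agent.Lib.H42W

theorem sp2_deriv_le (n : ℕ) (ζ : ℝ) {F : ℤ[X]} (hF : F.natDegree ≤ n) {h : ℝ} (h0 : 0 ≤ h)
    (hc : ∀ i, |(F.coeff i : ℝ)| ≤ h) :
    |aeval ζ (derivative F)| ≤ (((n : ℝ) + 1) ^ 2 * (max 1 |ζ|) ^ n) * h := by
  have hM1 : (1 : ℝ) ≤ max 1 |ζ| := le_max_left _ _
  rw [sp1_deriv hF]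
  calc |∑ i ∈ Finset.range (n + 1), (F.coeff i : ℝ) * (i * ζ ^ (i - 1))| ≤
        ∑ i ∈ Finset.range (n + 1), |(F.coeff i : ℝ) * (i * ζ ^ (i - 1))| :=
        Finset.abs_sum_le_sum_abs _ _
    _ ≤ ∑ i ∈ Finset.range (n + 1), h * (((n : ℝ) + 1) * (max 1 |ζ|) ^ n) := by
        refine Finset.sum_le_sum fun i hi => ?_
        have hi' : i < n + 1 := Finset.mem_range.1 hi
        rw [abs_mul, abs_mul, abs_pow, Nat.abs_cast]
        have h1 : (i : ℝ) ≤ (n : ℝ) + 1 := by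
          have : i ≤ n + 1 := hi'.le
          exact_mod_cast this
        have h2 : |ζ| ^ (i - 1) ≤ (max 1 |ζ|) ^ n := by
          calc |ζ| ^ (i - 1) ≤ (max 1 |ζ|) ^ (i - 1) :=
                pow_le_pow_left₀ (abs_nonneg _) (le_max_right _ _) _
            _ ≤ (max 1 |ζ|) ^ n := pow_le_pow_right₀ hM1 (by omega)
        exact mul_le_mul (hc i) (mul_le_mul h1 h2 (by positivity) (by positivity))
          (by positivity) h0
    _ = (((n : ℝ) + 1) ^ 2 * (max 1 |ζ|) ^ n) * h := by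
        rw [Finset.sum_const, Finset.card_range, nsmul_eq_mul]
        push_cast
        ring

theorem sp2_theta (n : ℕ) (hn : 1 ≤ n) (ζ M : ℝ) (G : Fin (n + 1) → ℤ[X])
    (hG : ∀ i, (G i).natDegree ≤ n)
    (hdet : (Matrix.of fun k l : Fin (n + 1) => (G k).coeff l).det ≠ 0) :
    ∃ θ : Fin (n + 1) → ℝ, ∑ i, θ i * aeval ζ (G i) = 0 ∧
      ∑ i, θ i * aeval ζ (derivative (G i)) = M ∧
      ∀ l, |∑ i, θ i * ((G i).coeff l : ℝ)| ≤ |M| * max 1 |ζ| := by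
  classical
  set A : Matrix (Fin (n + 1)) (Fin (n + 1)) ℝ :=
    Matrix.of fun k l : Fin (n + 1) => (((G k).coeff l : ℤ) : ℝ) with hA
  have hAdet : A.det ≠ 0 := by
    have h4 : (((Matrix.of fun k l : Fin (n + 1) => (G k).coeff l).det : ℤ) : ℝ) = A.det := by
      rw [Int.cast_det]
      rfl
    rw [← h4]
    exact_mod_cast hdet
  have hAu : IsUnit A.det := isUnit_iff_ne_zero.2 hAdet
  set b : ℕ → ℝ := fun l => if l = 0 then -(M * ζ) else if l = 1 then M else 0 with hb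
  set θ : Fin (n + 1) → ℝ := Matrix.vecMul (fun l : Fin (n + 1) => b l.1) A⁻¹ with hθ
  have hθA : Matrix.vecMul θ A = fun l : Fin (n + 1) => b l.1 := by
    rw [hθ, Matrix.vecMul_vecMul, Matrix.nonsing_inv_mul A hAu, Matrix.vecMul_one]
  have hsum : ∀ l, l < n + 1 → ∑ i, θ i * ((G i).coeff l : ℝ) = b l := by
    intro l hl
    have h1 := congrFun hθA ⟨l, hl⟩
    exact h1
  refine ⟨θ, ?_, ?_, ?_⟩
  · have h1 : ∑ i, θ i * aeval ζ (G i) =
        ∑ l ∈ Finset.range (n + 1), (∑ i, θ i * ((G i).coeff l : ℝ)) * ζ ^ l := by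
      simp_rw [sp1_aeval (hG _), Finset.mul_sum, Finset.sum_mul]
      rw [Finset.sum_comm]
      exact Finset.sum_congr rfl fun l _ => Finset.sum_congr rfl fun i _ => by ring
    rw [h1, Finset.sum_congr rfl fun l hl => by rw [hsum l (Finset.mem_range.1 hl)]]
    have h2 : n + 1 = (n - 1) + 1 + 1 := by omega
    rw [h2, Finset.sum_range_succ', Finset.sum_range_succ']
    have h3 : ∑ l ∈ Finset.range (n - 1), b (l + 1 + 1) * ζ ^ (l + 1 + 1) = 0 := by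
      refine Finset.sum_eq_zero fun l _ => ?_
      simp [hb]
    rw [h3]
    simp only [hb]
    norm_num
  · have h1 : ∑ i, θ i * aeval ζ (derivative (G i)) =
        ∑ l ∈ Finset.range (n + 1), (∑ i, θ i * ((G i).coeff l : ℝ)) * (l * ζ ^ (l - 1)) := by
      simp_rw [sp1_deriv (hG _), Finset.mul_sum, Finset.sum_mul]
      rw [Finset.sum_comm]
      exact Finset.sum_congr rfl fun l _ => Finset.sum_congr rfl fun i _ => by ring
    rw [h1, Finset.sum_congr rfl fun l hl => by rw [hsum l (Finset.mem_range.1 hl)]]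
    have h2 : n + 1 = (n - 1) + 1 + 1 := by omega
    rw [h2, Finset.sum_range_succ', Finset.sum_range_succ']
    have h3 : ∑ l ∈ Finset.range (n - 1), b (l + 1 + 1) * (((l + 1 + 1 : ℕ) : ℝ) *
        ζ ^ (l + 1 + 1 - 1)) = 0 := by
      refine Finset.sum_eq_zero fun l _ => ?_
      simp [hb]
    rw [h3]
    simp only [hb]
    norm_num
  · intro l
    have hM1 : (1 : ℝ) ≤ max 1 |ζ| := le_max_left _ _
    have hMz : |ζ| ≤ max 1 |ζ| := le_max_right _ _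
    have hM0 := abs_nonneg M
    by_cases hl : l < n + 1
    · rw [hsum l hl]
      simp only [hb]
      split_ifs
      · rw [abs_neg, abs_mul]
        exact mul_le_mul_of_nonneg_left hMz hM0
      · nlinarith
      · rw [abs_zero]
        positivity
    · have h4 : ∀ i, (G i).coeff l = 0 := fun i =>
        coeff_eq_zero_of_natDegree_lt (by have := hG i; omega)
      simp only [h4, Int.cast_zero, mul_zero, Finset.sum_const_zero, abs_zero]
      positivity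

theorem sp2_round (p : ℕ) (hp : 0 < p) (x : ℝ) (c0 : ℤ) :
    ∃ c : ℤ, c ≡ c0 [ZMOD (p : ℤ) ^ 2] ∧ |(c : ℝ) - x| ≤ (p : ℝ) ^ 2 := by
  have hp' : (0 : ℝ) < (p : ℝ) ^ 2 := by positivity
  refine ⟨c0 + (p : ℤ) ^ 2 * round ((x - c0) / (p : ℝ) ^ 2), ?_, ?_⟩
  · refine (Int.modEq_iff_dvd.2 ?_)
    refine ⟨-round ((x - c0) / (p : ℝ) ^ 2), by ring⟩
  · have h1 := abs_sub_round ((x - c0) / (p : ℝ) ^ 2)
    have h2 : (((c0 + (p : ℤ) ^ 2 * round ((x - c0) / (p : ℝ) ^ 2) : ℤ)) : ℝ) - x =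
        -((p : ℝ) ^ 2 * ((x - c0) / (p : ℝ) ^ 2 - round ((x - c0) / (p : ℝ) ^ 2))) := by
      push_cast
      field_simp
      ring
    rw [h2, abs_neg, abs_mul, abs_of_pos hp']
    nlinarith

theorem sp2_det (n : ℕ) (K' Y : ℝ) (hY : 0 < Y) (G : Fin (n + 1) → ℤ[X])
    (hGh : ∀ i l, |((G i).coeff l : ℝ)| ≤ K' * Y)
    (hY2 : ((n + 1).factorial : ℝ) * K' ^ (n + 1) ≤ Y) :
    |(((Matrix.of fun k l : Fin (n + 1) => (G k).coeff l).det : ℤ) : ℝ)| ≤
      Y ^ ((n : ℝ) + 2) := by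
  have h4 : (((Matrix.of fun k l : Fin (n + 1) => (G k).coeff l).det : ℤ) : ℝ) =
      (Matrix.of fun k l : Fin (n + 1) => (((G k).coeff l : ℤ) : ℝ)).det := by
    rw [Int.cast_det]
    rfl
  rw [h4]
  have h5 := Matrix.det_le (A := Matrix.of fun k l : Fin (n + 1) => (((G k).coeff l : ℤ) : ℝ))
    (abv := AbsoluteValue.abs) (x := K' * Y) (fun i j => hGh i j)
  rw [Fintype.card_fin, nsmul_eq_mul, mul_pow] at h5
  refine (h5).trans ?_
  have h6 : Y ^ ((n : ℝ) + 2) = Y * Y ^ (n + 1) := by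
    have : (n : ℝ) + 2 = ((n + 2 : ℕ) : ℝ) := by push_cast; ring
    rw [this, Real.rpow_natCast]
    ring
  rw [h6, ← mul_assoc]
  exact mul_le_mul_of_nonneg_right hY2 (by positivity)

/-- A weighted sum with close weights. -/
theorem sp2_sum (n : ℕ) (c θ g : Fin (n + 1) → ℝ) (q B s : ℝ) (hq : 0 ≤ q)
    (hc : ∀ i, |c i - θ i| ≤ q) (hg : ∀ i, |g i| ≤ B) (hs : ∑ i, θ i * g i = s) :
    |∑ i, c i * g i - s| ≤ ((n : ℝ) + 1) * q * B := by
  have h1 : ∑ i, c i * g i - s = ∑ i, (c i - θ i) * g i := by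
    rw [← hs, ← Finset.sum_sub_distrib]
    exact Finset.sum_congr rfl fun i _ => by ring
  rw [h1]
  calc |∑ i, (c i - θ i) * g i| ≤ ∑ i, |(c i - θ i) * g i| := Finset.abs_sum_le_sum_abs _ _
    _ ≤ ∑ i : Fin (n + 1), q * B := by
        refine Finset.sum_le_sum fun i _ => ?_
        rw [abs_mul]
        exact mul_le_mul (hc i) (hg i) (abs_nonneg _) hq
    _ = ((n : ℝ) + 1) * q * B := by
        rw [Finset.sum_const, Finset.card_univ, Fintype.card_fin, nsmul_eq_mul]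
        push_cast
        ring

theorem star_of_span (n : ℕ) (hn : 1 ≤ n) (ζ K w ε : ℝ) (hw : 0 ≤ w) (hε : 0 < ε) :
    ∀ᶠ Y : ℝ in atTop, ∀ G : Fin (n + 1) → ℤ[X], (∀ i, (G i).natDegree ≤ n) →
      (∀ i, (H70W.height (G i) : ℝ) ≤ K * Y) → (∀ i, |aeval ζ (G i)| ≤ K * Y ^ (-w)) →
      (Matrix.of fun k l : Fin (n + 1) => (G k).coeff l).det ≠ 0 →
      ∃ (F : ℤ[X]) (α : ℝ), Irreducible F ∧ F.natDegree = n ∧ aeval α F = 0 ∧
        (H70W.height F : ℝ) ≤ Y ^ (1 + ε) ∧ |ζ - α| ≤ Y ^ (-w - 1 + ε) := by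
  set K' : ℝ := max K 1 with hK'
  have hK0 : 0 < K' := lt_of_lt_of_le one_pos (le_max_right _ _)
  have hδ : 0 < ε / 8 := by linarith
  obtain ⟨K0, hK01, hroot⟩ := near_root n ζ
  set M1 : ℝ := max 1 |ζ| with hM1def
  have hM1 : (1 : ℝ) ≤ M1 := le_max_left _ _
  set L : ℝ := ((n : ℝ) + 1) ^ 2 * M1 ^ n with hL
  have hL1 : 1 ≤ L := by
    have h1 : (1 : ℝ) ≤ ((n : ℝ) + 1) ^ 2 := by
      have : (0 : ℝ) ≤ n := Nat.cast_nonneg _
      nlinarith
    have h2 : (1 : ℝ) ≤ M1 ^ n := one_le_pow₀ hM1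
    nlinarith
  have h1 := H70W.exists_prime ((n : ℝ) + 2) (ε / 8) hδ
  have h2 : ∀ᶠ Y : ℝ in atTop, ((n + 1).factorial : ℝ) * K' ^ (n + 1) ≤ Y :=
    eventually_ge_atTop _
  have h3 : ∀ᶠ Y : ℝ in atTop, 4 * ((n : ℝ) + 1) * K' * L * M1 ≤ Y ^ (ε / 8) :=
    (tendsto_rpow_atTop hδ).eventually_ge_atTop _
  have h4 : ∀ᶠ Y : ℝ in atTop, (2 : ℝ) ≤ Y ^ ε :=
    (tendsto_rpow_atTop hε).eventually_ge_atTop _
  have h5 : ∀ᶠ Y : ℝ in atTop, 4 * K0 * M1 ≤ Y := eventually_ge_atTop _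
  filter_upwards [h1, h2, h3, h4, h5, eventually_ge_atTop 1] with Y hY1 hY2 hY3 hY4 hY5 hY0 G hG
    hGh hGz hdet
  have hYpos : 0 < Y := lt_of_lt_of_le one_pos hY0
  have hGh' : ∀ i l, |((G i).coeff l : ℝ)| ≤ K' * Y := fun i l =>
    (H70W.abs_coeff_le_height _ _).trans ((hGh i).trans
      (mul_le_mul_of_nonneg_right (le_max_left _ _) hYpos.le))
  have hYw0 : 0 ≤ Y ^ (-w) := Real.rpow_nonneg hYpos.le _
  have hYw1 : Y ^ (-w) ≤ 1 := Real.rpow_le_one_of_one_le_of_nonpos hY0 (by linarith)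
  have hGz' : ∀ i, |aeval ζ (G i)| ≤ K' * Y ^ (-w) := fun i =>
    (hGz i).trans (mul_le_mul_of_nonneg_right (le_max_left _ _) hYw0)
  have hdetle := sp2_det n K' Y hYpos G hGh' hY2
  obtain ⟨p, hp, hpY, hpd⟩ := hY1 _ hdet hdetle
  obtain ⟨c0, hc0⟩ := comb_irred n hn G hG p hp hpd
  have hp1 : (1 : ℝ) ≤ (p : ℝ) ^ 2 := by
    have h6 : (1 : ℝ) ≤ (p : ℝ) := by exact_mod_cast hp.one_lt.le
    exact one_le_pow₀ h6
  have hp2 : ((p : ℝ)) ^ 2 ≤ Y ^ (2 * (ε / 8)) := by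
    have h4 : (0 : ℝ) ≤ p := Nat.cast_nonneg _
    calc (p : ℝ) ^ 2 ≤ (Y ^ (ε / 8)) ^ 2 := pow_le_pow_left₀ h4 hpY 2
      _ = Y ^ (2 * (ε / 8)) := by
        rw [← Real.rpow_natCast, ← Real.rpow_mul hYpos.le]
        congr 1
        push_cast
        ring
  set T : ℝ := ((n : ℝ) + 1) * (p : ℝ) ^ 2 * K' with hT
  have hTpos : 0 < T := by positivity
  set M : ℝ := 2 * T * L * Y with hM
  have hMpos : 0 < M := by positivity
  obtain ⟨θ, hθ0, hθ1, hθc⟩ := sp2_theta n hn ζ M G hG hdet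
  choose c hcm hcθ using fun i => sp2_round p hp.pos (θ i) (c0 i)
  obtain ⟨a, F, hF, hFd, ha, haF⟩ := hc0 c hcm
  have hq : (0 : ℝ) ≤ (p : ℝ) ^ 2 := by positivity
  set F1 : ℤ[X] := ∑ i, C (c i) * G i with hF1
  have hF1d : F1.natDegree ≤ n := by
    refine natDegree_sum_le_of_forall_le _ _ (fun k _ => ?_)
    exact (natDegree_C_mul_le _ _).trans (hG k)
  -- the value
  have hval : |aeval ζ F1| ≤ T * Y ^ (-w) := by
    have h6 : aeval ζ F1 = ∑ i, (c i : ℝ) * aeval ζ (G i) := by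
      rw [hF1, map_sum]
      exact Finset.sum_congr rfl fun i _ => by simp
    have h7 := sp2_sum n (fun i => (c i : ℝ)) θ (fun i => aeval ζ (G i)) ((p : ℝ) ^ 2)
      (K' * Y ^ (-w)) 0 hq hcθ hGz' hθ0
    rw [sub_zero, ← h6] at h7
    calc |aeval ζ F1| ≤ ((n : ℝ) + 1) * (p : ℝ) ^ 2 * (K' * Y ^ (-w)) := h7
      _ = T * Y ^ (-w) := by rw [hT]; ring
  -- the derivative
  have hder : |aeval ζ (derivative F1) - M| ≤ M / 2 := by
    have h6 : aeval ζ (derivative F1) = ∑ i, (c i : ℝ) * aeval ζ (derivative (G i)) := by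
      rw [hF1, derivative_sum, map_sum]
      exact Finset.sum_congr rfl fun i _ => by rw [derivative_C_mul]; simp
    have h7 := sp2_sum n (fun i => (c i : ℝ)) θ (fun i => aeval ζ (derivative (G i)))
      ((p : ℝ) ^ 2) (L * (K' * Y)) M hq hcθ
      (fun i => sp2_deriv_le n ζ (hG i) (by positivity) (hGh' i)) hθ1
    rw [← h6] at h7
    calc |aeval ζ (derivative F1) - M| ≤ ((n : ℝ) + 1) * (p : ℝ) ^ 2 * (L * (K' * Y)) := h7
      _ = M / 2 := by rw [hM, hT]; ring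
  have hder' : M / 2 ≤ |aeval ζ (derivative F1)| := by
    have h6 := (abs_le.1 hder).1
    have h7 := le_abs_self (aeval ζ (derivative F1))
    linarith
  have hder0 : aeval ζ (derivative F1) ≠ 0 := by
    intro h
    rw [h, abs_zero] at hder'
    linarith
  -- the coefficients
  have hcoef : ∀ l, |(F1.coeff l : ℝ)| ≤ 2 * M * M1 := by
    intro l
    have h6 : (F1.coeff l : ℝ) = ∑ i, (c i : ℝ) * ((G i).coeff l : ℝ) := by
      rw [hF1, finsetSum_coeff]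
      simp only [coeff_C_mul]
      push_cast
      rfl
    have h7 := sp2_sum n (fun i => (c i : ℝ)) θ (fun i => ((G i).coeff l : ℝ))
      ((p : ℝ) ^ 2) (K' * Y) _ hq hcθ (fun i => hGh' i l) rfl
    rw [← h6] at h7
    have h8 := hθc l
    rw [abs_of_pos hMpos] at h8
    have h9 : |(F1.coeff l : ℝ)| ≤ |(F1.coeff l : ℝ) - ∑ i, θ i * ((G i).coeff l : ℝ)| +
        |∑ i, θ i * ((G i).coeff l : ℝ)| := by
      have := abs_add_le ((F1.coeff l : ℝ) - ∑ i, θ i * ((G i).coeff l : ℝ))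
        (∑ i, θ i * ((G i).coeff l : ℝ))
      rwa [sub_add_cancel] at this
    have h10 : ((n : ℝ) + 1) * (p : ℝ) ^ 2 * (K' * Y) ≤ M * M1 := by
      have h11 : ((n : ℝ) + 1) * (p : ℝ) ^ 2 * (K' * Y) = T * Y := by rw [hT]; ring
      have h12 : T * Y ≤ M := by
        have h13 : 0 < T * Y := by positivity
        have h14 : M = 2 * L * (T * Y) := by rw [hM]; ring
        rw [h14]
        nlinarith
      rw [h11]
      nlinarith
    have h15 : M * max 1 |ζ| = M * M1 := rfl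
    linarith
  have hH1 : (H70W.height F1 : ℝ) ≤ 2 * M * M1 :=
    H70W.height_le_of (by positivity) hcoef
  -- the root
  have hcond : K0 * (H70W.height F1 : ℝ) * |aeval ζ F1| ≤ |aeval ζ (derivative F1)| ^ 2 := by
    have h6 : K0 * (H70W.height F1 : ℝ) * |aeval ζ F1| ≤ K0 * (2 * M * M1) * (T * Y ^ (-w)) :=
      mul_le_mul (mul_le_mul_of_nonneg_left hH1 (by linarith)) hval (abs_nonneg _)
        (by positivity)
    have h7 : K0 * (2 * M * M1) * (T * Y ^ (-w)) ≤ (M / 2) ^ 2 := by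
      have h8 : 4 * K0 * M1 * Y ^ (-w) ≤ L * Y := by
        have h9 : 4 * K0 * M1 * Y ^ (-w) ≤ Y * 1 :=
          mul_le_mul hY5 hYw1 hYw0 hYpos.le
        nlinarith
      calc K0 * (2 * M * M1) * (T * Y ^ (-w)) = M * T / 2 * (4 * K0 * M1 * Y ^ (-w)) := by ring
        _ ≤ M * T / 2 * (L * Y) := mul_le_mul_of_nonneg_left h8 (by positivity)
        _ = (M / 2) ^ 2 := by rw [hM]; ring
    have h8 : (M / 2) ^ 2 ≤ |aeval ζ (derivative F1)| ^ 2 :=
      pow_le_pow_left₀ (by positivity) hder' 2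
    linarith
  obtain ⟨α, hα, hαz⟩ := hroot F1 hF1d hder0 hcond
  refine ⟨F, α, hF, hFd, ?_, ?_, ?_⟩
  · rw [← haF, map_mul, aeval_C] at hα
    rcases mul_eq_zero.1 hα with h6 | h6
    · exfalso
      apply ha
      simpa using h6
    · exact h6
  · refine H70W.height_le_of (Real.rpow_nonneg hYpos.le _) (fun l => ?_)
    have ha1 : (1 : ℝ) ≤ |(a : ℝ)| := by
      have : (1 : ℤ) ≤ |a| := Int.one_le_abs ha
      exact_mod_cast this
    have h6 : (a : ℝ) * (F.coeff l : ℝ) = (F1.coeff l : ℝ) := by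
      rw [← haF, coeff_C_mul]
      push_cast
      rfl
    calc |(F.coeff l : ℝ)| ≤ |(a : ℝ)| * |(F.coeff l : ℝ)| := by
          have := abs_nonneg (F.coeff l : ℝ)
          nlinarith
      _ = |(F1.coeff l : ℝ)| := by rw [← abs_mul, h6]
      _ ≤ 2 * M * M1 := hcoef l
      _ = (4 * ((n : ℝ) + 1) * K' * L * M1) * (p : ℝ) ^ 2 * Y := by rw [hM, hT]; ring
      _ ≤ Y ^ (ε / 8) * Y ^ (2 * (ε / 8)) * Y := by gcongr
      _ = Y ^ (ε / 8 + 2 * (ε / 8) + 1) := by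
          rw [Real.rpow_add hYpos, Real.rpow_add hYpos, Real.rpow_one]
      _ ≤ Y ^ (1 + ε) := Real.rpow_le_rpow_of_exponent_le hY0 (by linarith)
  · have h6 : |ζ - α| * (M / 2) ≤ 2 * (T * Y ^ (-w)) := by
      calc |ζ - α| * (M / 2) ≤ |ζ - α| * |aeval ζ (derivative F1)| :=
            mul_le_mul_of_nonneg_left hder' (abs_nonneg _)
        _ ≤ 2 * |aeval ζ F1| := hαz
        _ ≤ 2 * (T * Y ^ (-w)) := by linarith
    have h7 : T * (|ζ - α| * Y) ≤ T * (2 * Y ^ (-w)) := by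
      have h8 : |ζ - α| * (M / 2) = L * (T * (|ζ - α| * Y)) := by rw [hM]; ring
      have h9 : 0 ≤ T * (|ζ - α| * Y) := by positivity
      have h10 : T * (|ζ - α| * Y) ≤ L * (T * (|ζ - α| * Y)) := by nlinarith
      calc T * (|ζ - α| * Y) ≤ |ζ - α| * (M / 2) := by rw [h8]; exact h10
        _ ≤ 2 * (T * Y ^ (-w)) := h6
        _ = T * (2 * Y ^ (-w)) := by ring
    have h8 : |ζ - α| * Y ≤ 2 * Y ^ (-w) := le_of_mul_le_mul_left h7 hTpos
    have h9 : |ζ - α| * Y ≤ Y ^ (-w - 1 + ε) * Y := by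
      have h10 : Y ^ (-w - 1 + ε) * Y = Y ^ ε * Y ^ (-w) := by
        rw [← Real.rpow_add hYpos]
        nth_rewrite 2 [← Real.rpow_one Y]
        rw [← Real.rpow_add hYpos]
        congr 1
        ring
      rw [h10]
      exact h8.trans (mul_le_mul_of_nonneg_right hY4 hYw0)
    exact le_of_mul_le_mul_right h9 hYpos

end Pool.Agent.Lib.H42W
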