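import Pool.Agent.Lib.H42W.SP2

/-!
# Chunk SP3 (S)
If `ζ` has no close algebraic numbers of degree `n` (exponent `ω`), polynomials with exponent
`w > ω` do not span.

Proof. `ε > 0` with `ε (3 + ω) ≤ w - ω` (e.g. `ε = (w - ω) / (3 + ω)`); `star_of_span` gives `Y1`;
let `Y ≥ max 1 X0 Y1`. If the determinant is not 0 there are `F, α`. Put `X = Y^(1+ε) ≥ Y ≥ X0`.
`NoStar`: `(height F)⁻¹ X^(-ω) < |ζ - α| ≤ Y^(-w-1+ε)`. As `F` is irreducible of degree `n ≥ 1`,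
`height F ≥ 1`, and `(height F)⁻¹ ≥ Y^(-(1+ε))`, so the left side is at least
`Y^(-(1+ε)(1+ω)) ≥ Y^(-w-1+ε)` because `(1+ε)(1+ω) + ε ≤ 1 + w`: contradiction.
-/

open Polynomial Filter

namespace Pool.Agent.Lib.H42W

theorem no_span (n : ℕ) (hn : 1 ≤ n) (ζ ω X0 K w : ℝ) (hω : 0 ≤ ω) (hw : ω < w)
    (hno : NoStar n ζ ω X0) :
    ∃ Y0 : ℝ, ∀ Y : ℝ, Y0 ≤ Y → ∀ G : Fin (n + 1) → ℤ[X], (∀ i, (G i).natDegree ≤ n) →
      (∀ i, (H70W.height (G i) : ℝ) ≤ K * Y) → (∀ i, |aeval ζ (G i)| ≤ K * Y ^ (-w)) →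
      (Matrix.of fun k l : Fin (n + 1) => (G k).coeff l).det = 0 := by
  have hw0 : 0 ≤ w := hω.trans hw.le
  set ε : ℝ := (w - ω) / (3 + ω) with hεdef
  have h3 : 0 < 3 + ω := by linarith
  have hε : 0 < ε := div_pos (by linarith) h3
  have hεm : ε * (3 + ω) = w - ω := by rw [hεdef]; field_simp
  obtain ⟨Y1, hY1⟩ := Filter.eventually_atTop.1 (star_of_span n hn ζ K w ε hw0 hε)
  refine ⟨max (max 1 X0) Y1, fun Y hY G hG hH hV => ?_⟩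
  have hYa : max 1 X0 ≤ Y := (le_max_left _ _).trans hY
  have hYb : Y1 ≤ Y := (le_max_right _ _).trans hY
  have hYc : 1 ≤ Y := (le_max_left _ _).trans hYa
  have hYd : X0 ≤ Y := (le_max_right _ _).trans hYa
  have hYpos : 0 < Y := by linarith
  by_contra hdet
  obtain ⟨F, α, hF, hFd, hFα, hFh, hα⟩ := hY1 Y hYb G hG hH hV hdet
  have hXY : Y ≤ Y ^ (1 + ε) := by
    calc Y = Y ^ (1 : ℝ) := (Real.rpow_one Y).symm
      _ ≤ Y ^ (1 + ε) := Real.rpow_le_rpow_of_exponent_le hYc (by linarith)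
  have hlt := hno (Y ^ (1 + ε)) α F (hYd.trans hXY) hF hFd hFα hFh
  have hXpos : 0 < Y ^ (1 + ε) := Real.rpow_pos_of_pos hYpos _
  have hh1 : (1 : ℝ) ≤ H70W.height F := by
    have h1 : F.leadingCoeff ≠ 0 := leadingCoeff_ne_zero.2 hF.ne_zero
    have h2 : (1 : ℤ) ≤ |F.leadingCoeff| := Int.one_le_abs h1
    have h3 : (1 : ℝ) ≤ |(F.leadingCoeff : ℝ)| := by exact_mod_cast h2
    exact h3.trans (H70W.abs_coeff_le_height F F.natDegree)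
  have hinv : (Y ^ (1 + ε))⁻¹ ≤ (H70W.height F : ℝ)⁻¹ :=
    inv_anti₀ (by linarith) hFh
  have hpw : 0 ≤ (Y ^ (1 + ε)) ^ (-ω) := (Real.rpow_pos_of_pos hXpos _).le
  have hA : (Y ^ (1 + ε))⁻¹ * (Y ^ (1 + ε)) ^ (-ω) ≤ (H70W.height F : ℝ)⁻¹ * (Y ^ (1 + ε)) ^ (-ω) :=
    mul_le_mul_of_nonneg_right hinv hpw
  have hB : (Y ^ (1 + ε))⁻¹ * (Y ^ (1 + ε)) ^ (-ω) = Y ^ (-((1 + ε) * (1 + ω))) := by
    rw [← Real.rpow_neg hYpos.le, ← Real.rpow_mul hYpos.le, ← Real.rpow_add hYpos]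
    apply congrArg
    ring
  have hC : Y ^ (-w - 1 + ε) ≤ Y ^ (-((1 + ε) * (1 + ω))) :=
    Real.rpow_le_rpow_of_exponent_le hYc (by nlinarith)
  linarith

end Pool.Agent.Lib.H42W
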