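import Pool.Agent.Lib.H42W.Defs
import Pool.Agent.Lib.H42V.FU

/-!
# Chunk SU (M; adapt `H42V.upper`, file `Lib/H42V/FU.lean`)
The upper bound for the star exponent of the numbers `ζ` of `H42V.exists_zeta`.

Proof. `root_dist`: `tc α (rv (pk n g)) 0 = 0` means `(q' α - p')^n = 2 (p - q α)^n` (the value formula of `pk`, see
`H42V/PK1.lean`, `PK2.lean`), so `|q' α - p'| = a0 |p - q α|`, `a0 = 2^(1/n)`. If `q' α - p' = a0 (p - q α)` then
`α = al n g` and `|ζ - α| ≥ Yy n w g` by `hζ`. Otherwise `q' α - p' = - a0 (p - q α)`, `α (q' - a0 q) = p' - a0 p`; for `n = 1`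
(`a0 = 2`) the equation `q' α - p' = 2 (p - q α)` has no sign ambiguity (do it first); for `n ≥ 2` `a0 ≤ 3/2`,
`q' - a0 q ≥ q/2 > 0` and `al - α = 2 a0 (p q' - p' q)/((q a0 + q')(q' - q a0)) ≥ 2 / (9 q^2)` (in absolute value;
`q' ≤ 3 q`, `(q' + q a0)(q' - q a0) ≤ q'^2 ≤ 9 q^2`). `hq20` gives `20 Y q^2 ≤ q^n q^2... `: precisely
`Yy n w g = q^(-(n w - n + 2)) = q^(-2) q^(-(n (w-1))) ≤ q^(-2)/20`, so `|ζ - α| ≥ 2/(9 q^2) - 2 Y ≥ Y`.
`star_upper`: let `x ∈ StarSet`, suppose `w < x`, `d = (x - w)/3`. For arbitrarily large `X` there are `α, P` with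
`0 < |ζ - α| ≤ height(P)⁻¹ X^(-x)`, `height P ≤ X`. With `k` as in `upper` and `v` the vector of `P`: `|v l| ≤ X`. If `v` is not a multiple
of `pk_k`: `|P(ζ)| = |P(ζ) - P(α)| ≤ C height(P) |ζ - α| ≤ C X^(-x)` (`|ζ - α| ≤ 1`, `C = C(n, ζ)`: mean value theorem or
`ζ^i - α^i = (ζ - α) Σ`), against `hmain`: `X^(-(n + 1/(k+1)))/2 ≤ C X^(-x)` is false for large `X` (`x - n ≥ 3 d`). If
`v` is a multiple of `pk_k` (`m • pk`, `m ≠ 0`): `α` is a root of `pk_k`, `Y ≤ |ζ - α| ≤ height(P)⁻¹ X^(-x)` and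
`X ≥ height P ≥ q_k^n` (`mul_pk`), so `q_k^(-(n ws_k - n + 2)) ≤ (q_k^n)^(-1-x)`, i.e. `n (1 + x) ≤ n ws_k - n + 2`
(`q_k ≥ 2`), `x ≤ ws_k - 2 + 2/n ≤ w + d` for large `k`: contradiction.
-/

open Polynomial MeasureTheory Set Filter

namespace Pool.Agent.Lib.H42W

open Pool.Agent.Lib.H42V

private theorem su_a0lt (n : ℕ) (hn : 2 ≤ n) : a0 n < 2 := by
  obtain ⟨h1, h2, h3⟩ := a0_props n (by omega)
  by_contra hc
  push Not at hc
  have h4 : (4 : ℝ) ≤ a0 n ^ n := by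
    calc (4 : ℝ) = 2 ^ 2 := by norm_num
      _ ≤ 2 ^ n := pow_le_pow_right₀ (by norm_num) hn
      _ ≤ a0 n ^ n := pow_le_pow_left₀ (by norm_num) hc n
  linarith

theorem root_dist (n : ℕ) (hn : 1 ≤ n) (g : Mo) (hg : g.Ok) (w ζ α : ℝ) (hw : 1 ≤ w)
    (hq : 20 ≤ (g.q : ℝ) ^ (n * (w - 1))) (hζ : ζ ∈ Jj n w g)
    (hα : tc α (rv (pk n g)) 0 = 0) : Yy n w g ≤ |ζ - α| := by
  obtain ⟨h1, h2, h3, h4, h5, h6, h7⟩ := pk1_real g hg
  obtain ⟨_, _, hk⟩ := pk1_kap n hn g hg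
  obtain ⟨ha, ha1, ha2⟩ := a0_props n hn
  have hY := hζ.1
  rw [pk1_eval] at hα
  have hpow : ((g.q' : ℝ) * α - g.p') ^ n = (a0 n * (g.p - g.q * α)) ^ n := by
    rw [mul_pow, ha]; linarith
  have hab : |(g.q' : ℝ) * α - g.p'| = |a0 n * (g.p - g.q * α)| := by
    refine (pow_left_inj₀ (abs_nonneg _) (abs_nonneg _) (by omega : n ≠ 0)).1 ?_
    rw [← abs_pow, ← abs_pow, hpow]
  have hcase : (g.q' : ℝ) * α - g.p' = a0 n * (g.p - g.q * α) ∨
      (2 ≤ n ∧ (g.q' : ℝ) * α - g.p' = -(a0 n * (g.p - g.q * α))) := by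
    rcases eq_or_lt_of_le hn with h8 | h8
    · left
      rw [← h8, pow_one, pow_one] at hpow
      rw [← h8]
      exact hpow
    · rcases abs_eq_abs.1 hab with h9 | h9
      · exact Or.inl h9
      · exact Or.inr ⟨h8, h9⟩
  have hal : al n g * (g.q * a0 n + g.q') = g.p * a0 n + g.p' := by
    unfold al
    exact div_mul_cancel₀ _ hk.ne'
  have hle : α ≤ al n g := by
    rcases hcase with h8 | ⟨h8, h9⟩
    · have h10 : α * (g.q * a0 n + g.q') = al n g * (g.q * a0 n + g.q') := by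
        rw [hal]; linarith
      exact (mul_right_cancel₀ hk.ne' h10).le
    · have h10 := su_a0lt n h8
      have h11 : 0 < (g.q' : ℝ) - g.q * a0 n := by nlinarith
      have h12 : α * (g.q' - g.q * a0 n) = g.p' - g.p * a0 n := by linarith
      have h13 : (al n g - α) * ((g.q * a0 n + g.q') * (g.q' - g.q * a0 n)) = 2 * a0 n := by
        have e1 : (al n g - α) * ((g.q * a0 n + g.q') * (g.q' - g.q * a0 n)) =
          al n g * (g.q * a0 n + g.q') * (g.q' - g.q * a0 n) -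
            α * (g.q' - g.q * a0 n) * (g.q * a0 n + g.q') := by ring
        rw [e1, hal, h12]
        linear_combination (2 * a0 n) * h3
      have h14 : 0 < (al n g - α) := by
        have h15 : 0 < (al n g - α) * ((g.q * a0 n + g.q') * (g.q' - g.q * a0 n)) := by
          rw [h13]; linarith
        exact pos_of_mul_pos_left h15 (mul_pos hk h11).le
      linarith
  refine le_trans ?_ (le_abs_self _)
  linarith

private theorem su_val {n : ℕ} (P : ℤ[X]) (hP : P.natDegree ≤ n) (ζ α : ℝ) (hα : aeval α P = 0)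
    (hd : |ζ - α| ≤ 1) : |aeval ζ P| ≤ ((n + 1) * (n * (|ζ| + 1) ^ n)) * ((H70W.height P : ℝ) * |ζ - α|) := by
  have hR : (1 : ℝ) ≤ |ζ| + 1 := by linarith [abs_nonneg ζ]
  have hαR : |α| ≤ |ζ| + 1 := by
    have : |α| ≤ |ζ| + |ζ - α| := by
      have h := abs_sub ζ (ζ - α)
      rwa [sub_sub_cancel] at h
    linarith
  have e1 : aeval ζ P = aeval ζ P - aeval α P := by rw [hα, sub_zero]
  rw [e1, ← vec_eval P hP ζ, ← vec_eval P hP α, tc_val, tc_val, ← Finset.sum_sub_distrib]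
  refine (Finset.abs_sum_le_sum_abs _ _).trans ?_
  have hterm : ∀ l ∈ (Finset.univ : Finset (Fin (n + 1))),
      |ζ ^ (l : ℕ) * rv (fun l : Fin (n + 1) => P.coeff (l : ℕ)) l -
        α ^ (l : ℕ) * rv (fun l : Fin (n + 1) => P.coeff (l : ℕ)) l| ≤
        (n * (|ζ| + 1) ^ n) * ((H70W.height P : ℝ) * |ζ - α|) := by
    intro l _
    rw [← sub_mul, abs_mul]
    have h1 : |rv (fun l : Fin (n + 1) => P.coeff (l : ℕ)) l| ≤ (H70W.height P : ℝ) := coeff_le_height P l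
    have h2 : |ζ ^ (l : ℕ) - α ^ (l : ℕ)| ≤ |ζ - α| * (n * (|ζ| + 1) ^ n) := by
      refine (abs_pow_sub_pow_le ζ α (l : ℕ)).trans ?_
      have h3 : ((l : ℕ) : ℝ) ≤ n := by exact_mod_cast Nat.lt_succ_iff.1 l.2
      have h4 : max |ζ| |α| ^ ((l : ℕ) - 1) ≤ (|ζ| + 1) ^ n := by
        refine (pow_le_pow_left₀ (le_max_of_le_left (abs_nonneg _)) (max_le (by linarith) hαR) _).trans ?_
        exact pow_le_pow_right₀ hR (by omega)
      rw [mul_assoc]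
      gcongr
    calc |ζ ^ (l : ℕ) - α ^ (l : ℕ)| * |rv (fun l : Fin (n + 1) => P.coeff (l : ℕ)) l| ≤
        (|ζ - α| * (n * (|ζ| + 1) ^ n)) * (H70W.height P : ℝ) := by gcongr
      _ = _ := by ring
  refine (Finset.sum_le_card_nsmul _ _ _ hterm).trans ?_
  rw [Finset.card_univ, Fintype.card_fin, nsmul_eq_mul]
  push_cast
  exact le_of_eq (by ring)

theorem star_upper (n : ℕ) (hn : 1 ≤ n) (ζ w : ℝ) (hw : n ≤ w) (ws : ℕ → ℝ) (hws : ∀ k, 1 ≤ ws k)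
    (hlim : Tendsto ws atTop (nhds (w + 2 - 2 / n))) (g : ℕ → Mo) (hg : ∀ k, (g k).Ok)
    (hq : ∀ k : ℕ, (k : ℤ) + 2 ≤ (g k).q)
    (hq20 : ∀ k, 20 ≤ ((g k).q : ℝ) ^ (n * (ws k - 1))) (hmono : ∀ k, (g k).q < (g (k + 1)).q)
    (hJ : ∀ k, ζ ∈ Jj n (ws k) (g k))
    (hmain : ∀ (k : ℕ) (X : ℝ), ((g k).q : ℝ) ^ (1 / ((n : ℝ) + 1)) ≤ X →
      X ≤ ((g (k + 1)).q : ℝ) ^ (1 / ((n : ℝ) + 1)) → ∀ v : Fin (n + 1) → ℤ, ¬ Mul v (pk n (g k)) →
        (∀ l, |(v l : ℝ)| ≤ X) → X ^ (-(n + 1 / ((k : ℝ) + 1))) / 2 ≤ |tc ζ (rv v) 0|) (x : ℝ)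
    (hx : x ∈ StarSet n ζ) : x ≤ w := by
  by_contra hcon
  push Not at hcon
  obtain ⟨d, hd⟩ : ∃ d, d = (x - w) / 3 := ⟨_, rfl⟩
  have hd0 : 0 < d := by rw [hd]; linarith
  have hxw : x = w + 3 * d := by rw [hd]; ring
  have hn0 : (1 : ℝ) ≤ n := by exact_mod_cast hn
  -- large indices
  have e1 : ∀ᶠ k in atTop, ws k < w + 2 - 2 / n + d := hlim.eventually_lt_const (by linarith)
  have e2 : ∀ᶠ k : ℕ in atTop, 1 / ((k : ℝ) + 1) < d :=
    tendsto_one_div_add_atTop_nhds_zero_nat.eventually_lt_const hd0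
  obtain ⟨K, hK⟩ := (e1.and e2).exists_forall_of_atTop
  obtain ⟨C, hC⟩ : ∃ C : ℝ, C = (n + 1) * (n * (|ζ| + 1) ^ n) := ⟨_, rfl⟩
  have hC0 : 0 ≤ C := by rw [hC]; positivity
  -- large numbers
  have e3 : ∀ᶠ X : ℝ in atTop, 2 * C < X ^ d :=
    (tendsto_rpow_atTop hd0).eventually_gt_atTop _
  have e4 : ∀ᶠ X : ℝ in atTop, 1 ≤ X ∧ ((g K).q : ℝ) ^ (1 / ((n : ℝ) + 1)) ≤ X :=
    (eventually_ge_atTop 1).and (eventually_ge_atTop _)
  obtain ⟨X, ⟨α, P, hα0, hPi, hPn, hPα, hPh, hP0, hPx⟩, hX3, hX1, hXK⟩ :=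
    (hx.and_eventually (e3.and e4)).exists
  have hX0 : 0 < X := lt_of_lt_of_le one_pos hX1
  obtain ⟨k, hKk, hk1, hk2⟩ := FU_between (FU_tendsto n g hq) K hXK
  obtain ⟨hws1, hk3⟩ := hK k hKk
  obtain ⟨v, hv⟩ : ∃ v : Fin (n + 1) → ℤ, v = fun l : Fin (n + 1) => P.coeff (l : ℕ) :=
    ⟨_, rfl⟩
  have hval : tc ζ (rv v) 0 = aeval ζ P := by rw [hv]; exact vec_eval P hPn.le ζ
  have hvH : ∀ l, |(v l : ℝ)| ≤ (H70W.height P : ℝ) := by
    intro l
    rw [hv]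
    exact coeff_le_height P l
  have hvX : ∀ l, |(v l : ℝ)| ≤ X := fun l => (hvH l).trans hPh
  have h2d : X ^ d ≤ X ^ (2 * d) := Real.rpow_le_rpow_of_exponent_le hX1 (by linarith)
  have hlc : v (Fin.last n) ≠ 0 := by
    rw [hv]
    simp only [Fin.val_last]
    rw [← hPn]
    intro h1
    exact hPi.ne_zero (Polynomial.leadingCoeff_eq_zero.mp h1)
  have hv0 : v ≠ 0 := by
    intro h0
    exact hlc (congrFun h0 (Fin.last n))
  have hH1 : (1 : ℝ) ≤ (H70W.height P : ℝ) := by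
    refine le_trans ?_ (hvH (Fin.last n))
    exact_mod_cast Int.one_le_abs hlc
  have hH0 : (0 : ℝ) < (H70W.height P : ℝ) := by linarith
  have hXx : 0 < X ^ (-x) := Real.rpow_pos_of_pos hX0 _
  by_cases hM : Mul v (pk n (g k))
  · obtain ⟨h1, _⟩ := mul_pk n hn (g k) (hg k) v hv0 hM ζ
    have hroot : tc α (rv (pk n (g k))) 0 = 0 := by
      have hva : tc α (rv v) 0 = 0 := by rw [hv, vec_eval P hPn.le α, hPα]
      have h2 := (mul_pk n hn (g k) (hg k) v hv0 hM α).2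
      rw [hva, abs_zero] at h2
      exact abs_eq_zero.1 (le_antisymm h2 (abs_nonneg _))
    have hY := (root_dist n hn (g k) (hg k) (ws k) ζ α (hws k) (hq20 k) (hJ k) hroot).trans hPx
    have hq2 : (2 : ℝ) ≤ ((g k).q : ℝ) := by
      have h3 : (2 : ℤ) ≤ (g k).q := by have := hq k; omega
      exact_mod_cast h3
    have hq0 : (0 : ℝ) < ((g k).q : ℝ) := by linarith
    have hqn0 : 0 < ((g k).q : ℝ) ^ n := pow_pos hq0 n
    have hqH : ((g k).q : ℝ) ^ n ≤ (H70W.height P : ℝ) := by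
      have h4 := hvH (Fin.last n)
      linarith
    have hx0 : 0 ≤ x := by linarith
    have h5 : (H70W.height P : ℝ)⁻¹ * X ^ (-x) ≤ ((g k).q : ℝ) ^ (-(n * (1 + x))) := by
      have h6 : ((g k).q : ℝ) ^ (-((n : ℝ) * (1 + x))) = (((g k).q : ℝ) ^ n)⁻¹ * (((g k).q : ℝ) ^ n) ^ (-x) := by
        rw [← Real.rpow_natCast, ← Real.rpow_mul hq0.le, ← Real.rpow_neg hq0.le, ← Real.rpow_add hq0]
        congr 1
        ring
      rw [h6]
      have h7 : X ^ (-x) ≤ (((g k).q : ℝ) ^ n) ^ (-x) :=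
        Real.rpow_le_rpow_of_nonpos hqn0 (hqH.trans hPh) (by linarith)
      gcongr
    have h8 : ((g k).q : ℝ) ^ (-((n : ℝ) * ws k - n + 2)) ≤ ((g k).q : ℝ) ^ (-((n : ℝ) * (1 + x))) :=
      hY.trans h5
    have h9 : -((n : ℝ) * ws k - n + 2) ≤ -((n : ℝ) * (1 + x)) :=
      (Real.rpow_le_rpow_left_iff (by linarith : (1 : ℝ) < ((g k).q : ℝ))).1 h8
    have h10 : (n : ℝ) * ws k < n * (w + 2 - 2 / n + d) := mul_lt_mul_of_pos_left hws1 (by linarith)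
    have h11 : (n : ℝ) * (w + 2 - 2 / n + d) = n * (w + 2 + d) - 2 := by
      field_simp
      ring
    have h12 : (n : ℝ) * (1 + x) < n * (w + 1 + d) := by linarith
    have h13 : 1 + x < w + 1 + d := lt_of_mul_lt_mul_left h12 (by linarith)
    linarith
  · have h1 := hmain k X hk1 hk2 v hM hvX
    rw [hval] at h1
    have hXx1 : X ^ (-x) ≤ 1 := Real.rpow_le_one_of_one_le_of_nonpos hX1 (by linarith)
    have hd1 : |ζ - α| ≤ 1 := by
      refine hPx.trans ?_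
      have h3 : (H70W.height P : ℝ)⁻¹ ≤ 1 := inv_le_one_of_one_le₀ hH1
      calc (H70W.height P : ℝ)⁻¹ * X ^ (-x) ≤ 1 * 1 := by gcongr
        _ = 1 := one_mul 1
    have hPz : |aeval ζ P| ≤ C * X ^ (-x) := by
      refine (su_val P hPn.le ζ α hPα hd1).trans ?_
      rw [← hC]
      have h4 : (H70W.height P : ℝ) * |ζ - α| ≤ X ^ (-x) := by
        calc (H70W.height P : ℝ) * |ζ - α| ≤ (H70W.height P : ℝ) * ((H70W.height P : ℝ)⁻¹ * X ^ (-x)) := by gcongr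
          _ = X ^ (-x) := by rw [← mul_assoc, mul_inv_cancel₀ hH0.ne', one_mul]
      gcongr
    have h2 : X ^ (-((n : ℝ) + 1 / ((k : ℝ) + 1))) ≤ X ^ (-x) * (2 * C) := by
      have := h1.trans hPz
      rw [div_le_iff₀ (by norm_num)] at this
      linarith
    have h10 : X ^ (x - (n + 1 / ((k : ℝ) + 1))) ≤ 2 * C := by
      have h12 : X ^ (x - ((n : ℝ) + 1 / ((k : ℝ) + 1))) = X ^ x * X ^ (-((n : ℝ) + 1 / ((k : ℝ) + 1))) := by
        rw [← Real.rpow_add hX0]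
        congr 1
      rw [h12]
      calc X ^ x * X ^ (-((n : ℝ) + 1 / ((k : ℝ) + 1))) ≤ X ^ x * (X ^ (-x) * (2 * C)) := by gcongr
        _ = 2 * C := by
          rw [← mul_assoc, ← Real.rpow_add hX0, add_neg_cancel, Real.rpow_zero, one_mul]
    have h13 : X ^ (2 * d) ≤ X ^ (x - (n + 1 / ((k : ℝ) + 1))) :=
      Real.rpow_le_rpow_of_exponent_le hX1 (by linarith)
    linarith

end Pool.Agent.Lib.H42W
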